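import Mathlib
import Pool.Agent.Helper82.OS.Defs
import Pool.Agent.Helper82.OS.sgval
import Pool.Agent.Helper82.OS.cNval
set_option autoImplicit false
open Matrix MeasureTheory Set Metric Filter Topology
open scoped ENNReal ContDiff

namespace Pool.Agent.Helper82.OS



theorem osr_const_real {m : ℕ} (hm : 1 ≤ m) :
    2 * Real.pi * (2 * Real.pi ^ (((2 * m + 1 : ℕ) : ℝ) / 2) / Real.Gamma (((2 * m + 1 : ℕ) : ℝ) / 2)) =
      2 ^ (2 * m) * (2 * Real.pi ^ ((((2 * m : ℕ) : ℝ) + 1) / 2) * Real.Gamma (((2 * m : ℕ) : ℝ) / 2)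
        * Real.Gamma (((2 * m : ℕ) : ℝ) + 1 / 2)
      / (Real.Gamma (((2 * m : ℕ) : ℝ) + 1) * Real.Gamma ((2 * m : ℕ) : ℝ))) *
        ((16 : ℝ) ^ m / ((4 * m).choose (2 * m) : ℝ)) := by
  have hm0 : (0 : ℝ) < m := by exact_mod_cast hm
  have e1 : ((2 * m + 1 : ℕ) : ℝ) / 2 = (m : ℝ) + 1 / 2 := by
    push_cast
    ring
  have e2 : (((2 * m : ℕ) : ℝ) + 1) / 2 = (m : ℝ) + 1 / 2 := by
    push_cast
    ring
  have e3 : ((2 * m : ℕ) : ℝ) / 2 = (m : ℝ) := by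
    push_cast
    ring
  have e4 : ((2 * m : ℕ) : ℝ) = 2 * (m : ℝ) := by
    push_cast
    ring
  rw [e1, e2, e3]
  have h4 : Real.Gamma (((2 * m : ℕ) : ℝ) + 1) = ((2 * m).factorial : ℝ) :=
    Real.Gamma_nat_eq_factorial (2 * m)
  have h4' : Real.Gamma (((2 * m : ℕ) : ℝ) + 1) = (2 * (m : ℝ)) * Real.Gamma (2 * (m : ℝ)) := by
    rw [e4, Real.Gamma_add_one (by positivity)]
  have h5 : Real.Gamma (((4 * m : ℕ) : ℝ) + 1) = ((4 * m).factorial : ℝ) :=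
    Real.Gamma_nat_eq_factorial (4 * m)
  have h5' : Real.Gamma (((4 * m : ℕ) : ℝ) + 1) = (4 * (m : ℝ)) * Real.Gamma (4 * (m : ℝ)) := by
    have e5 : ((4 * m : ℕ) : ℝ) = 4 * (m : ℝ) := by
      push_cast
      ring
    rw [e5, Real.Gamma_add_one (by positivity)]
  have hch : ((4 * m).choose (2 * m) : ℝ) * ((2 * m).factorial : ℝ) * ((2 * m).factorial : ℝ) =
      ((4 * m).factorial : ℝ) := by
    have h := Nat.choose_mul_factorial_mul_factorial (n := 4 * m) (k := 2 * m) (by omega)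
    have h' : 4 * m - 2 * m = 2 * m := by omega
    rw [h'] at h
    exact_mod_cast h
  have d1 := Real.Gamma_mul_Gamma_add_half (m : ℝ)
  have d2 := Real.Gamma_mul_Gamma_add_half (2 * (m : ℝ))
  have p1 : (2 : ℝ) ^ (1 - 2 * (m : ℝ)) = 2 / 4 ^ m := by
    rw [Real.rpow_sub (by norm_num), Real.rpow_one]
    congr 1
    rw [Real.rpow_mul (by norm_num), Real.rpow_natCast]
    norm_num
  have p2 : (2 : ℝ) ^ (1 - 2 * (2 * (m : ℝ))) = 2 / 16 ^ m := by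
    rw [Real.rpow_sub (by norm_num), Real.rpow_one]
    congr 1
    have : 2 * (2 * (m : ℝ)) = 4 * (m : ℝ) := by ring
    rw [this, Real.rpow_mul (by norm_num), Real.rpow_natCast]
    norm_num
  rw [p1] at d1
  rw [p2] at d2
  have e6 : 2 * (2 * (m : ℝ)) = 4 * (m : ℝ) := by ring
  rw [e6] at d2
  rw [h4', e4]
  have hg1 : 0 < Real.Gamma (m : ℝ) := Real.Gamma_pos_of_pos hm0
  have hg2 : 0 < Real.Gamma ((m : ℝ) + 1 / 2) := Real.Gamma_pos_of_pos (by positivity)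
  have hg3 : 0 < Real.Gamma (2 * (m : ℝ) + 1 / 2) := Real.Gamma_pos_of_pos (by positivity)
  have hg5 : 0 < Real.Gamma (2 * (m : ℝ)) := Real.Gamma_pos_of_pos (by positivity)
  have hg6 : 0 < Real.Gamma (4 * (m : ℝ)) := Real.Gamma_pos_of_pos (by positivity)
  have hP : 0 < Real.pi ^ ((m : ℝ) + 1 / 2) := Real.rpow_pos_of_pos Real.pi_pos _
  have hC : (0 : ℝ) < ((4 * m).choose (2 * m) : ℝ) := by
    exact_mod_cast Nat.choose_pos (by omega)
  have hsp : Real.sqrt Real.pi ^ 2 = Real.pi := Real.sq_sqrt Real.pi_pos.le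
  -- relation between C and the Gamma values
  have hCG : ((4 * m).choose (2 * m) : ℝ) * (2 * (m : ℝ) * Real.Gamma (2 * (m : ℝ))) *
      (2 * (m : ℝ) * Real.Gamma (2 * (m : ℝ))) = 4 * (m : ℝ) * Real.Gamma (4 * (m : ℝ)) := by
    rw [← h4', ← h5', h4, h5, hch]
  have hCG' : ((4 * m).choose (2 * m) : ℝ) * (m : ℝ) * Real.Gamma (2 * (m : ℝ)) ^ 2 =
      Real.Gamma (4 * (m : ℝ)) := by
    have h6 : (4 * (m : ℝ)) * (((4 * m).choose (2 * m) : ℝ) * (m : ℝ) * Real.Gamma (2 * (m : ℝ)) ^ 2) =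
        (4 * (m : ℝ)) * Real.Gamma (4 * (m : ℝ)) := by
      rw [← hCG]
      ring
    exact mul_left_cancel₀ (by positivity) h6
  have key : 2 * Real.pi * ((2 * (m : ℝ) * Real.Gamma (2 * (m : ℝ))) * Real.Gamma (2 * (m : ℝ)) *
      ((4 * m).choose (2 * m) : ℝ)) = 4 ^ m * 16 ^ m * (Real.Gamma (m : ℝ) *
      Real.Gamma ((m : ℝ) + 1 / 2)) * Real.Gamma (2 * (m : ℝ) + 1 / 2) := by
    have h7 : 4 ^ m * 16 ^ m * (Real.Gamma (m : ℝ) *
        Real.Gamma ((m : ℝ) + 1 / 2)) * Real.Gamma (2 * (m : ℝ) + 1 / 2) =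
        4 * Real.pi * Real.Gamma (4 * (m : ℝ)) := by
      rw [d1]
      have h8 : 4 ^ m * 16 ^ m * (Real.Gamma (2 * (m : ℝ)) * (2 / 4 ^ m) * Real.sqrt Real.pi) *
          Real.Gamma (2 * (m : ℝ) + 1 / 2) =
          2 * 16 ^ m * Real.sqrt Real.pi *
            (Real.Gamma (2 * (m : ℝ)) * Real.Gamma (2 * (m : ℝ) + 1 / 2)) := by
        field_simp
      rw [h8, d2]
      have h9 : 2 * 16 ^ m * Real.sqrt Real.pi *
          (Real.Gamma (4 * (m : ℝ)) * (2 / 16 ^ m) * Real.sqrt Real.pi) =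
          4 * Real.sqrt Real.pi ^ 2 * Real.Gamma (4 * (m : ℝ)) := by
        field_simp
        ring
      rw [h9, hsp]
    rw [h7, ← hCG']
    ring
  have e7 : (2 : ℝ) ^ (2 * m) = 4 ^ m := by
    rw [pow_mul]
    norm_num
  rw [e7, mul_div_assoc', div_eq_iff hg2.ne']
  have h10 : 4 ^ m * (2 * Real.pi ^ ((m : ℝ) + 1 / 2) * Real.Gamma (m : ℝ) *
      Real.Gamma (2 * (m : ℝ) + 1 / 2) / (2 * (m : ℝ) * Real.Gamma (2 * (m : ℝ)) *
      Real.Gamma (2 * (m : ℝ)))) * (16 ^ m / ((4 * m).choose (2 * m) : ℝ)) *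
      Real.Gamma ((m : ℝ) + 1 / 2) =
      2 * Real.pi ^ ((m : ℝ) + 1 / 2) * (4 ^ m * 16 ^ m * (Real.Gamma (m : ℝ) *
      Real.Gamma ((m : ℝ) + 1 / 2)) * Real.Gamma (2 * (m : ℝ) + 1 / 2)) /
      ((2 * (m : ℝ) * Real.Gamma (2 * (m : ℝ))) * Real.Gamma (2 * (m : ℝ)) *
      ((4 * m).choose (2 * m) : ℝ)) := by
    field_simp
  rw [h10, ← key, eq_div_iff (by positivity)]
  ring

theorem osr_const {m : ℕ} (hm : 1 ≤ m) :
    ENNReal.ofReal (2 * Real.pi) * sg (2 * m + 1) univ =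
      ENNReal.ofReal (2 ^ (2 * m)) * cN (2 * m) *
        ENNReal.ofReal ((16 : ℝ) ^ m / ((4 * m).choose (2 * m) : ℝ)) := by
  have hm0 : (0 : ℝ) < m := by exact_mod_cast hm
  rw [sgval (k := 2 * m + 1) (by omega), cNval (N := 2 * m) (even_two_mul m) (by omega)]
  have hpi := Real.pi_pos
  have g1 : 0 ≤ Real.Gamma (((2 * m : ℕ) : ℝ) / 2) := (Real.Gamma_nonneg_of_nonneg (by positivity))
  have g2 : 0 ≤ Real.Gamma (((2 * m : ℕ) : ℝ) + 1 / 2) := (Real.Gamma_nonneg_of_nonneg (by positivity))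
  have g3 : 0 ≤ Real.Gamma (((2 * m : ℕ) : ℝ) + 1) := (Real.Gamma_nonneg_of_nonneg (by positivity))
  have g4 : 0 ≤ Real.Gamma ((2 * m : ℕ) : ℝ) := (Real.Gamma_nonneg_of_nonneg (by positivity))
  rw [← ENNReal.ofReal_mul (by positivity), ← ENNReal.ofReal_mul (by positivity),
    ← ENNReal.ofReal_mul (by positivity)]
  rw [osr_const_real hm]

end Pool.Agent.Helper82.OS
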