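import Mathlib
import Pool.Agent.Helper82.OS.Defs
import Pool.Agent.Helper82.OS.HausFin
import Pool.Agent.Helper82.OS.sgval
import Pool.Agent.Helper82.OS.cNval
import Pool.Agent.Helper82.OS.haus_sg
import Pool.Agent.Helper82.OS.I1
import Pool.Agent.Helper971.OS.R_const
set_option autoImplicit false
open Matrix MeasureTheory Set Metric Filter Topology
open scoped ENNReal ContDiff

namespace Pool.Agent.Helper82.OS




theorem osr_sphere_pos (k : ℕ) :
    (Measure.hausdorffMeasure (k : ℝ) : Measure (E (k + 1))) (sphere 0 1) ≠ 0 := by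
  -- projection
  obtain ⟨f, hf⟩ : ∃ f : E (k + 1) → (Fin k → ℝ), f = fun x i => x.ofLp i.succ := ⟨_, rfl⟩
  have hlip : LipschitzWith 1 f := by
    apply LipschitzWith.of_dist_le_mul
    intro x y
    rw [NNReal.coe_one, one_mul, dist_pi_le_iff dist_nonneg]
    intro i
    rw [hf]
    dsimp only
    rw [Real.dist_eq, EuclideanSpace.dist_eq]
    apply Real.abs_le_sqrt
    have : (x.ofLp i.succ - y.ofLp i.succ) ^ 2 = dist (x.ofLp i.succ) (y.ofLp i.succ) ^ 2 := by
      rw [Real.dist_eq, sq_abs]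
    rw [this]
    exact Finset.single_le_sum (f := fun j => dist (x.ofLp j) (y.ofLp j) ^ 2)
      (fun j _ => sq_nonneg _) (Finset.mem_univ i.succ)
  have h1 := hlip.hausdorffMeasure_image_le (d := (k : ℝ)) (by positivity) (sphere (0 : E (k + 1)) 1)
  obtain ⟨O, hO⟩ : ∃ O : Set (Fin k → ℝ), O = {y | ∑ i, (y i) ^ 2 < 1} := ⟨_, rfl⟩
  have hOopen : IsOpen O := by
    rw [hO]
    exact isOpen_lt (by fun_prop) continuous_const
  have hOne : O.Nonempty := ⟨0, by rw [hO]; simp⟩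
  have hsub : O ⊆ f '' (sphere (0 : E (k + 1)) 1) := by
    intro y hy
    rw [hO] at hy
    have hy1 : ∑ i, (y i) ^ 2 < 1 := hy
    refine ⟨WithLp.toLp 2 (Fin.cons (Real.sqrt (1 - ∑ i, (y i) ^ 2)) y), ?_, ?_⟩
    · rw [mem_sphere_zero_iff_norm, EuclideanSpace.norm_eq]
      rw [Fin.sum_univ_succ]
      simp only [Fin.cons_zero, Fin.cons_succ, Real.norm_eq_abs, sq_abs]
      rw [Real.sq_sqrt (by linarith)]
      simp
    · rw [hf]
      funext i
      simp
  have hvol : (Measure.hausdorffMeasure (k : ℝ) : Measure (Fin k → ℝ)) = volume := by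
    have := MeasureTheory.hausdorffMeasure_pi_real (ι := Fin k)
    rw [Fintype.card_fin] at this
    exact this
  intro h0
  rw [h0, mul_zero, hvol] at h1
  have h2 : 0 < volume O := hOopen.measure_pos volume hOne
  have h3 : volume O ≤ volume (f '' (sphere (0 : E (k + 1)) 1)) := measure_mono hsub
  have h4 := h3.trans h1
  exact absurd h4 (not_le.mpr h2)

theorem osr_dens_cont {D : ℕ} {V : E D → E D} (hV : ContDiff ℝ ∞ V) : Continuous (dens V) := by
  have h0 : Continuous (fderiv ℝ V) := hV.continuous_fderiv (by simp)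
  have h1 : Continuous (fun x : E D => (x.ofLp : Fin D → ℝ)) := by fun_prop
  have h2 : Continuous (fun x : E D => mat (fderiv ℝ V x)) := by
    apply continuous_matrix
    intro i j
    unfold mat
    simp only [Matrix.of_apply]
    have h3 : Continuous (fun x : E D => (fderiv ℝ V x) (EuclideanSpace.single j 1)) :=
      h0.clm_apply continuous_const
    have h4 : Continuous (fun y : E D => y.ofLp i) := by fun_prop
    exact h4.comp h3
  have h3 : Continuous (fun x : E D => (1 : Matrix (Fin D) (Fin D) ℝ) - vecMulVec x.ofLp x.ofLp) := by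
    apply Continuous.sub continuous_const
    apply continuous_matrix
    intro i j
    simp only [vecMulVec_apply]
    fun_prop
  have h4 : Continuous (fun x : E D => Bm V x) := by
    unfold Bm
    exact (h3.matrix_mul h2).matrix_mul h3
  unfold dens
  apply Real.continuous_sqrt.comp
  apply Continuous.matrix_det
  exact continuous_const.add (h4.matrix_mul h4.matrix_transpose)

theorem osr_lower {m : ℕ} (hm : 1 ≤ m) (hS : Star (2 * m)) {V : E (2 * m + 2) → E (2 * m + 2)}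
    (hV : UT V) :
    ENNReal.ofReal ((16 : ℝ) ^ m / ((4 * m).choose (2 * m) : ℝ)) * sg (2 * m + 2) univ ≤
      ∫⁻ x : sphere (0 : E (2 * m + 2)) 1, ENNReal.ofReal (dens V x) ∂(sg (2 * m + 2)) := by
  obtain ⟨K, hK⟩ : ∃ K, K = ENNReal.ofReal ((16 : ℝ) ^ m / ((4 * m).choose (2 * m) : ℝ)) := ⟨_, rfl⟩
  rw [← hK]
  have hml := main_lower (N := 2 * m) (by simp) (by omega) hS hV
  have hc := osr_const hm
  rw [← hK] at hc
  rw [hc] at hml
  have hmeas : Measurable (fun x : E (2 * m + 1 + 1) => ENNReal.ofReal (dens V x)) :=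
    ENNReal.measurable_ofReal.comp (osr_dens_cont hV.sm).measurable
  have hh := haus_sg (k := 2 * m + 1) (fun x => ENNReal.ofReal (dens V x)) hmeas
  have hfin := B08_sphere_finite (2 * m + 1)
  have hpos := osr_sphere_pos (2 * m + 1)
  obtain ⟨A, hA⟩ : ∃ A, A = ENNReal.ofReal (2 ^ (2 * m)) * cN (2 * m) := ⟨_, rfl⟩
  rw [← hA] at hml
  have hA0 : A ≠ 0 := by
    rw [hA, cNval (by simp) (by omega)]
    refine mul_ne_zero ?_ ?_
    · rw [Ne, ENNReal.ofReal_eq_zero, not_le]; positivity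
    · rw [Ne, ENNReal.ofReal_eq_zero, not_le]
      have hm' : (0 : ℝ) < ((2 * m : ℕ) : ℝ) := by exact_mod_cast (by omega : 0 < 2 * m)
      have g1 : 0 < Real.Gamma (((2 * m : ℕ) : ℝ) / 2) := Real.Gamma_pos_of_pos (by positivity)
      have g2 : 0 < Real.Gamma (((2 * m : ℕ) : ℝ) + 1 / 2) := Real.Gamma_pos_of_pos (by positivity)
      have g3 : 0 < Real.Gamma (((2 * m : ℕ) : ℝ) + 1) := Real.Gamma_pos_of_pos (by positivity)
      have g4 : 0 < Real.Gamma (((2 * m : ℕ) : ℝ)) := Real.Gamma_pos_of_pos hm'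
      positivity
  have hAt : A ≠ ⊤ := by
    rw [hA, cNval (by simp) (by omega)]
    exact ENNReal.mul_ne_top ENNReal.ofReal_ne_top ENNReal.ofReal_ne_top
  obtain ⟨μS, hμS⟩ : ∃ μS, μS = (Measure.hausdorffMeasure ((2 * m + 1 : ℕ) : ℝ) :
    Measure (E (2 * m + 2))) (sphere 0 1) := ⟨_, rfl⟩
  obtain ⟨Iv, hIv⟩ : ∃ Iv, Iv = ∫⁻ x in sphere (0 : E (2 * m + 2)) 1,
    ENNReal.ofReal (dens V x) ∂(Measure.hausdorffMeasure ((2 * m + 1 : ℕ) : ℝ)) := ⟨_, rfl⟩
  change _ ≤ A * (∫⁻ x in sphere (0 : E (2 * m + 2)) 1,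
    ENNReal.ofReal (dens V x) ∂(Measure.hausdorffMeasure ((2 * m + 1 : ℕ) : ℝ))) at hml
  change A * K * ((Measure.hausdorffMeasure ((2 * m + 1 : ℕ) : ℝ) :
    Measure (E (2 * m + 2))) (sphere 0 1)) ≤ _ at hml
  rw [← hμS, ← hIv] at hml
  change (∫⁻ x in sphere (0 : E (2 * m + 2)) 1,
    ENNReal.ofReal (dens V x) ∂(Measure.hausdorffMeasure ((2 * m + 1 : ℕ) : ℝ))) * sg (2 * m + 2) univ
      = ((Measure.hausdorffMeasure ((2 * m + 1 : ℕ) : ℝ) :
    Measure (E (2 * m + 2))) (sphere 0 1)) * ∫⁻ x : sphere (0 : E (2 * m + 2)) 1,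
      ENNReal.ofReal (dens V x) ∂(sg (2 * m + 2)) at hh
  rw [← hμS, ← hIv] at hh
  change ((Measure.hausdorffMeasure ((2 * m + 1 : ℕ) : ℝ) :
    Measure (E (2 * m + 2))) (sphere 0 1)) ≠ ⊤ at hfin
  change ((Measure.hausdorffMeasure ((2 * m + 1 : ℕ) : ℝ) :
    Measure (E (2 * m + 2))) (sphere 0 1)) ≠ 0 at hpos
  rw [← hμS] at hfin hpos
  rw [mul_assoc] at hml
  have h1 : K * μS ≤ Iv := (ENNReal.mul_le_mul_iff_right hA0 hAt).mp hml
  have h2 : μS * (K * sg (2 * m + 2) univ) ≤ μS * ∫⁻ x : sphere (0 : E (2 * m + 2)) 1,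
      ENNReal.ofReal (dens V x) ∂(sg (2 * m + 2)) := by
    rw [← hh]
    calc μS * (K * sg (2 * m + 2) univ) = (K * μS) * sg (2 * m + 2) univ := by ring
      _ ≤ Iv * sg (2 * m + 2) univ := by gcongr
  exact (ENNReal.mul_le_mul_iff_right hpos hfin).mp h2

end Pool.Agent.Helper82.OS
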