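import Mathlib
import Pool.Agent.Helper82.OS.Defs
import Pool.Agent.Helper82.OS.HausFin
import Pool.Agent.Helper82.OS.sgval
import Pool.Agent.Helper82.OS.cNval
import Pool.Agent.Helper82.OS.haus_sg
import Pool.Agent.Helper82.OS.I1
import Pool.Agent.Helper82.OS.JJ_homog
import Pool.Agent.Helper971.OS.R_const
import Pool.Agent.Helper971.OS.R_lower
import Pool.Agent.Helper971.OS.Q_mid
set_option autoImplicit false
open Matrix MeasureTheory Set Metric Filter Topology
open scoped ENNReal ContDiff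

namespace Pool.Agent.Helper82.OS



theorem meas_abs_mid {D : ℕ} (F : E D × E D → ℝ) (hF : Continuous F) :
    Measurable (fun x : E D => ∫⁻ f : sphere (0 : E D) 1,
          ENNReal.ofReal (F (x, (f : E D))) ∂(sg D)) := by
  have h0 : Continuous (fun p : E D × sphere (0 : E D) 1 => ((p.1, (p.2 : E D)) : E D × E D)) :=
    continuous_fst.prodMk (continuous_subtype_val.comp continuous_snd)
  have h1 : Continuous (fun p : E D × sphere (0 : E D) 1 => F (p.1, (p.2 : E D))) := hF.comp h0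
  have h2 : Measurable (fun p : E D × sphere (0 : E D) 1 =>
      ENNReal.ofReal (F (p.1, (p.2 : E D)))) :=
    h1.measurable.ennreal_ofReal
  exact h2.lintegral_prod_right'

theorem g_meas_mid {D : ℕ} {V : E D → E D} (hV : UT V) :
    Measurable (fun x : E D => ∫⁻ f : sphere (0 : E D) 1,
          ENNReal.ofReal (JJ x.ofLp (V x).ofLp (Bm V x) (f : E D).ofLp) ∂(sg D)) :=
  meas_abs_mid (fun p => JJ p.1.ofLp (V p.1).ofLp (Bm V p.1) p.2.ofLp) (JJ_cont hV)

theorem fin_mid {μ J K s c a N : ℝ≥0∞} (h1 : a * N * c * μ ≤ a * J) (h2 : J * s = μ * K)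
    (hμ0 : μ ≠ 0) (hμt : μ ≠ ⊤) (ha0 : a ≠ 0) (hat : a ≠ ⊤) : N * (c * s) ≤ K := by
  have h6 : (a * μ) * (N * (c * s)) ≤ (a * μ) * K := by
    calc (a * μ) * (N * (c * s)) = (a * N * c * μ) * s := by ring
      _ ≤ (a * J) * s := by gcongr
      _ = a * (J * s) := by ring
      _ = a * (μ * K) := by rw [h2]
      _ = (a * μ) * K := by ring
  exact (ENNReal.mul_le_mul_iff_right (mul_ne_zero ha0 hμ0) (ENNReal.mul_ne_top hat hμt)).mp h6

theorem mid_sg {m : ℕ} (hm : 1 ≤ m) {V : E (2 * m + 2) → E (2 * m + 2)} (hV : UT V) :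
    cN (2 * m) * (ENNReal.ofReal ((16 : ℝ) ^ m / ((4 * m).choose (2 * m) : ℝ)) * sg (2 * m + 2) univ)
      ≤ ∫⁻ x : sphere (0 : E (2 * m + 2)) 1, (∫⁻ f : sphere (0 : E (2 * m + 2)) 1,
          ENNReal.ofReal (JJ (x : E (2 * m + 2)).ofLp (V x).ofLp (Bm V x) (f : E (2 * m + 2)).ofLp)
            ∂(sg (2 * m + 2))) ∂(sg (2 * m + 2)) := by
  have h1 := main_mid (N := 2 * m) (even_two_mul m) (by omega) hV
  have h2 := haus_sg (k := 2 * m + 1) (fun x => ∫⁻ f : sphere (0 : E (2 * m + 2)) 1,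
          ENNReal.ofReal (JJ x.ofLp (V x).ofLp (Bm V x) (f : E (2 * m + 2)).ofLp) ∂(sg (2 * m + 2)))
          (g_meas_mid hV)
  rw [osr_const hm] at h1
  exact fin_mid h1 h2 (osr_sphere_pos (2 * m + 1)) (B08_sphere_finite (2 * m + 1))
    (by simp) ENNReal.ofReal_ne_top

end Pool.Agent.Helper82.OS
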