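import Mathlib
import Pool.Agent.Helper82.OS.Defs
import Pool.Agent.Helper82.OS.HausFin
import Pool.Agent.Helper82.OS.sgval
import Pool.Agent.Helper82.OS.cNval
import Pool.Agent.Helper82.OS.haus_sg
import Pool.Agent.Helper82.OS.I1
import Pool.Agent.Helper82.OS.JJ_homog
import Pool.Agent.Helper971.OS.R_const
import Pool.Agent.Helper971.OS.R_lower
import Pool.Agent.Helper971.OS.Q_mid
import Pool.Agent.Helper971.OS.R_mid
set_option autoImplicit false
open Matrix MeasureTheory Set Metric Filter Topology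
open scoped ENNReal ContDiff

namespace Pool.Agent.Helper82.OS



theorem w_innerdot {D : ℕ} (x y : E D) : inner ℝ x y = x.ofLp ⬝ᵥ y.ofLp := by
  simp [PiLp.inner_apply, dotProduct, mul_comm]

theorem w_vmv {D : ℕ} (a b k : Fin D → ℝ) : vecMulVec a b *ᵥ k = (b ⬝ᵥ k) • a := by
  ext i
  simp only [mulVec, dotProduct, vecMulVec_apply, Pi.smul_apply, smul_eq_mul, Finset.sum_mul]
  refine Finset.sum_congr rfl fun j _ => ?_
  ring

theorem w_mat {D : ℕ} (L : E D →L[ℝ] E D) (k : E D) : mat L *ᵥ k.ofLp = (L k).ofLp := by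
  ext i
  have hk : k = ∑ j, k.ofLp j • EuclideanSpace.single j (1:ℝ) := by
    have := (EuclideanSpace.basisFun (Fin D) ℝ).sum_repr k
    simpa using this.symm
  conv_rhs => rw [hk]
  simp only [map_sum, map_smul, mat, mulVec, dotProduct, Matrix.of_apply]
  simp [mul_comm]

theorem w_tan {D : ℕ} {V : E D → E D} (hV : UT V) {x : E D} (hx : ‖x‖ = 1) (k : E D)
    (hk : inner ℝ k x = 0) : inner ℝ x (fderiv ℝ V x k) + inner ℝ k (V x) = 0 := by
  by_cases hk0 : k = 0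
  · subst hk0; simp
  have hr : ‖k‖ ≠ 0 := by simpa using hk0
  set r := ‖k‖ with hrdef
  have h1 : HasDerivAt (fun t : ℝ => Real.cos (r*t)) (-Real.sin (r*0) * (r*1)) 0 :=
    ((hasDerivAt_id' (0:ℝ)).const_mul r).cos
  have h2 : HasDerivAt (fun t : ℝ => Real.sin (r*t) / r) (Real.cos (r*0) * (r*1) / r) 0 :=
    (((hasDerivAt_id' (0:ℝ)).const_mul r).sin).div_const r
  have hγ : HasDerivAt (fun t : ℝ => Real.cos (r*t) • x + (Real.sin (r*t) / r) • k) k 0 := by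
    have := (h1.smul_const x).add (h2.smul_const k)
    have e : (-Real.sin (r*0) * (r*1)) • x + (Real.cos (r*0) * (r*1) / r) • k = k := by
      simp [hr]
    rw [e] at this
    exact this
  have hVd : DifferentiableAt ℝ V x := (hV.sm.differentiable (by simp)) x
  have hg0 : (fun t : ℝ => Real.cos (r*t) • x + (Real.sin (r*t) / r) • k) 0 = x := by simp
  have hVd' : HasFDerivAt V (fderiv ℝ V x)
      ((fun t : ℝ => Real.cos (r*t) • x + (Real.sin (r*t) / r) • k) 0) := by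
    rw [hg0]; exact hVd.hasFDerivAt
  have hVγ := hVd'.comp_hasDerivAt (0:ℝ) hγ
  have hF := hγ.inner ℝ hVγ
  have hnorm : ∀ t : ℝ, ‖Real.cos (r*t) • x + (Real.sin (r*t) / r) • k‖ = 1 := by
    intro t
    have : ‖Real.cos (r*t) • x + (Real.sin (r*t) / r) • k‖^2 = 1 := by
      rw [@norm_add_sq_real]
      rw [inner_smul_left, inner_smul_right, real_inner_comm, hk, norm_smul, norm_smul, hx, ← hrdef]
      simp only [mul_zero, add_zero, mul_one, Real.norm_eq_abs, sq_abs, mul_pow, div_pow, abs_div]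
      have hr2 : r^2 ≠ 0 := pow_ne_zero _ hr
      rw [div_mul_cancel₀ _ hr2]
      exact Real.cos_sq_add_sin_sq _
    have h0 := norm_nonneg (Real.cos (r*t) • x + (Real.sin (r*t) / r) • k)
    nlinarith
  have hz : (fun t : ℝ => inner ℝ (Real.cos (r*t) • x + (Real.sin (r*t) / r) • k)
      ((V ∘ (fun t : ℝ => Real.cos (r*t) • x + (Real.sin (r*t) / r) • k)) t)) = fun _ => 0 := by
    funext t
    exact hV.tan _ (hnorm t)
  have hF2 := hF
  rw [hz] at hF2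
  have huniq := hF2.unique (hasDerivAt_const (0:ℝ) (0:ℝ))
  simp only [Function.comp] at huniq
  simp only [mul_zero, Real.cos_zero, Real.sin_zero, zero_div, one_smul, zero_smul, add_zero] at huniq
  exact huniq

theorem w_Bm {D : ℕ} {V : E D → E D} (hV : UT V) {x : E D} (hx : ‖x‖ = 1) (k : E D)
    (hk : inner ℝ k x = 0) (hkV : inner ℝ k (V x) = 0) :
    Bm V x *ᵥ k.ofLp = (fderiv ℝ V x k).ofLp := by
  have ht := w_tan hV hx k hk
  rw [hkV, add_zero] at ht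
  have hk' : x.ofLp ⬝ᵥ k.ofLp = 0 := by
    rw [← w_innerdot, real_inner_comm]; exact hk
  unfold Bm
  have e : (1 - vecMulVec x.ofLp x.ofLp) *ᵥ k.ofLp = k.ofLp := by
    rw [sub_mulVec, one_mulVec, w_vmv, hk', zero_smul, sub_zero]
  rw [← mulVec_mulVec, ← mulVec_mulVec, e,
    w_mat, sub_mulVec, one_mulVec, w_vmv, ← w_innerdot, ht, zero_smul, sub_zero]

theorem w_P {D : ℕ} (x v : Fin D → ℝ) (hx : x ⬝ᵥ x = 1) (hv : v ⬝ᵥ v = 1) (hxv : x ⬝ᵥ v = 0)
    (B : Matrix (Fin D) (Fin D) ℝ) (lam : ℝ)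
    (h : ∀ k : Fin D → ℝ, x ⬝ᵥ k = 0 → v ⬝ᵥ k = 0 → B *ᵥ k = lam • k) :
    B * (1 - vecMulVec x x - vecMulVec v v) = lam • (1 - vecMulVec x x - vecMulVec v v) := by
  apply Matrix.toLin'.injective
  apply LinearMap.ext
  intro k
  rw [Matrix.toLin'_apply, Matrix.toLin'_apply, ← mulVec_mulVec, smul_mulVec]
  have e : (1 - vecMulVec x x - vecMulVec v v) *ᵥ k = k - (x ⬝ᵥ k) • x - (v ⬝ᵥ k) • v := by
    rw [sub_mulVec, sub_mulVec, one_mulVec, w_vmv, w_vmv]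
  apply h
  · rw [e, dotProduct_sub, dotProduct_sub, dotProduct_smul, dotProduct_smul, hx, hxv]
    simp
  · rw [e, dotProduct_sub, dotProduct_sub, dotProduct_smul, dotProduct_smul, hv,
      dotProduct_comm v x, hxv]
    simp

theorem w_trP {m : ℕ} (x v : Fin (2*m+2) → ℝ) (hx : x ⬝ᵥ x = 1) (hv : v ⬝ᵥ v = 1) :
    (1 - vecMulVec x x - vecMulVec v v : Matrix (Fin (2*m+2)) (Fin (2*m+2)) ℝ).trace = 2*m := by
  rw [trace_sub, trace_sub, trace_one, trace_vecMulVec, trace_vecMulVec, hx, hv]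
  simp
  ring

theorem umb_of_eq2 {m : ℕ} (hm : 1 ≤ m) (hS : Star (2 * m))
    (hE : ∀ (x v : Fin (2 * m + 2) → ℝ) (B : Matrix (Fin (2 * m + 2)) (Fin (2 * m + 2)) ℝ),
      x ⬝ᵥ x = 1 → v ⬝ᵥ v = 1 → x ⬝ᵥ v = 0 → B *ᵥ x = 0 → x ᵥ* B = 0 → v ᵥ* B = 0 →
      ∫⁻ f : sphere (0 : E (2 * m + 2)) 1,
        ENNReal.ofReal (JJ x v B (f : E (2 * m + 2)).ofLp) ∂(sg (2 * m + 2))
        = ENNReal.ofReal (Real.sqrt (1 + B * Bᵀ).det) * cN (2 * m) →
      ∃ lam : ℝ, ∀ k : Fin (2 * m + 2) → ℝ, x ⬝ᵥ k = 0 → v ⬝ᵥ k = 0 → B *ᵥ k = lam • k)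
    {V : E (2 * m + 2) → E (2 * m + 2)} (hV : UT V)
    (heq : ∫⁻ x : sphere (0 : E (2 * m + 2)) 1, ENNReal.ofReal (dens V x) ∂(sg (2 * m + 2)) ≤
      ENNReal.ofReal ((16 : ℝ) ^ m / ((4 * m).choose (2 * m) : ℝ)) * sg (2 * m + 2) univ) :
    ∀ x : E (2 * m + 2), ‖x‖ = 1 → ∃ lam : ℝ, ∀ k : E (2 * m + 2), inner ℝ k x = 0 →
      inner ℝ k (V x) = 0 → fderiv ℝ V x k = lam • k := by
  have hcN : cN (2*m) ≠ ⊤ := by
    rw [cNval (even_two_mul m) (by omega)]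
    exact ENNReal.ofReal_ne_top
  have hfin : sg (2*m+2) univ ≠ ⊤ := by
    have := sgval (k := 2*m+2) (by omega)
    rw [this]; exact ENNReal.ofReal_ne_top
  have hxx : ∀ x : E (2*m+2), ‖x‖ = 1 → x.ofLp ⬝ᵥ x.ofLp = 1 := fun x hx => by
    rw [← w_innerdot, real_inner_self_eq_norm_sq, hx]; norm_num
  have hvv : ∀ x : E (2*m+2), ‖x‖ = 1 → (V x).ofLp ⬝ᵥ (V x).ofLp = 1 := fun x hx => by
    rw [← w_innerdot, real_inner_self_eq_norm_sq, hV.unit x hx]; norm_num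
  have hxv : ∀ x : E (2*m+2), ‖x‖ = 1 → x.ofLp ⬝ᵥ (V x).ofLp = 0 := fun x hx => by
    rw [← w_innerdot]; exact hV.tan x hx
  set g : sphere (0 : E (2 * m + 2)) 1 → ℝ≥0∞ := fun x =>
    ∫⁻ f : sphere (0 : E (2 * m + 2)) 1,
          ENNReal.ofReal (JJ (x : E (2 * m + 2)).ofLp (V x).ofLp (Bm V x) (f : E (2 * m + 2)).ofLp)
            ∂(sg (2 * m + 2)) with hg
  set G : sphere (0 : E (2 * m + 2)) 1 → ℝ≥0∞ := fun x =>
    ENNReal.ofReal (dens V x) * cN (2*m) with hG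
  have hle : ∀ x, g x ≤ G x := by
    intro x
    have hx : ‖(x : E (2*m+2))‖ = 1 := by simpa using x.2
    obtain ⟨p1, p2, p3⟩ := Bm_props hV hx
    exact hS _ _ _ (hxx x hx) (hvv x hx) (hxv x hx) p1 p2 p3
  have hdm : Measurable fun x : sphere (0 : E (2 * m + 2)) 1 => ENNReal.ofReal (dens V x) :=
    ((dens_cont_aux_I1x hV).comp continuous_subtype_val).measurable.ennreal_ofReal
  have hGm : Measurable G := hdm.mul_const _
  have hGint : ∫⁻ x, G x ∂(sg (2*m+2)) ≤ cN (2 * m) * (ENNReal.ofReal ((16 : ℝ) ^ m / ((4 * m).choose (2 * m) : ℝ)) * sg (2 * m + 2) univ) := by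
    rw [hG, lintegral_mul_const _ hdm, mul_comm]
    gcongr
  have hmid := mid_sg hm hV
  have hGg : ∫⁻ x, G x ∂(sg (2*m+2)) ≤ ∫⁻ x, g x ∂(sg (2*m+2)) := hGint.trans hmid
  have hgfin : ∫⁻ x, g x ∂(sg (2*m+2)) ≠ ⊤ := by
    have h1 : ∫⁻ x, g x ∂(sg (2*m+2)) ≤ ∫⁻ x, G x ∂(sg (2*m+2)) := lintegral_mono hle
    refine ne_top_of_le_ne_top ?_ (h1.trans hGint)
    exact ENNReal.mul_ne_top hcN (ENNReal.mul_ne_top ENNReal.ofReal_ne_top hfin)
  have hae : g =ᵐ[sg (2*m+2)] G :=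
    ae_eq_of_ae_le_of_lintegral_le (Filter.Eventually.of_forall hle) hgfin hGm.aemeasurable hGg
  -- the projection
  set P : sphere (0 : E (2 * m + 2)) 1 → Matrix (Fin (2*m+2)) (Fin (2*m+2)) ℝ := fun x =>
    1 - vecMulVec (x : E (2*m+2)).ofLp (x : E (2*m+2)).ofLp - vecMulVec (V x).ofLp (V x).ofLp with hP
  have hVc : Continuous fun x : sphere (0 : E (2 * m + 2)) 1 => (V x).ofLp :=
    (PiLp.continuous_ofLp 2 _).comp (hV.sm.continuous.comp continuous_subtype_val)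
  have hxc : Continuous fun x : sphere (0 : E (2 * m + 2)) 1 => (x : E (2*m+2)).ofLp :=
    (PiLp.continuous_ofLp 2 _).comp continuous_subtype_val
  have hPc : Continuous P := by
    have a1 := hxc.matrix_vecMulVec hxc
    have a2 := hVc.matrix_vecMulVec hVc
    exact (continuous_const.sub a1).sub a2
  have hBc : Continuous fun x : sphere (0 : E (2 * m + 2)) 1 => Bm V x * P x :=
    ((Bm_cont_aux_I1x hV).comp continuous_subtype_val).matrix_mul hPc
  have hm0 : (2 * (m:ℝ)) ≠ 0 := by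
    have : (1:ℝ) ≤ m := by exact_mod_cast hm
    positivity
  have hae2 : (fun x : sphere (0 : E (2 * m + 2)) 1 => Bm V x * P x) =ᵐ[sg (2*m+2)]
      (fun x : sphere (0 : E (2 * m + 2)) 1 => ((Bm V x * P x).trace / (2 * m)) • P x) := by
    filter_upwards [hae] with x hx'
    have hx : ‖(x : E (2*m+2))‖ = 1 := by simpa using x.2
    obtain ⟨p1, p2, p3⟩ := Bm_props hV hx
    obtain ⟨lam, hlam⟩ := hE _ _ _ (hxx x hx) (hvv x hx) (hxv x hx) p1 p2 p3 hx'
    have hBP := w_P _ _ (hxx x hx) (hvv x hx) (hxv x hx) _ lam hlam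
    have hBP' : Bm V x * P x = lam • P x := hBP
    have htr : (Bm V x * P x).trace = lam * (2 * m) := by
      rw [hBP', trace_smul, hP, w_trP _ _ (hxx x hx) (hvv x hx)]
      rfl
    rw [htr, hBP', mul_div_assoc, div_self hm0, mul_one]
  have heqf := (Continuous.ae_eq_iff_eq (sg (2*m+2)) hBc
    ((hBc.matrix_trace.div_const _).smul hPc)).1 hae2
  intro x hx
  refine ⟨(Bm V x * P ⟨x, by simpa using hx⟩).trace / (2 * m), fun k hk hkV => ?_⟩
  have hxe : Bm V x * P ⟨x, by simpa using hx⟩ =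
      ((Bm V x * P ⟨x, by simpa using hx⟩).trace / (2 * (m:ℝ))) • P ⟨x, by simpa using hx⟩ :=
    congrFun heqf ⟨x, by simpa using hx⟩
  set c := (Bm V x * P ⟨x, by simpa using hx⟩).trace / (2 * (m:ℝ)) with hc
  have hPk : P ⟨x, by simpa using hx⟩ *ᵥ k.ofLp = k.ofLp := by
    have b1 : x.ofLp ⬝ᵥ k.ofLp = 0 := by rw [← w_innerdot, real_inner_comm]; exact hk
    have b2 : (V x).ofLp ⬝ᵥ k.ofLp = 0 := by rw [← w_innerdot, real_inner_comm]; exact hkV
    simp only [hP]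
    rw [sub_mulVec, sub_mulVec, one_mulVec, w_vmv, w_vmv, b1, b2]
    simp
  have h1 := congrArg (fun M => M *ᵥ k.ofLp) hxe
  simp only at h1
  rw [← mulVec_mulVec, smul_mulVec, hPk, w_Bm hV hx k hk hkV] at h1
  exact (WithLp.ofLp_injective 2) h1

end Pool.Agent.Helper82.OS
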