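import Mathlib

/-!
Volume of unit vector fields on odd spheres, Stage 2: the pointwise inequality for large `N`.
-/

open MeasureTheory ProbabilityTheory Matrix
open scoped RealInnerProductSpace ENNReal BigOperators

namespace Pool.Agent.Helper971.OS

/-- Normal form data: two orthonormal bases `(e, q_j)` and `(x, g_j)` of `E` and numbers
`c_j^2 + s_j^2 = 1` with `∑ c_j s_j ⟪q_j, g_j⟫ = 0`. -/
structure NF {E : Type*} [NormedAddCommGroup E] [InnerProductSpace ℝ E] (N : ℕ)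
    (c s : Fin N → ℝ) (q g : Fin N → E) (x e : E) : Prop where
  cs : ∀ j, c j ^ 2 + s j ^ 2 = 1
  hx : ‖x‖ = 1
  he : ‖e‖ = 1
  q_on : Orthonormal ℝ q
  g_on : Orthonormal ℝ g
  qe : ∀ j, ⟪q j, e⟫ = 0
  gx : ∀ j, ⟪g j, x⟫ = 0
  q_full : ∀ w : E, ⟪w, e⟫ ^ 2 + ∑ j, ⟪w, q j⟫ ^ 2 = ‖w‖ ^ 2
  g_full : ∀ w : E, ⟪w, x⟫ ^ 2 + ∑ j, ⟪w, g j⟫ ^ 2 = ‖w‖ ^ 2
  cross : ∑ j, c j * s j * ⟪q j, g j⟫ = 0

section
variable {E : Type*} [NormedAddCommGroup E] [InnerProductSpace ℝ E] {N : ℕ}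

/-- The vectors `M_j = t c_j q_j + s_j (w_x g_j - w_{g_j} x)`. -/
noncomputable def Mv (c s : Fin N → ℝ) (q g : Fin N → E) (x : E) (t : ℝ) (w : E) (j : Fin N) : E :=
  (t * c j) • q j + s j • (⟪w, x⟫ • g j - ⟪w, g j⟫ • x)

/-- The vector `l_j = c_j ⟪w, q_j⟫`. -/
noncomputable def lv (c : Fin N → ℝ) (q : Fin N → E) (w : E) (j : Fin N) : ℝ := c j * ⟪w, q j⟫

/-- The Gram matrix `G = M^T M + l l^T`. -/
noncomputable def GM (c s : Fin N → ℝ) (q g : Fin N → E) (x : E) (t : ℝ) (w : E) :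
    Matrix (Fin N) (Fin N) ℝ :=
  Matrix.of fun i j => ⟪Mv c s q g x t w i, Mv c s q g x t w j⟫ + lv c q w i * lv c q w j

/-- `F = sqrt (det G)`. -/
noncomputable def FF (c s : Fin N → ℝ) (q g : Fin N → E) (x : E) (t : ℝ) (w : E) : ℝ :=
  Real.sqrt (GM c s q g x t w).det

/-- `δ = ∑ s_j^2`. -/
noncomputable def dl (s : Fin N → ℝ) : ℝ := ∑ j, s j ^ 2

/-- `r^2 = ∑ ⟪w, q_j⟫^2`. -/
noncomputable def r2 (q : Fin N → E) (w : E) : ℝ := ∑ j, ⟪w, q j⟫ ^ 2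

/-- `|l|^2`. -/
noncomputable def L2 (c : Fin N → ℝ) (q : Fin N → E) (w : E) : ℝ := ∑ j, lv c q w j ^ 2

/-- `ε_j = s_j (w_x ⟪g_j, e⟫ - w_{g_j} ⟪x, e⟫)`. -/
noncomputable def ep (s : Fin N → ℝ) (g : Fin N → E) (x e : E) (w : E) (j : Fin N) : ℝ :=
  s j * (⟪w, x⟫ * ⟪g j, e⟫ - ⟪w, g j⟫ * ⟪x, e⟫)

/-- `k_2 = W ⟨l, ε⟩ / r^2`. -/
noncomputable def K2 (c s : Fin N → ℝ) (q g : Fin N → E) (x e : E) (w : E) : ℝ :=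
  ⟪w, e⟫ * (∑ j, lv c q w j * ep s g x e w j) / r2 q w

/-- `B = ∑ s_j^2 (w_x^2 + w_{g_j}^2)`. -/
noncomputable def BB (s : Fin N → ℝ) (g : Fin N → E) (x : E) (w : E) : ℝ :=
  ∑ j, s j ^ 2 * (⟪w, x⟫ ^ 2 + ⟪w, g j⟫ ^ 2)

/-- `h = ∑ c_j s_j w_{g_j} ⟪q_j, x⟫`. -/
noncomputable def hh (c s : Fin N → ℝ) (q g : Fin N → E) (x : E) (w : E) : ℝ :=
  ∑ j, c j * s j * ⟪w, g j⟫ * ⟪q j, x⟫

/-- `S = ∑ s_j^2 (w_x^2 + w_{g_j}^2 + W^2)`. -/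
noncomputable def SS (s : Fin N → ℝ) (g : Fin N → E) (x e : E) (w : E) : ℝ :=
  ∑ j, s j ^ 2 * (⟪w, x⟫ ^ 2 + ⟪w, g j⟫ ^ 2 + ⟪w, e⟫ ^ 2)

end

/-- `φ(y) = sqrt (A + y) * sqrt (B + y)^(N-1)`. -/
noncomputable def phi (N : ℕ) (A B y : ℝ) : ℝ := Real.sqrt (A + y) * Real.sqrt (B + y) ^ (N - 1)

/-- absolute moments of the standard Gaussian on `ℝ`. -/
noncomputable def mm (k : ℕ) : ℝ≥0∞ := ∫⁻ t, ENNReal.ofReal (|t| ^ k) ∂(gaussianReal 0 1)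

/-- Gram matrix of a family of vectors. -/
noncomputable def gram {W : Type*} [NormedAddCommGroup W] [InnerProductSpace ℝ W] {N : ℕ}
    (a : Fin N → W) : Matrix (Fin N) (Fin N) ℝ := Matrix.of fun i j => ⟪a i, a j⟫

/-- `ι_f β_i` for `β_i = x ∧ p_i - V ∧ e_i`. -/
noncomputable def iot {W : Type*} [NormedAddCommGroup W] [InnerProductSpace ℝ W] {N : ℕ}
    (x V : W) (e p : Fin N → W) (f : W) (i : Fin N) : W :=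
  ⟪f, x⟫ • p i - ⟪f, p i⟫ • x - ⟪f, V⟫ • e i + ⟪f, e i⟫ • V

/-- `ι_f b_j` for `b_j = c_j v ∧ q_j + s_j x ∧ g_j`. -/
noncomputable def iob {W : Type*} [NormedAddCommGroup W] [InnerProductSpace ℝ W] {N : ℕ}
    (v x : W) (c s : Fin N → ℝ) (q g : Fin N → W) (f : W) (j : Fin N) : W :=
  c j • (⟪f, v⟫ • q j - ⟪f, q j⟫ • v) + s j • (⟪f, x⟫ • g j - ⟪f, g j⟫ • x)

/-- `T_f h = ⟨x,f⟩ B h - ⟨x,h⟩ B f + Π (⟨v,h⟩ f - ⟨v,f⟩ h)` with `Π = 1 - x xᵀ - v vᵀ` -/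
noncomputable def TT {D : ℕ} (x v : Fin D → ℝ) (B : Matrix (Fin D) (Fin D) ℝ) (f : Fin D → ℝ) :
    Matrix (Fin D) (Fin D) ℝ :=
  (x ⬝ᵥ f) • B - vecMulVec (B *ᵥ f) x
    + (1 - vecMulVec x x - vecMulVec v v) * (vecMulVec f v - (v ⬝ᵥ f) • (1 : Matrix (Fin D) (Fin D) ℝ))

/-- `|ι_f β_1 ∧ ... ∧ ι_f β_N|` -/
noncomputable def JJ {D : ℕ} (x v : Fin D → ℝ) (B : Matrix (Fin D) (Fin D) ℝ) (f : Fin D → ℝ) : ℝ :=
  Real.sqrt (TT x v B f * (TT x v B f)ᵀ + vecMulVec x x + vecMulVec v v).det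

/-- the constant `∫_{S^{N+1}} |f_0|^{N-1} √(1-f_1²)` -/
noncomputable def cN (N : ℕ) : ℝ≥0∞ :=
  ∫⁻ f : Metric.sphere (0 : EuclideanSpace ℝ (Fin (N + 2))) 1,
    ENNReal.ofReal (|(f : EuclideanSpace ℝ (Fin (N + 2))) 0| ^ (N - 1) *
      Real.sqrt (1 - ((f : EuclideanSpace ℝ (Fin (N + 2))) 1) ^ 2))
      ∂((volume : Measure (EuclideanSpace ℝ (Fin (N + 2)))).toSphere)

/-- the pointwise inequality (*) in dimension `N` -/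
def Star (N : ℕ) : Prop :=
  ∀ (x v : Fin (N + 2) → ℝ) (B : Matrix (Fin (N + 2)) (Fin (N + 2)) ℝ),
    x ⬝ᵥ x = 1 → v ⬝ᵥ v = 1 → x ⬝ᵥ v = 0 → B *ᵥ x = 0 → x ᵥ* B = 0 → v ᵥ* B = 0 →
    ∫⁻ f : Metric.sphere (0 : EuclideanSpace ℝ (Fin (N + 2))) 1,
      ENNReal.ofReal (JJ x v B (f : EuclideanSpace ℝ (Fin (N + 2))).ofLp)
        ∂((volume : Measure (EuclideanSpace ℝ (Fin (N + 2)))).toSphere)
      ≤ ENNReal.ofReal (Real.sqrt (1 + B * Bᵀ).det) * cN N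

end Pool.Agent.Helper971.OS
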