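import Pool.Agent.Helper971.OS.Defs

/-!
Volume of unit vector fields on odd spheres, Stage 2: the pointwise inequality for large `N`.
-/

open MeasureTheory ProbabilityTheory Matrix
open scoped RealInnerProductSpace ENNReal BigOperators

namespace Pool.Agent.Helper971.OS



theorem lint_exp_sq (a : ℝ) (ha : a < 1 / 2) :
    ∫⁻ t, ENNReal.ofReal (Real.exp (a * t ^ 2)) ∂(gaussianReal 0 1) =
      ENNReal.ofReal (1 / Real.sqrt (1 - 2 * a)) := by
  rw [gaussianReal_of_var_ne_zero 0 (one_ne_zero),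
    lintegral_withDensity_eq_lintegral_mul _ (measurable_gaussianPDF 0 1) (by fun_prop)]
  have h1 : ∀ t : ℝ, (gaussianPDF 0 1 * fun t => ENNReal.ofReal (Real.exp (a * t ^ 2))) t
      = ENNReal.ofReal ((Real.sqrt (2 * Real.pi))⁻¹ * Real.exp (-(1 / 2 - a) * t ^ 2)) := by
    intro t
    rw [Pi.mul_apply, gaussianPDF, ← ENNReal.ofReal_mul (gaussianPDFReal_nonneg 0 1 t)]
    congr 1
    unfold gaussianPDFReal
    rw [mul_assoc, ← Real.exp_add]
    simp only [NNReal.coe_one, mul_one]
    congr 2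
    ring
  rw [lintegral_congr h1]
  have hb : 0 < 1 / 2 - a := by linarith
  have hint : Integrable (fun t : ℝ => (Real.sqrt (2 * Real.pi))⁻¹ * Real.exp (-(1 / 2 - a) * t ^ 2)) :=
    (integrable_exp_neg_mul_sq hb).const_mul _
  rw [← ofReal_integral_eq_lintegral_ofReal hint (Filter.Eventually.of_forall fun t => by positivity),
    integral_const_mul, integral_gaussian]
  congr 1
  have h2 : 0 < 2 * Real.pi := by positivity
  rw [← Real.sqrt_inv, ← Real.sqrt_mul (by positivity), one_div (Real.sqrt (1 - 2 * a)), ← Real.sqrt_inv]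
  congr 1
  have hpi := Real.pi_ne_zero
  have h3 : 1 - 2 * a ≠ 0 := by linarith
  have h4 : 1 / 2 - a = (1 - 2 * a) / 2 := by ring
  rw [h4]
  field_simp

end Pool.Agent.Helper971.OS
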