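import Pool.Agent.Helper971.OS.Defs

/-!
Volume of unit vector fields on odd spheres, Stage 2: the pointwise inequality for large `N`.
-/

open MeasureTheory ProbabilityTheory Matrix
open scoped RealInnerProductSpace ENNReal BigOperators

namespace Pool.Agent.Helper971.OS



theorem std_unit {E : Type*} [NormedAddCommGroup E] [InnerProductSpace ℝ E]
    [FiniteDimensional ℝ E] [MeasurableSpace E] [BorelSpace E] (a : E) (ha : ‖a‖ = 1) :
    (stdGaussian E).map (fun w => ⟪w, a⟫) = gaussianReal 0 1 := by
  have h1 : (fun w : E => ⟪w, a⟫) = fun w => (InnerProductSpace.toDual ℝ E a : StrongDual ℝ E) w := by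
    funext w
    rw [InnerProductSpace.toDual_apply_apply, real_inner_comm]
  rw [h1]
  have h2 := (isGaussian_stdGaussian (E := E)).map_eq_gaussianReal (InnerProductSpace.toDual ℝ E a)
  rw [h2, integral_strongDual_stdGaussian, variance_dual_stdGaussian]
  have h3 : ‖(InnerProductSpace.toDual ℝ E a : StrongDual ℝ E)‖ = 1 := by
    rw [LinearIsometryEquiv.norm_map, ha]
  rw [h3]
  simp

end Pool.Agent.Helper971.OS
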