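import Pool.Agent.Helper971.OS.Defs
import Pool.Agent.Helper971.OS.P_lint_exp_sq
import Pool.Agent.Helper971.OS.P_std_unit

open MeasureTheory ProbabilityTheory Matrix
open scoped RealInnerProductSpace ENNReal BigOperators

namespace Pool.Agent.Helper971.OS

theorem Eexp3_one {E : Type*} [NormedAddCommGroup E] [InnerProductSpace ℝ E]
    [FiniteDimensional ℝ E] [MeasurableSpace E] [BorelSpace E] (a : E) (ha : ‖a‖ = 1) :
    ∫⁻ w, ENNReal.ofReal (Real.exp (1 / 8 * ⟪w, a⟫ ^ 2)) ∂(stdGaussian E) ≤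
      ENNReal.ofReal (6 / 5) := by
  have h2 := lint_exp_sq (1 / 8) (by norm_num)
  have hm : Measurable (fun w : E => ⟪w, a⟫) := by fun_prop
  rw [← std_unit a ha, lintegral_map (by fun_prop) hm] at h2
  rw [h2]
  refine ENNReal.ofReal_le_ofReal ?_
  have h3 : (5 / 6 : ℝ) ≤ Real.sqrt (1 - 2 * (1 / 8)) := by
    refine Real.le_sqrt_of_sq_le ?_
    norm_num
  rw [div_le_iff₀ (by linarith)]
  linarith

theorem Eexp3 {E : Type*} [NormedAddCommGroup E] [InnerProductSpace ℝ E]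
    [FiniteDimensional ℝ E] [MeasurableSpace E] [BorelSpace E] (a b c : E)
    (ha : ‖a‖ = 1) (hb : ‖b‖ = 1) (hc : ‖c‖ = 1) :
    ∫⁻ w, ENNReal.ofReal (Real.exp (1 / 24 * (⟪w, a⟫ ^ 2 + ⟪w, b⟫ ^ 2 + ⟪w, c⟫ ^ 2)))
      ∂(stdGaussian E) ≤ ENNReal.ofReal (6 / 5) := by
  have hcv : ∀ x y z : ℝ, Real.exp (1 / 24 * (x + y + z)) ≤
      1 / 3 * (Real.exp (1 / 8 * x) + Real.exp (1 / 8 * y) + Real.exp (1 / 8 * z)) := by
    intro x y z
    set m := 1 / 24 * (x + y + z) with hm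
    have t : ∀ u : ℝ, Real.exp m * (1 + (u - m)) ≤ Real.exp u := by
      intro u
      have h1 : Real.exp u = Real.exp m * Real.exp (u - m) := by
        rw [← Real.exp_add]; congr 1; ring
      rw [h1]
      refine mul_le_mul_of_nonneg_left ?_ (Real.exp_nonneg _)
      have := Real.add_one_le_exp (u - m)
      linarith
    have t1 := t (1 / 8 * x)
    have t2 := t (1 / 8 * y)
    have t3 := t (1 / 8 * z)
    have t4 : Real.exp m * (1 + (1 / 8 * x - m)) + Real.exp m * (1 + (1 / 8 * y - m)) +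
        Real.exp m * (1 + (1 / 8 * z - m)) = 3 * Real.exp m := by
      rw [hm]; ring
    linarith
  have key : ∀ w : E, ENNReal.ofReal (
        Real.exp (1 / 24 * (⟪w, a⟫ ^ 2 + ⟪w, b⟫ ^ 2 + ⟪w, c⟫ ^ 2))) ≤
      ENNReal.ofReal (1 / 3) *
        (ENNReal.ofReal (Real.exp (1 / 8 * ⟪w, a⟫ ^ 2)) +
        ENNReal.ofReal (Real.exp (1 / 8 * ⟪w, b⟫ ^ 2)) +
        ENNReal.ofReal (Real.exp (1 / 8 * ⟪w, c⟫ ^ 2))) := by
    intro w
    rw [← ENNReal.ofReal_add (by positivity) (by positivity),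
      ← ENNReal.ofReal_add (by positivity) (by positivity),
      ← ENNReal.ofReal_mul (by norm_num)]
    exact ENNReal.ofReal_le_ofReal (hcv (⟪w, a⟫ ^ 2) (⟪w, b⟫ ^ 2) (⟪w, c⟫ ^ 2))
  refine (lintegral_mono key).trans ?_
  have hma : ∀ a : E, Measurable (fun w : E =>
      ENNReal.ofReal (Real.exp (1 / 8 * ⟪w, a⟫ ^ 2))) := by
    intro a
    fun_prop
  rw [lintegral_const_mul' _ _ ENNReal.ofReal_ne_top,
    lintegral_add_right _ (hma c), lintegral_add_right _ (hma b)]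
  refine (mul_le_mul_right (add_le_add (add_le_add (Eexp3_one a ha) (Eexp3_one b hb))
    (Eexp3_one c hc)) _).trans ?_
  rw [← ENNReal.ofReal_add (by positivity) (by positivity),
      ← ENNReal.ofReal_add (by positivity) (by positivity),
      ← ENNReal.ofReal_mul (by norm_num)]
  refine ENNReal.ofReal_le_ofReal (le_of_eq ?_)
  ring

end Pool.Agent.Helper971.OS
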