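import Pool.Agent.Helper971.OS.Defs

/-!
Volume of unit vector fields on odd spheres, Stage 2: the pointwise inequality for large `N`.
-/

open MeasureTheory ProbabilityTheory Matrix
open scoped RealInnerProductSpace ENNReal BigOperators

namespace Pool.Agent.Helper971.OS



theorem mm_rec_eq (k : ℕ) : mm k = ENNReal.ofReal (2 * ((√(2 * Real.pi))⁻¹ *
    ∫ x in Set.Ioi (0 : ℝ), x ^ (k : ℝ) * Real.exp (-(1 / 2) * x ^ (2 : ℝ)))) := by
  have h1 : (1 : NNReal) ≠ 0 := one_ne_zero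
  have hmeas : Measurable (fun t : ℝ => ENNReal.ofReal (|t| ^ k)) := by fun_prop
  have hpdf : ∀ t : ℝ, gaussianPDFReal 0 1 t
      = (√(2 * Real.pi))⁻¹ * Real.exp (-(1 / 2) * |t| ^ (2 : ℝ)) := by
    intro t
    unfold gaussianPDFReal
    have e2 : |t| ^ (2 : ℝ) = t ^ 2 := by
      have : |t| ^ (2 : ℝ) = |t| ^ 2 := by exact_mod_cast Real.rpow_natCast |t| 2
      rw [this, sq_abs]
    rw [e2]
    simp only [NNReal.coe_one, mul_one, sub_zero]
    congr 2
    ring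
  unfold mm
  rw [gaussianReal_of_var_ne_zero 0 h1, lintegral_withDensity_eq_lintegral_mul _
    (measurable_gaussianPDF 0 1) hmeas]
  have h2 : ∀ t : ℝ, (gaussianPDF 0 1 * fun t : ℝ => ENNReal.ofReal (|t| ^ k)) t
      = ENNReal.ofReal ((√(2 * Real.pi))⁻¹ * (|t| ^ (k : ℝ) * Real.exp (-(1 / 2) * |t| ^ (2 : ℝ)))) := by
    intro t
    show gaussianPDF 0 1 t * ENNReal.ofReal (|t| ^ k) = _
    rw [gaussianPDF, ← ENNReal.ofReal_mul (gaussianPDFReal_nonneg 0 1 t), hpdf t,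
      Real.rpow_natCast]
    congr 1
    ring
  rw [lintegral_congr h2]
  have hint : Integrable (fun t : ℝ => (√(2 * Real.pi))⁻¹ *
      (|t| ^ (k : ℝ) * Real.exp (-(1 / 2) * |t| ^ (2 : ℝ)))) volume := by
    apply Integrable.const_mul
    have h3 := (integrable_rpow_mul_exp_neg_mul_sq (b := 1 / 2) (by norm_num)
      (s := (k : ℝ)) (by have : (0 : ℝ) ≤ k := Nat.cast_nonneg k; linarith)).norm
    refine h3.congr (Filter.Eventually.of_forall fun t => ?_)
    have e2 : |t| ^ (2 : ℝ) = t ^ 2 := by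
      have : |t| ^ (2 : ℝ) = |t| ^ 2 := by exact_mod_cast Real.rpow_natCast |t| 2
      rw [this, sq_abs]
    simp only [Real.norm_eq_abs, abs_mul, Real.abs_exp, Real.rpow_natCast, abs_pow, e2]
  rw [← ofReal_integral_eq_lintegral_ofReal hint
    (Filter.Eventually.of_forall fun t => by positivity)]
  congr 1
  have h4 := integral_comp_abs (f := fun x : ℝ => (√(2 * Real.pi))⁻¹ *
      (x ^ (k : ℝ) * Real.exp (-(1 / 2) * x ^ (2 : ℝ))))
  rw [h4, integral_const_mul]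

theorem mm_rec_J (k : ℕ) : ∫ x in Set.Ioi (0 : ℝ), x ^ (((k + 2 : ℕ) : ℝ)) * Real.exp (-(1 / 2) * x ^ (2 : ℝ))
    = (k + 1) * ∫ x in Set.Ioi (0 : ℝ), x ^ (k : ℝ) * Real.exp (-(1 / 2) * x ^ (2 : ℝ)) := by
  have hk : (0 : ℝ) ≤ k := Nat.cast_nonneg k
  rw [integral_rpow_mul_exp_neg_mul_rpow (p := 2) (q := ((k + 2 : ℕ) : ℝ)) (b := 1 / 2) (by norm_num)
    (by push_cast; linarith) (by norm_num),
    integral_rpow_mul_exp_neg_mul_rpow (p := 2) (q := (k : ℝ)) (b := 1 / 2) (by norm_num)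
    (by linarith) (by norm_num)]
  have e1 : (((k + 2 : ℕ) : ℝ) + 1) / 2 = ((k : ℝ) + 1) / 2 + 1 := by push_cast; ring
  have e2 : -(((k + 2 : ℕ) : ℝ) + 1) / 2 = -((k : ℝ) + 1) / 2 - 1 := by push_cast; ring
  rw [e1, e2, Real.Gamma_add_one (by positivity), Real.rpow_sub_one (by norm_num)]
  ring

theorem mm_rec (k : ℕ) : mm (k + 2) = (k + 1 : ℝ≥0∞) * mm k := by
  rw [mm_rec_eq, mm_rec_eq, mm_rec_J]
  have e : (k + 1 : ℝ≥0∞) = ENNReal.ofReal (k + 1) := by
    rw [ENNReal.ofReal_add (Nat.cast_nonneg k) one_pos.le, ENNReal.ofReal_natCast,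
      ENNReal.ofReal_one]
  rw [e, ← ENNReal.ofReal_mul (by positivity)]
  congr 1
  ring

end Pool.Agent.Helper971.OS
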