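import Pool.Agent.Helper971.OS.Defs
import Pool.Agent.Helper971.OS.P_std_unit
import Pool.Agent.Helper971.OS.P_mm_rec

/-!
Volume of unit vector fields on odd spheres, Stage 2: the pointwise inequality for large `N`.
-/

open MeasureTheory ProbabilityTheory Matrix
open scoped RealInnerProductSpace ENNReal BigOperators

namespace Pool.Agent.Helper971.OS



theorem Er2 {E : Type*} [NormedAddCommGroup E] [InnerProductSpace ℝ E]
    [FiniteDimensional ℝ E] [MeasurableSpace E] [BorelSpace E] {N : ℕ} (q : Fin N → E)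
    (hq : Orthonormal ℝ q) :
    ∫⁻ w, ENNReal.ofReal (r2 q w) ∂(stdGaussian E) = (N : ℝ≥0∞) := by
  have hmm0 : mm 0 = 1 := by
    unfold mm
    simp
  have hmm2 : mm 2 = 1 := by
    rw [mm_rec 0, hmm0]
    simp
  have h1 : ∀ w : E, ENNReal.ofReal (r2 q w) = ∑ j, ENNReal.ofReal (⟪w, q j⟫ ^ 2) := by
    intro w
    unfold r2
    exact ENNReal.ofReal_sum_of_nonneg (fun j _ => sq_nonneg _)
  simp_rw [h1]
  have hmeas : ∀ a : E, Measurable (fun w : E => ⟪w, a⟫) := by
    intro a
    exact (continuous_id.inner continuous_const).measurable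
  rw [lintegral_finset_sum]
  · have h2 : ∀ j, ∫⁻ w, ENNReal.ofReal (⟪w, q j⟫ ^ 2) ∂(stdGaussian E) = 1 := by
      intro j
      have h3 : ∫⁻ t, ENNReal.ofReal (t ^ 2) ∂((stdGaussian E).map (fun w => ⟪w, q j⟫)) =
          ∫⁻ w, ENNReal.ofReal (⟪w, q j⟫ ^ 2) ∂(stdGaussian E) := by
        rw [lintegral_map _ (hmeas (q j))]
        exact ENNReal.measurable_ofReal.comp (measurable_id.pow_const 2)
      rw [← h3, std_unit (q j) (hq.1 j), ← hmm2]
      unfold mm
      congr 1
      funext t
      rw [sq_abs]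
    rw [Finset.sum_congr rfl (fun j _ => h2 j)]
    simp
  · intro j _
    exact ENNReal.measurable_ofReal.comp ((hmeas (q j)).pow_const 2)

end Pool.Agent.Helper971.OS
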