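import Pool.Agent.Helper971.OS.Defs
import Pool.Agent.Helper971.OS.P_std_unit

/-!
Volume of unit vector fields on odd spheres, Stage 2: the pointwise inequality for large `N`.
-/

open MeasureTheory ProbabilityTheory Matrix
open scoped RealInnerProductSpace ENNReal BigOperators

namespace Pool.Agent.Helper971.OS



theorem abs_gauss_lower :
    ENNReal.ofReal (1 / 2) ≤ ∫⁻ t, ENNReal.ofReal |t| ∂(gaussianReal 0 1) := by
  have h1 : ∫ t : ℝ, |t| ∂(gaussianReal 0 1) =
      ∫ t : ℝ, (fun u : ℝ => (Real.sqrt (2 * Real.pi))⁻¹ * (u * Real.exp (-(1 / 2) * u ^ 2))) |t| := by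
    rw [integral_gaussianReal_eq_integral_smul (by norm_num)]
    refine integral_congr_ae (Filter.Eventually.of_forall fun t => ?_)
    simp only [gaussianPDFReal, smul_eq_mul, NNReal.coe_one, mul_one, sub_zero, sq_abs]
    have : -t ^ 2 / 2 = -(1 / 2) * t ^ 2 := by ring
    rw [this]; ring
  rw [integral_comp_abs (f := fun u : ℝ => (Real.sqrt (2 * Real.pi))⁻¹ *
    (u * Real.exp (-(1 / 2) * u ^ 2)))] at h1
  have h2 : ∫ u in Set.Ioi (0 : ℝ), (Real.sqrt (2 * Real.pi))⁻¹ *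
      (u * Real.exp (-(1 / 2) * u ^ 2)) = (Real.sqrt (2 * Real.pi))⁻¹ * 1 := by
    rw [integral_const_mul]
    congr 1
    have h3 := integral_rpow_mul_exp_neg_mul_rpow (p := 2) (q := 1) (b := 1 / 2)
      (by norm_num) (by norm_num) (by norm_num)
    have h4 : (1 / 2 : ℝ) ^ (-(1 + 1) / 2 : ℝ) * (1 / 2) * Real.Gamma ((1 + 1) / 2) = 1 := by
      have e1 : (-(1 + 1) / 2 : ℝ) = -1 := by norm_num
      have e2 : ((1 + 1) / 2 : ℝ) = 1 := by norm_num
      rw [e1, e2, Real.Gamma_one, Real.rpow_neg_one]; norm_num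
    rw [h4] at h3
    refine Eq.trans ?_ h3
    refine setIntegral_congr_fun measurableSet_Ioi (fun u _ => ?_)
    simp only [Real.rpow_one, Real.rpow_two]
  rw [h2, mul_one] at h1
  have h5 := integral_eq_lintegral_of_nonneg_ae (μ := gaussianReal 0 1) (f := fun t : ℝ => |t|)
    (Filter.Eventually.of_forall fun t => abs_nonneg t) (continuous_abs.aestronglyMeasurable)
  rw [h1] at h5
  have h6 : (1 / 2 : ℝ) ≤ 2 * (Real.sqrt (2 * Real.pi))⁻¹ := by
    have hpos : 0 < Real.sqrt (2 * Real.pi) := Real.sqrt_pos.2 (by positivity)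
    have hle : Real.sqrt (2 * Real.pi) ≤ 4 := by
      rw [Real.sqrt_le_left (by norm_num)]
      nlinarith [Real.pi_le_four]
    rw [← div_eq_mul_inv, div_le_div_iff₀ (by norm_num) hpos]
    linarith
  calc ENNReal.ofReal (1 / 2) ≤ ENNReal.ofReal (2 * (Real.sqrt (2 * Real.pi))⁻¹) :=
        ENNReal.ofReal_le_ofReal h6
    _ = ENNReal.ofReal (ENNReal.toReal (∫⁻ t, ENNReal.ofReal |t| ∂(gaussianReal 0 1))) := by
        rw [h5]
    _ ≤ _ := ENNReal.ofReal_toReal_le

theorem Er_lower {E : Type*} [NormedAddCommGroup E] [InnerProductSpace ℝ E]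
    [FiniteDimensional ℝ E] [MeasurableSpace E] [BorelSpace E] {N : ℕ} (q : Fin N → E)
    (hq : Orthonormal ℝ q) :
    ENNReal.ofReal (Real.sqrt N / 2) ≤ ∫⁻ w, ENNReal.ofReal (Real.sqrt (r2 q w)) ∂(stdGaussian E) := by
  rcases Nat.eq_zero_or_pos N with hN | hN
  · subst hN; simp
  have hNr : (0 : ℝ) < N := by exact_mod_cast hN
  have hsq : 0 < Real.sqrt N := Real.sqrt_pos.2 hNr
  have hone : ∀ j, ENNReal.ofReal (1 / 2) ≤ ∫⁻ w, ENNReal.ofReal |⟪w, q j⟫| ∂(stdGaussian E) := by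
    intro j
    have hm := std_unit (E := E) (q j) (hq.1 j)
    have hmeas : Measurable (fun w : E => ⟪w, q j⟫) := by fun_prop
    have : ∫⁻ t, ENNReal.ofReal |t| ∂(gaussianReal 0 1) =
        ∫⁻ w, ENNReal.ofReal |⟪w, q j⟫| ∂(stdGaussian E) := by
      rw [← hm, lintegral_map (by fun_prop) hmeas]
    rw [← this]
    exact abs_gauss_lower
  have hpt : ∀ w : E, (Real.sqrt N)⁻¹ * ∑ j, |⟪w, q j⟫| ≤ Real.sqrt (r2 q w) := by
    intro w
    rw [inv_mul_le_iff₀ hsq]
    rw [← Real.sqrt_mul hNr.le]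
    apply Real.le_sqrt_of_sq_le
    have h := sq_sum_le_card_mul_sum_sq (s := (Finset.univ : Finset (Fin N)))
      (f := fun j => |⟪w, q j⟫|)
    simpa [r2, sq_abs] using h
  calc ENNReal.ofReal (Real.sqrt N / 2)
      = ENNReal.ofReal ((Real.sqrt N)⁻¹) * ∑ j : Fin N, ENNReal.ofReal (1 / 2) := by
        rw [Finset.sum_const, Finset.card_univ, Fintype.card_fin, nsmul_eq_mul,
          ← ENNReal.ofReal_natCast, ← ENNReal.ofReal_mul (by positivity),
          ← ENNReal.ofReal_mul (by positivity)]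
        congr 1
        have : (N : ℝ) = Real.sqrt N * Real.sqrt N := (Real.mul_self_sqrt hNr.le).symm
        field_simp
        nlinarith [Real.mul_self_sqrt hNr.le]
    _ ≤ ENNReal.ofReal ((Real.sqrt N)⁻¹) *
          ∑ j : Fin N, ∫⁻ w, ENNReal.ofReal |⟪w, q j⟫| ∂(stdGaussian E) := by
        gcongr with j _
        exact hone j
    _ = ∫⁻ w, ENNReal.ofReal ((Real.sqrt N)⁻¹ * ∑ j, |⟪w, q j⟫|) ∂(stdGaussian E) := by
        rw [← lintegral_finsetSum _ (fun j _ => by fun_prop), ← lintegral_const_mul _ (by fun_prop)]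
        refine lintegral_congr fun w => ?_
        rw [ENNReal.ofReal_mul (by positivity), ENNReal.ofReal_sum_of_nonneg (fun j _ => abs_nonneg _)]
    _ ≤ _ := by
        refine lintegral_mono fun w => ENNReal.ofReal_le_ofReal (hpt w)

end Pool.Agent.Helper971.OS
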