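import Pool.Agent.Helper971.OS.Defs
import Pool.Agent.Helper971.OS.P_lint_exp_sq
import Pool.Agent.Helper971.OS.P_std_unit
import Pool.Agent.Helper971.OS.P_Er2

/-!
Volume of unit vector fields on odd spheres, Stage 2: the pointwise inequality for large `N`.
-/

open MeasureTheory ProbabilityTheory Matrix
open scoped RealInnerProductSpace ENNReal BigOperators

namespace Pool.Agent.Helper971.OS



theorem Erexp3_one {E : Type*} [NormedAddCommGroup E] [InnerProductSpace ℝ E]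
    [FiniteDimensional ℝ E] [MeasurableSpace E] [BorelSpace E] {N : ℕ} (q : Fin N → E)
    (hq : Orthonormal ℝ q) (a : E) (ha : ‖a‖ = 1) :
    ∫⁻ w, ENNReal.ofReal (Real.sqrt (r2 q w) * Real.exp (1 / 8 * ⟪w, a⟫ ^ 2))
      ∂(stdGaussian E) ≤ ENNReal.ofReal (6 / 5 * Real.sqrt N) := by
  have hr0 : ∀ w : E, 0 ≤ r2 q w := fun w => by
    unfold r2; exact Finset.sum_nonneg fun _ _ => sq_nonneg _
  have hmr : Measurable (fun w : E => r2 q w) := by
    unfold r2; fun_prop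
  have h1 : ∫⁻ w, ENNReal.ofReal (Real.exp (1 / 4 * ⟪w, a⟫ ^ 2)) ∂(stdGaussian E) =
      ENNReal.ofReal (Real.sqrt 2) := by
    have h2 := lint_exp_sq (1 / 4) (by norm_num)
    have hm : Measurable (fun w : E => ⟪w, a⟫) := by fun_prop
    rw [← std_unit a ha, lintegral_map (by fun_prop) hm] at h2
    rw [h2]
    congr 1
    rw [show (1 : ℝ) - 2 * (1 / 4) = 2⁻¹ by norm_num, Real.sqrt_inv, one_div, inv_inv]
  have hH := ENNReal.lintegral_mul_le_Lp_mul_Lq (stdGaussian E) Real.HolderConjugate.two_two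
    (f := fun w => ENNReal.ofReal (Real.sqrt (r2 q w)))
    (g := fun w => ENNReal.ofReal (Real.exp (1 / 8 * ⟪w, a⟫ ^ 2)))
    (by fun_prop) (by fun_prop)
  have e1 : ∀ w : E, ENNReal.ofReal (Real.sqrt (r2 q w)) ^ (2 : ℝ) = ENNReal.ofReal (r2 q w) := by
    intro w
    rw [ENNReal.ofReal_rpow_of_nonneg (Real.sqrt_nonneg _) (by norm_num)]
    congr 1
    rw [Real.rpow_two, Real.sq_sqrt (hr0 w)]
  have e2 : ∀ w : E, ENNReal.ofReal (Real.exp (1 / 8 * ⟪w, a⟫ ^ 2)) ^ (2 : ℝ) =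
      ENNReal.ofReal (Real.exp (1 / 4 * ⟪w, a⟫ ^ 2)) := by
    intro w
    rw [ENNReal.ofReal_rpow_of_nonneg (Real.exp_nonneg _) (by norm_num)]
    congr 1
    rw [Real.rpow_two, ← Real.exp_nat_mul]
    congr 1
    push_cast
    ring
  calc ∫⁻ w, ENNReal.ofReal (Real.sqrt (r2 q w) * Real.exp (1 / 8 * ⟪w, a⟫ ^ 2)) ∂(stdGaussian E)
      = ∫⁻ w, ((fun w => ENNReal.ofReal (Real.sqrt (r2 q w))) *
          (fun w => ENNReal.ofReal (Real.exp (1 / 8 * ⟪w, a⟫ ^ 2)))) w ∂(stdGaussian E) := by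
        refine lintegral_congr fun w => ?_
        rw [Pi.mul_apply, ENNReal.ofReal_mul (Real.sqrt_nonneg _)]
    _ ≤ _ := hH
    _ = (ENNReal.ofReal (N : ℝ)) ^ (1 / 2 : ℝ) * (ENNReal.ofReal (Real.sqrt 2)) ^ (1 / 2 : ℝ) := by
        rw [lintegral_congr e1, lintegral_congr e2, Er2 q hq, h1, ENNReal.ofReal_natCast]
    _ = ENNReal.ofReal (Real.sqrt N * Real.sqrt (Real.sqrt 2)) := by
        rw [ENNReal.ofReal_rpow_of_nonneg (Nat.cast_nonneg _) (by norm_num),
          ENNReal.ofReal_rpow_of_nonneg (Real.sqrt_nonneg _) (by norm_num),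
          ← ENNReal.ofReal_mul (by positivity), ← Real.sqrt_eq_rpow, ← Real.sqrt_eq_rpow]
    _ ≤ ENNReal.ofReal (6 / 5 * Real.sqrt N) := by
        refine ENNReal.ofReal_le_ofReal ?_
        rw [mul_comm]
        refine mul_le_mul_of_nonneg_right ?_ (Real.sqrt_nonneg _)
        rw [Real.sqrt_le_left (by norm_num), Real.sqrt_le_left (by norm_num)]
        norm_num

theorem Erexp3 {E : Type*} [NormedAddCommGroup E] [InnerProductSpace ℝ E]
    [FiniteDimensional ℝ E] [MeasurableSpace E] [BorelSpace E] {N : ℕ} (q : Fin N → E)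
    (hq : Orthonormal ℝ q) (a b c : E)
    (ha : ‖a‖ = 1) (hb : ‖b‖ = 1) (hc : ‖c‖ = 1) :
    ∫⁻ w, ENNReal.ofReal (Real.sqrt (r2 q w) *
        Real.exp (1 / 24 * (⟪w, a⟫ ^ 2 + ⟪w, b⟫ ^ 2 + ⟪w, c⟫ ^ 2)))
      ∂(stdGaussian E) ≤ ENNReal.ofReal (6 / 5 * Real.sqrt N) := by
  have hr0 : ∀ w : E, 0 ≤ r2 q w := fun w => by
    unfold r2; exact Finset.sum_nonneg fun _ _ => sq_nonneg _
  have hmr : Measurable (fun w : E => r2 q w) := by
    unfold r2; fun_prop
  have hcv : ∀ x y z : ℝ, Real.exp (1 / 24 * (x + y + z)) ≤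
      1 / 3 * (Real.exp (1 / 8 * x) + Real.exp (1 / 8 * y) + Real.exp (1 / 8 * z)) := by
    intro x y z
    set m := 1 / 24 * (x + y + z) with hm
    have t : ∀ u : ℝ, Real.exp m * (1 + (u - m)) ≤ Real.exp u := by
      intro u
      have h1 : Real.exp u = Real.exp m * Real.exp (u - m) := by
        rw [← Real.exp_add]; congr 1; ring
      rw [h1]
      refine mul_le_mul_of_nonneg_left ?_ (Real.exp_nonneg _)
      have := Real.add_one_le_exp (u - m)
      linarith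
    have t1 := t (1 / 8 * x)
    have t2 := t (1 / 8 * y)
    have t3 := t (1 / 8 * z)
    have t4 : Real.exp m * (1 + (1 / 8 * x - m)) + Real.exp m * (1 + (1 / 8 * y - m)) +
        Real.exp m * (1 + (1 / 8 * z - m)) = 3 * Real.exp m := by
      rw [hm]; ring
    linarith
  have key : ∀ w : E, ENNReal.ofReal (Real.sqrt (r2 q w) *
        Real.exp (1 / 24 * (⟪w, a⟫ ^ 2 + ⟪w, b⟫ ^ 2 + ⟪w, c⟫ ^ 2))) ≤
      ENNReal.ofReal (1 / 3) *
        (ENNReal.ofReal (Real.sqrt (r2 q w) * Real.exp (1 / 8 * ⟪w, a⟫ ^ 2)) +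
        ENNReal.ofReal (Real.sqrt (r2 q w) * Real.exp (1 / 8 * ⟪w, b⟫ ^ 2)) +
        ENNReal.ofReal (Real.sqrt (r2 q w) * Real.exp (1 / 8 * ⟪w, c⟫ ^ 2))) := by
    intro w
    rw [← ENNReal.ofReal_add (by positivity) (by positivity),
      ← ENNReal.ofReal_add (by positivity) (by positivity),
      ← ENNReal.ofReal_mul (by norm_num)]
    refine ENNReal.ofReal_le_ofReal ?_
    have h := mul_le_mul_of_nonneg_left (hcv (⟪w, a⟫ ^ 2) (⟪w, b⟫ ^ 2) (⟪w, c⟫ ^ 2))
      (Real.sqrt_nonneg (r2 q w))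
    refine h.trans (le_of_eq ?_)
    ring
  refine (lintegral_mono key).trans ?_
  have hma : ∀ a : E, Measurable (fun w : E =>
      ENNReal.ofReal (Real.sqrt (r2 q w) * Real.exp (1 / 8 * ⟪w, a⟫ ^ 2))) := by
    intro a
    fun_prop
  rw [lintegral_const_mul' _ _ ENNReal.ofReal_ne_top,
    lintegral_add_right _ (hma c), lintegral_add_right _ (hma b)]
  refine (mul_le_mul_right (add_le_add (add_le_add (Erexp3_one q hq a ha) (Erexp3_one q hq b hb))
    (Erexp3_one q hq c hc)) _).trans ?_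
  rw [← ENNReal.ofReal_add (by positivity) (by positivity),
      ← ENNReal.ofReal_add (by positivity) (by positivity),
      ← ENNReal.ofReal_mul (by norm_num)]
  refine ENNReal.ofReal_le_ofReal (le_of_eq ?_)
  ring

end Pool.Agent.Helper971.OS
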