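import Pool.Agent.Helper971.OS.Defs

/-!
Volume of unit vector fields on odd spheres, Stage 2: the pointwise inequality for large `N`.
-/

open MeasureTheory ProbabilityTheory Matrix
open scoped RealInnerProductSpace ENNReal BigOperators

namespace Pool.Agent.Helper971.OS



theorem mm_fin (k : ℕ) : mm k ≠ ∞ ∧ mm k ≠ 0 := by
  constructor
  · have h1 : MemLp (id : ℝ → ℝ) (k : ℝ≥0∞) (gaussianReal 0 1) :=
      memLp_id_gaussianReal' (k : ℝ≥0∞) (ENNReal.natCast_ne_top k)
    have h2 := h1.integrable_norm_pow'
    have h3 := h2.lintegral_lt_top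
    unfold mm
    have h4 : (fun t : ℝ => ENNReal.ofReal (|t| ^ k)) = fun t : ℝ => ENNReal.ofReal (‖id t‖ ^ k) := by
      funext t
      rw [id, Real.norm_eq_abs]
    rw [h4]
    exact h3.ne
  · intro h0
    unfold mm at h0
    rw [lintegral_eq_zero_iff (by fun_prop)] at h0
    have : NullSingletonClass (gaussianReal 0 1) :=
      nullSingletonClass_gaussianReal (by norm_num)
    have h1 : ∀ᵐ t ∂(gaussianReal 0 1), t ≠ (0 : ℝ) := by
      rw [ae_iff]
      have : {a : ℝ | ¬ a ≠ 0} = {0} := by
        ext a
        simp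
      rw [this]
      exact measure_singleton 0
    have h2 : ∀ᵐ t ∂(gaussianReal 0 1), False := by
      filter_upwards [h0, h1] with t ht0 ht1
      simp only [Pi.zero_apply, ENNReal.ofReal_eq_zero] at ht0
      have : 0 < |t| ^ k := pow_pos (abs_pos.mpr ht1) k
      linarith
    rw [ae_iff] at h2
    simp at h2

end Pool.Agent.Helper971.OS
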