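import Pool.Agent.Helper971.OS.Defs
import Pool.Agent.Helper971.OS.P_mm_rec
import Pool.Agent.Helper971.OS.P_mm_fin

/-!
Volume of unit vector fields on odd spheres, Stage 2: the pointwise inequality for large `N`.
-/

open MeasureTheory ProbabilityTheory Matrix
open scoped RealInnerProductSpace ENNReal BigOperators

namespace Pool.Agent.Helper971.OS



theorem Et_even_desc (m : ℕ) : ∀ j : ℕ, j ≤ m →
    (m.descFactorial j : ℝ≥0∞) * mm (2 * (m - j)) ≤ mm (2 * m) := by
  intro j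
  induction j with
  | zero => intro _; simp
  | succ j ih =>
    intro hj
    refine le_trans ?_ (ih (by omega))
    obtain ⟨k, hk⟩ : ∃ k, m - j = k + 1 := ⟨m - j - 1, by omega⟩
    have h1 : m - (j + 1) = k := by omega
    have h2 : 2 * (m - j) = 2 * k + 2 := by omega
    rw [h1, h2, mm_rec, Nat.descFactorial_succ, hk]
    have h3 : ((k + 1 : ℕ) : ℝ≥0∞) ≤ ((2 * k : ℕ) : ℝ≥0∞) + 1 := by
      have : ((k + 1 : ℕ) : ℝ≥0∞) ≤ ((2 * k + 1 : ℕ) : ℝ≥0∞) := by
        exact_mod_cast (by omega : k + 1 ≤ 2 * k + 1)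
      refine this.trans (le_of_eq ?_)
      push_cast
      rfl
    calc (((k + 1) * m.descFactorial j : ℕ) : ℝ≥0∞) * mm (2 * k)
        = (m.descFactorial j : ℝ≥0∞) * (((k + 1 : ℕ) : ℝ≥0∞) * mm (2 * k)) := by
          push_cast; ring
      _ ≤ (m.descFactorial j : ℝ≥0∞) * ((((2 * k : ℕ) : ℝ≥0∞) + 1) * mm (2 * k)) := by
          gcongr
      _ = _ := by push_cast; rfl

theorem Et_even (m : ℕ) (b : ℝ) (hb : 0 ≤ b) :
    ∫⁻ t, ENNReal.ofReal ((t ^ 2 + b) ^ m) ∂(gaussianReal 0 1) ≤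
      ENNReal.ofReal (Real.exp b) * mm (2 * m) := by
  have h1 : ∀ t : ℝ, ENNReal.ofReal ((t ^ 2 + b) ^ m) = ∑ j ∈ Finset.range (m + 1),
      ENNReal.ofReal (b ^ j * (m.choose j : ℝ)) * ENNReal.ofReal (|t| ^ (2 * (m - j))) := by
    intro t
    rw [add_comm, add_pow, ENNReal.ofReal_sum_of_nonneg (fun j _ => by positivity)]
    refine Finset.sum_congr rfl fun j _ => ?_
    rw [← ENNReal.ofReal_mul (by positivity)]
    congr 1
    rw [pow_mul, sq_abs]
    ring
  simp_rw [h1]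
  rw [lintegral_finsetSum _ (fun j _ => by fun_prop)]
  have h2 : ∀ j ∈ Finset.range (m + 1),
      ∫⁻ t, ENNReal.ofReal (b ^ j * (m.choose j : ℝ)) * ENNReal.ofReal (|t| ^ (2 * (m - j)))
        ∂(gaussianReal 0 1) ≤ ENNReal.ofReal (b ^ j / (j.factorial : ℝ)) * mm (2 * m) := by
    intro j hj
    have hj' : j ≤ m := by simpa [Nat.lt_succ_iff] using hj
    rw [lintegral_const_mul _ (by fun_prop)]
    have e1 : b ^ j * (m.choose j : ℝ) = b ^ j / (j.factorial : ℝ) * (m.descFactorial j : ℝ) := by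
      rw [Nat.descFactorial_eq_factorial_mul_choose]
      have : (j.factorial : ℝ) ≠ 0 := by positivity
      push_cast
      field_simp
    rw [e1, ENNReal.ofReal_mul (by positivity), ENNReal.ofReal_natCast, mul_assoc]
    exact mul_le_mul_right (Et_even_desc m j hj') _
  refine (Finset.sum_le_sum h2).trans ?_
  rw [← Finset.sum_mul, ← ENNReal.ofReal_sum_of_nonneg (fun j _ => by positivity)]
  exact mul_le_mul_left (ENNReal.ofReal_le_ofReal (Real.sum_le_exp_of_nonneg hb (m + 1))) _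

end Pool.Agent.Helper971.OS
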