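import Pool.Agent.Helper971.OS.Defs

open MeasureTheory ProbabilityTheory Matrix
open scoped RealInnerProductSpace ENNReal BigOperators

namespace Pool.Agent.Helper971.OS

theorem mm_log (k : ℕ) : mm (k + 1) ^ 2 ≤ mm k * mm (k + 2) := by
  have hH := ENNReal.lintegral_mul_le_Lp_mul_Lq (gaussianReal 0 1) Real.HolderConjugate.two_two
    (f := fun t : ℝ => ENNReal.ofReal (Real.sqrt (|t| ^ k)))
    (g := fun t : ℝ => ENNReal.ofReal (Real.sqrt (|t| ^ (k + 2))))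
    (by fun_prop) (by fun_prop)
  have e0 : ∀ (j : ℕ) (t : ℝ), ENNReal.ofReal (Real.sqrt (|t| ^ j)) ^ (2 : ℝ) = ENNReal.ofReal (|t| ^ j) := by
    intro j t
    rw [ENNReal.ofReal_rpow_of_nonneg (Real.sqrt_nonneg _) (by norm_num), Real.rpow_two,
      Real.sq_sqrt (by positivity)]
  have e1 : ∀ t : ℝ, ((fun t : ℝ => ENNReal.ofReal (Real.sqrt (|t| ^ k))) *
      (fun t : ℝ => ENNReal.ofReal (Real.sqrt (|t| ^ (k + 2))))) t = ENNReal.ofReal (|t| ^ (k + 1)) := by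
    intro t
    rw [Pi.mul_apply, ← ENNReal.ofReal_mul (Real.sqrt_nonneg _), ← Real.sqrt_mul (by positivity)]
    congr 1
    rw [show |t| ^ k * |t| ^ (k + 2) = (|t| ^ (k + 1)) ^ 2 by ring, Real.sqrt_sq (by positivity)]
  rw [lintegral_congr e1, lintegral_congr (e0 k), lintegral_congr (e0 (k + 2))] at hH
  change mm (k + 1) ≤ mm k ^ (1 / 2 : ℝ) * mm (k + 2) ^ (1 / 2 : ℝ) at hH
  calc mm (k + 1) ^ 2 ≤ (mm k ^ (1 / 2 : ℝ) * mm (k + 2) ^ (1 / 2 : ℝ)) ^ 2 := by gcongr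
    _ = mm k * mm (k + 2) := by
      rw [mul_pow, ← ENNReal.rpow_natCast, ← ENNReal.rpow_natCast, ← ENNReal.rpow_mul, ← ENNReal.rpow_mul]
      norm_num

end Pool.Agent.Helper971.OS
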