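import Pool.Agent.Helper971.OS.Defs
import Pool.Agent.Helper971.OS.P_mm_rec
import Pool.Agent.Helper971.OS.P_mm_fin
import Pool.Agent.Helper971.OS.P_mm_log
import Pool.Agent.Helper971.OS.P_Et_even

/-!
Volume of unit vector fields on odd spheres, Stage 2: the pointwise inequality for large `N`.
-/

open MeasureTheory ProbabilityTheory Matrix
open scoped RealInnerProductSpace ENNReal BigOperators

namespace Pool.Agent.Helper971.OS



theorem sqrt_pow_30635 (y : ℝ) (hy : 0 ≤ y) (n : ℕ) : Real.sqrt (y ^ n) = Real.sqrt y ^ n := by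
  have h : y ^ n = (Real.sqrt y ^ n) ^ 2 := by
    rw [← pow_mul, mul_comm, pow_mul, Real.sq_sqrt hy]
  rw [h, Real.sqrt_sq (pow_nonneg (Real.sqrt_nonneg _) _)]

theorem sq_half_30635 (x : ℝ≥0∞) : (x ^ 2) ^ (1 / 2 : ℝ) = x := by
  rw [← ENNReal.rpow_natCast, ← ENNReal.rpow_mul]
  norm_num

theorem alg_30635 (k : ℕ) : mm (2 * k) * mm (2 * k + 2) ≤ 2 * mm (2 * k + 1) ^ 2 := by
  have h1 := mm_rec (2 * k)
  have h2 := mm_rec (2 * k + 1)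
  have h3 := mm_log (2 * k + 1)
  have e3 : 2 * k + 1 + 1 = 2 * k + 2 := rfl
  rw [e3, h2] at h3
  have h4 : (((2 * k : ℕ) : ℝ≥0∞) + 1) * (mm (2 * k) * mm (2 * k + 2)) ≤
      (((2 * k : ℕ) : ℝ≥0∞) + 1) * (2 * mm (2 * k + 1) ^ 2) := by
    calc (((2 * k : ℕ) : ℝ≥0∞) + 1) * (mm (2 * k) * mm (2 * k + 2))
        = ((((2 * k : ℕ) : ℝ≥0∞) + 1) * mm (2 * k)) * mm (2 * k + 2) := by ring
      _ = mm (2 * k + 2) ^ 2 := by rw [← h1]; ring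
      _ ≤ mm (2 * k + 1) * ((((2 * k + 1 : ℕ) : ℝ≥0∞) + 1) * mm (2 * k + 1)) := h3
      _ = (((2 * k + 1 : ℕ) : ℝ≥0∞) + 1) * mm (2 * k + 1) ^ 2 := by ring
      _ ≤ ((((2 * k : ℕ) : ℝ≥0∞) + 1) * 2) * mm (2 * k + 1) ^ 2 := by
        apply mul_le_mul_left
        have : ((2 * k + 1 : ℕ) : ℝ≥0∞) + 1 = ((2 * k + 2 : ℕ) : ℝ≥0∞) := by push_cast; ring
        rw [this]
        have : (((2 * k : ℕ) : ℝ≥0∞) + 1) * 2 = ((2 * (2 * k + 1) : ℕ) : ℝ≥0∞) := by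
          push_cast; ring
        rw [this]
        exact_mod_cast (by omega : 2 * k + 2 ≤ 2 * (2 * k + 1))
      _ = (((2 * k : ℕ) : ℝ≥0∞) + 1) * (2 * mm (2 * k + 1) ^ 2) := by ring
  have h5 : (((2 * k : ℕ) : ℝ≥0∞) + 1) ≠ 0 := by
    intro h
    rw [add_eq_zero] at h
    exact one_ne_zero h.2
  have h6 : (((2 * k : ℕ) : ℝ≥0∞) + 1) ≠ ∞ := ENNReal.add_ne_top.2
    ⟨ENNReal.natCast_ne_top _, ENNReal.one_ne_top⟩
  exact (ENNReal.mul_le_mul_iff_right h5 h6).1 h4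

theorem Et_odd (k : ℕ) (b : ℝ) (hb : 0 ≤ b) :
    ∫⁻ t, ENNReal.ofReal (Real.sqrt (t ^ 2 + b) ^ (2 * k + 1)) ∂(gaussianReal 0 1) ≤
      ENNReal.ofReal (Real.sqrt 2 * Real.exp b) * mm (2 * k + 1) := by
  have hcs := ENNReal.lintegral_mul_le_Lp_mul_Lq (gaussianReal 0 1)
    Real.HolderConjugate.two_two
    (f := fun t : ℝ => ENNReal.ofReal (Real.sqrt ((t ^ 2 + b) ^ k)))
    (g := fun t : ℝ => ENNReal.ofReal (Real.sqrt ((t ^ 2 + b) ^ (k + 1))))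
    (by fun_prop) (by fun_prop)
  have hnn : ∀ t : ℝ, 0 ≤ t ^ 2 + b := fun t => add_nonneg (sq_nonneg t) hb
  have e1 : ∀ t : ℝ, ((fun t : ℝ => ENNReal.ofReal (Real.sqrt ((t ^ 2 + b) ^ k))) *
      (fun t : ℝ => ENNReal.ofReal (Real.sqrt ((t ^ 2 + b) ^ (k + 1))))) t =
      ENNReal.ofReal (Real.sqrt (t ^ 2 + b) ^ (2 * k + 1)) := by
    intro t
    show ENNReal.ofReal (Real.sqrt ((t ^ 2 + b) ^ k)) *
      ENNReal.ofReal (Real.sqrt ((t ^ 2 + b) ^ (k + 1))) = _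
    rw [← ENNReal.ofReal_mul (Real.sqrt_nonneg _)]
    congr 1
    have hs : ∀ n : ℕ, Real.sqrt ((t ^ 2 + b) ^ n) = Real.sqrt (t ^ 2 + b) ^ n := by
      intro n
      exact sqrt_pow_30635 _ (hnn t) n
    rw [hs, hs, ← pow_add]
    congr 1
    ring
  have e2 : ∀ (n : ℕ) (t : ℝ), ENNReal.ofReal (Real.sqrt ((t ^ 2 + b) ^ n)) ^ (2 : ℝ) =
      ENNReal.ofReal ((t ^ 2 + b) ^ n) := by
    intro n t
    have : (2 : ℝ) = ((2 : ℕ) : ℝ) := by norm_num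
    rw [this, ENNReal.rpow_natCast, ← ENNReal.ofReal_pow (Real.sqrt_nonneg _),
      Real.sq_sqrt (pow_nonneg (hnn t) n)]
  simp only [e1, e2] at hcs
  refine hcs.trans ?_
  have h1 := Et_even k b hb
  have h2 := Et_even (k + 1) b hb
  have e3 : 2 * (k + 1) = 2 * k + 2 := by ring
  rw [e3] at h2
  rw [← ENNReal.mul_rpow_of_nonneg _ _ (by norm_num : (0 : ℝ) ≤ 1 / 2)]
  have h3 : (∫⁻ t, ENNReal.ofReal ((t ^ 2 + b) ^ k) ∂(gaussianReal 0 1)) *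
      (∫⁻ t, ENNReal.ofReal ((t ^ 2 + b) ^ (k + 1)) ∂(gaussianReal 0 1)) ≤
      (ENNReal.ofReal (Real.sqrt 2 * Real.exp b) * mm (2 * k + 1)) ^ 2 := by
    refine (mul_le_mul' h1 h2).trans ?_
    calc ENNReal.ofReal (Real.exp b) * mm (2 * k) * (ENNReal.ofReal (Real.exp b) * mm (2 * k + 2))
        = ENNReal.ofReal (Real.exp b) ^ 2 * (mm (2 * k) * mm (2 * k + 2)) := by ring
      _ ≤ ENNReal.ofReal (Real.exp b) ^ 2 * (2 * mm (2 * k + 1) ^ 2) :=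
        mul_le_mul' le_rfl (alg_30635 k)
      _ = (ENNReal.ofReal (Real.sqrt 2 * Real.exp b) * mm (2 * k + 1)) ^ 2 := by
        rw [ENNReal.ofReal_mul (Real.sqrt_nonneg _), mul_pow, mul_pow,
          ← ENNReal.ofReal_pow (Real.sqrt_nonneg _), Real.sq_sqrt (by norm_num)]
        have : ENNReal.ofReal 2 = 2 := by norm_num
        rw [this]
        ring
  calc _ ≤ ((ENNReal.ofReal (Real.sqrt 2 * Real.exp b) * mm (2 * k + 1)) ^ 2) ^ (1 / 2 : ℝ) :=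
        ENNReal.rpow_le_rpow h3 (by norm_num)
    _ = _ := sq_half_30635 _

end Pool.Agent.Helper971.OS
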