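import Pool.Agent.Helper971.OS.Defs

/-!
Volume of unit vector fields on odd spheres, Stage 2: the pointwise inequality for large `N`.
-/

open MeasureTheory ProbabilityTheory Matrix
open scoped RealInnerProductSpace ENNReal BigOperators

namespace Pool.Agent.Helper971.OS



theorem K2_sq_le {E : Type*} [NormedAddCommGroup E] [InnerProductSpace ℝ E] {N : ℕ}
    {c s : Fin N → ℝ} {q g : Fin N → E} {x e : E} (h : NF N c s q g x e) (w : E)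
    (hr : 0 < r2 q w) :
    K2 c s q g x e w ^ 2 ≤ dl s * ⟪w, e⟫ ^ 2 := by
  have hL2 : ∑ j, lv c q w j ^ 2 ≤ r2 q w := by
    unfold r2
    refine Finset.sum_le_sum fun j _ => ?_
    unfold lv
    have h1 := h.cs j
    nlinarith [sq_nonneg (s j), sq_nonneg (⟪w, q j⟫), mul_nonneg (sq_nonneg (s j)) (sq_nonneg ⟪w, q j⟫)]
  obtain ⟨u, hu⟩ : ∃ u : E, u = w - ⟪w, e⟫ • e := ⟨_, rfl⟩
  have hun : ‖u‖ ^ 2 = r2 q w := by
    have h1 := h.q_full w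
    have h2 : ‖u‖ ^ 2 = ‖w‖ ^ 2 - ⟪w, e⟫ ^ 2 := by
      rw [hu, norm_sub_sq_real, norm_smul, inner_smul_right, h.he, Real.norm_eq_abs, mul_one,
        sq_abs]
      ring
    unfold r2
    linarith
  have hux : ∀ z : E, ⟪u, z⟫ = ⟪w, z⟫ - ⟪w, e⟫ * ⟪z, e⟫ := by
    intro z
    rw [hu, inner_sub_left, real_inner_smul_left, real_inner_comm e z]
  have hsing : ∀ (v : E) (j : Fin N), ⟪v, x⟫ ^ 2 + ⟪v, g j⟫ ^ 2 ≤ ‖v‖ ^ 2 := by
    intro v j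
    rw [← h.g_full v]
    have := Finset.single_le_sum (f := fun j => ⟪v, g j⟫ ^ 2) (fun i _ => sq_nonneg _)
      (Finset.mem_univ j)
    simpa using add_le_add_right this (⟪v, x⟫ ^ 2)
  have hep : ∀ j, ep s g x e w j ^ 2 ≤ s j ^ 2 * r2 q w := by
    intro j
    have h1 : ep s g x e w j = s j * (⟪u, x⟫ * ⟪g j, e⟫ - ⟪u, g j⟫ * ⟪x, e⟫) := by
      unfold ep
      rw [hux, hux]
      ring
    have h2 := hsing u j
    have h3 := hsing e j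
    rw [h.he, real_inner_comm x e, real_inner_comm (g j) e, one_pow] at h3
    rw [hun] at h2
    have h4 : (⟪u, x⟫ * ⟪g j, e⟫ - ⟪u, g j⟫ * ⟪x, e⟫) ^ 2 ≤
        (⟪u, x⟫ ^ 2 + ⟪u, g j⟫ ^ 2) * (⟪x, e⟫ ^ 2 + ⟪g j, e⟫ ^ 2) := by
      nlinarith [sq_nonneg (⟪u, x⟫ * ⟪x, e⟫ + ⟪u, g j⟫ * ⟪g j, e⟫)]
    have h5 : (⟪u, x⟫ ^ 2 + ⟪u, g j⟫ ^ 2) * (⟪x, e⟫ ^ 2 + ⟪g j, e⟫ ^ 2) ≤ r2 q w * 1 :=
      mul_le_mul h2 h3 (by positivity) hr.le
    rw [h1, mul_pow]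
    exact mul_le_mul_of_nonneg_left (by linarith) (sq_nonneg _)
  have hE : ∑ j, ep s g x e w j ^ 2 ≤ dl s * r2 q w := by
    unfold dl
    rw [Finset.sum_mul]
    exact Finset.sum_le_sum fun j _ => hep j
  have hdl : 0 ≤ dl s := Finset.sum_nonneg fun j _ => sq_nonneg _
  have hCS : (∑ j, lv c q w j * ep s g x e w j) ^ 2 ≤ dl s * r2 q w ^ 2 := by
    calc (∑ j, lv c q w j * ep s g x e w j) ^ 2
        ≤ (∑ j, lv c q w j ^ 2) * (∑ j, ep s g x e w j ^ 2) :=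
          Finset.sum_mul_sq_le_sq_mul_sq _ _ _
      _ ≤ r2 q w * (dl s * r2 q w) :=
          mul_le_mul hL2 hE (Finset.sum_nonneg fun j _ => sq_nonneg _) hr.le
      _ = dl s * r2 q w ^ 2 := by ring
  unfold K2
  rw [div_pow, mul_pow, div_le_iff₀ (by positivity)]
  calc ⟪w, e⟫ ^ 2 * (∑ j, lv c q w j * ep s g x e w j) ^ 2
      ≤ ⟪w, e⟫ ^ 2 * (dl s * r2 q w ^ 2) := mul_le_mul_of_nonneg_left hCS (sq_nonneg _)
    _ = dl s * ⟪w, e⟫ ^ 2 * r2 q w ^ 2 := by ring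

end Pool.Agent.Helper971.OS
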