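import Pool.Agent.Helper971.OS.Defs

/-!
Volume of unit vector fields on odd spheres, Stage 2: the pointwise inequality for large `N`.
-/

open MeasureTheory ProbabilityTheory Matrix
open scoped RealInnerProductSpace ENNReal BigOperators

namespace Pool.Agent.Helper971.OS



theorem det_le_exp {N : ℕ} (A : Matrix (Fin N) (Fin N) ℝ) (hA : A.PosSemidef) :
    A.det ≤ Real.exp (A.trace - N) := by
  have hH := hA.isHermitian
  rw [hH.det_eq_prod_eigenvalues, hH.trace_eq_sum_eigenvalues]
  have h1 : ∏ i, ((hH.eigenvalues i : ℝ)) ≤ ∏ i, Real.exp (hH.eigenvalues i - 1) := by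
    apply Finset.prod_le_prod
    · intro i _
      exact hA.eigenvalues_nonneg i
    · intro i _
      have := Real.add_one_le_exp (hH.eigenvalues i - 1)
      linarith
  refine h1.trans ?_
  rw [← Real.exp_sum]
  simp [Finset.sum_sub_distrib]

end Pool.Agent.Helper971.OS
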