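import Pool.Agent.Helper971.OS.Defs
import Pool.Agent.Helper971.OS.P_det_le_exp

/-!
Volume of unit vector fields on odd spheres, Stage 2: the pointwise inequality for large `N`.
-/

open MeasureTheory ProbabilityTheory Matrix
open scoped RealInnerProductSpace ENNReal BigOperators

namespace Pool.Agent.Helper971.OS



theorem amgm_det {N : ℕ} (hN : 1 ≤ N) (l : Fin N → ℝ) (L a b : ℝ) (hL : L = ∑ i, l i ^ 2)
    (hL0 : 0 < L) (ha : a ≠ 0) :
    (a • (1 : Matrix (Fin N) (Fin N) ℝ) + ((b - a) / L) • vecMulVec l l).det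
      = a ^ (N - 1) * b := by
  have e : a • (1 : Matrix (Fin N) (Fin N) ℝ) + ((b - a) / L) • vecMulVec l l
      = a • (1 + replicateCol Unit (((b - a) / (L * a)) • l) * replicateRow Unit l) := by
    ext i j
    simp [Matrix.mul_apply, vecMulVec_apply]
    field_simp
  rw [e, det_smul, det_one_add_replicateCol_mul_replicateRow]
  have h : l ⬝ᵥ (((b - a) / (L * a)) • l) = (b - a) / a := by
    simp only [dotProduct, Pi.smul_apply, smul_eq_mul]
    have : ∀ i, l i * ((b - a) / (L * a) * l i) = (b - a) / (L * a) * l i ^ 2 := fun i => by ring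
    simp only [this]
    rw [← Finset.mul_sum, ← hL]
    field_simp
  rw [h, Fintype.card_fin]
  obtain ⟨k, rfl⟩ : ∃ k, N = k + 1 := ⟨N - 1, by omega⟩
  simp only [Nat.add_sub_cancel]
  rw [pow_succ]
  field_simp
  ring

theorem amgm_sq {N : ℕ} (l : Fin N → ℝ) (L a b : ℝ) (hL : L = ∑ i, l i ^ 2) (hL0 : 0 < L) :
    (a • (1 : Matrix (Fin N) (Fin N) ℝ) + ((b - a) / L) • vecMulVec l l) *
      (a • (1 : Matrix (Fin N) (Fin N) ℝ) + ((b - a) / L) • vecMulVec l l)
      = a ^ 2 • (1 : Matrix (Fin N) (Fin N) ℝ) + ((b ^ 2 - a ^ 2) / L) • vecMulVec l l := by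
  have hP : vecMulVec l l * vecMulVec l l = L • vecMulVec l l := by
    rw [vecMulVec_mul_vecMulVec]
    have : l ⬝ᵥ l = L := by
      rw [hL]
      simp [dotProduct, pow_two]
    rw [this]
    ext i j
    simp [vecMulVec_apply]
    ring
  rw [add_mul, mul_add, mul_add]
  simp only [smul_mul_smul_comm, mul_one, one_mul, hP, smul_smul]
  ext i j
  simp [vecMulVec_apply, Matrix.one_apply]
  by_cases hij : i = j
  · simp [hij]
    field_simp
    ring
  · simp [hij]
    field_simp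
    ring

theorem amgm_tr {N : ℕ} (A : Matrix (Fin N) (Fin N) ℝ) (l : Fin N → ℝ) :
    (vecMulVec l l * A).trace = ∑ i, ∑ j, l i * A i j * l j := by
  simp only [Matrix.trace, Matrix.diag_apply, Matrix.mul_apply, vecMulVec_apply]
  rw [Finset.sum_comm]
  refine Finset.sum_congr rfl fun i _ => Finset.sum_congr rfl fun j _ => ?_
  ring

theorem amgm {N : ℕ} (hN : 1 ≤ N) (A : Matrix (Fin N) (Fin N) ℝ) (hA : A.PosSemidef)
    (l : Fin N → ℝ) (hl : 0 < ∑ i, l i ^ 2) (X g' g1 : ℝ) (hX : 0 < X) (hXg : X ≤ g')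
    (hg : (∑ i, l i ^ 2) * g1 ≤ ∑ i, ∑ j, l i * A i j * l j) :
    A.det ≤ g' * X ^ (N - 1) * Real.exp (g1 / g' + (A.trace - g1) / X - N) := by
  set L : ℝ := ∑ i, l i ^ 2 with hL
  have hg0 : 0 < g' := lt_of_lt_of_le hX hXg
  obtain ⟨a, ha, ha2⟩ : ∃ a : ℝ, 0 < a ∧ a ^ 2 = 1 / X :=
    ⟨Real.sqrt (1 / X), Real.sqrt_pos.2 (by positivity), Real.sq_sqrt (by positivity)⟩
  obtain ⟨b, hb, hb2⟩ : ∃ b : ℝ, 0 < b ∧ b ^ 2 = 1 / g' :=
    ⟨Real.sqrt (1 / g'), Real.sqrt_pos.2 (by positivity), Real.sq_sqrt (by positivity)⟩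
  set S : Matrix (Fin N) (Fin N) ℝ := a • (1 : Matrix (Fin N) (Fin N) ℝ) +
    ((b - a) / L) • vecMulVec l l with hS
  have hSt : Sᴴ = S := by
    ext i j
    rw [Matrix.conjTranspose_apply]
    simp [hS, vecMulVec_apply, Matrix.one_apply, eq_comm]
    left
    ring
  have hSd : S.det = a ^ (N - 1) * b := amgm_det hN l L a b hL hl ha.ne'
  have hSS : S * S = a ^ 2 • (1 : Matrix (Fin N) (Fin N) ℝ) +
    ((b ^ 2 - a ^ 2) / L) • vecMulVec l l := amgm_sq l L a b hL hl
  have hB : (Sᴴ * A * S).PosSemidef := hA.conjTranspose_mul_mul_same S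
  have h1 := det_le_exp _ hB
  rw [hSt] at h1
  have hdet : (S * A * S).det = A.det * (1 / (X ^ (N - 1) * g')) := by
    rw [det_mul, det_mul, hSd]
    have : (a ^ (N - 1) * b) * A.det * (a ^ (N - 1) * b)
        = A.det * ((a ^ 2) ^ (N - 1) * b ^ 2) := by ring
    rw [this, ha2, hb2, _root_.one_div_pow]
    field_simp
  have htr : (S * A * S).trace = A.trace / X + (1 / g' - 1 / X) / L *
      (∑ i, ∑ j, l i * A i j * l j) := by
    rw [Matrix.trace_mul_comm, ← Matrix.mul_assoc, hSS, add_mul, Matrix.trace_add,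
      smul_mul_assoc, smul_mul_assoc, one_mul, Matrix.trace_smul, Matrix.trace_smul, amgm_tr,
      ha2, hb2, smul_eq_mul, smul_eq_mul]
    ring
  have h2 : (S * A * S).trace ≤ g1 / g' + (A.trace - g1) / X := by
    rw [htr]
    have hc : (1 / g' - 1 / X) / L ≤ 0 := by
      apply div_nonpos_of_nonpos_of_nonneg _ hl.le
      have : 1 / g' ≤ 1 / X := one_div_le_one_div_of_le hX hXg
      linarith
    have := mul_le_mul_of_nonpos_left hg hc
    have e : (1 / g' - 1 / X) / L * (L * g1) = g1 / g' - g1 / X := by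
      field_simp
    rw [e] at this
    have e2 : (A.trace - g1) / X = A.trace / X - g1 / X := by ring
    rw [e2]
    linarith
  have h3 : A.det * (1 / (X ^ (N - 1) * g')) ≤ Real.exp (g1 / g' + (A.trace - g1) / X - N) := by
    rw [← hdet]
    refine h1.trans (Real.exp_le_exp.2 ?_)
    linarith
  have hpos : 0 < X ^ (N - 1) * g' := by positivity
  rw [mul_one_div, div_le_iff₀ hpos] at h3
  calc A.det ≤ _ := h3
    _ = _ := by ring

end Pool.Agent.Helper971.OS
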