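import Pool.Agent.Helper971.OS.Defs

/-!
Volume of unit vector fields on odd spheres, Stage 2: the pointwise inequality for large `N`.
-/

open MeasureTheory ProbabilityTheory Matrix
open scoped RealInnerProductSpace ENNReal BigOperators

namespace Pool.Agent.Helper971.OS



theorem hh_sq_le {E : Type*} [NormedAddCommGroup E] [InnerProductSpace ℝ E] {N : ℕ}
    {c s : Fin N → ℝ} {q g : Fin N → E} {x e : E} (h : NF N c s q g x e) (w : E) :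
    hh c s q g x w ^ 2 ≤ BB s g x w := by
  have h1 : hh c s q g x w = ∑ j, (s j * ⟪w, g j⟫) * (c j * ⟪q j, x⟫) := by
    unfold hh
    exact Finset.sum_congr rfl fun j _ => by ring
  have h2 : (∑ j, (s j * ⟪w, g j⟫) * (c j * ⟪q j, x⟫)) ^ 2 ≤
      (∑ j, (s j * ⟪w, g j⟫) ^ 2) * ∑ j, (c j * ⟪q j, x⟫) ^ 2 :=
    Finset.sum_mul_sq_le_sq_mul_sq _ _ _
  have h3 : ∑ j, (c j * ⟪q j, x⟫) ^ 2 ≤ 1 := by
    have h4 : ∑ j, (c j * ⟪q j, x⟫) ^ 2 ≤ ∑ j, ⟪x, q j⟫ ^ 2 := by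
      refine Finset.sum_le_sum fun j _ => ?_
      have h5 : c j ^ 2 ≤ 1 := by
        have := h.cs j
        nlinarith [sq_nonneg (s j)]
      rw [mul_pow, real_inner_comm x (q j)]
      nlinarith [sq_nonneg (⟪x, q j⟫ : ℝ)]
    have h6 := h.q_full x
    rw [h.hx] at h6
    nlinarith [sq_nonneg (⟪x, e⟫ : ℝ)]
  have h7 : ∑ j, (s j * ⟪w, g j⟫) ^ 2 ≤ BB s g x w := by
    unfold BB
    refine Finset.sum_le_sum fun j _ => ?_
    rw [mul_pow]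
    nlinarith [mul_nonneg (sq_nonneg (s j)) (sq_nonneg (⟪w, x⟫ : ℝ))]
  have h8 : 0 ≤ ∑ j, (s j * ⟪w, g j⟫) ^ 2 := Finset.sum_nonneg fun j _ => sq_nonneg _
  rw [h1]
  calc _ ≤ _ := h2
    _ ≤ (∑ j, (s j * ⟪w, g j⟫) ^ 2) * 1 := mul_le_mul_of_nonneg_left h3 h8
    _ ≤ BB s g x w := by rw [mul_one]; exact h7

end Pool.Agent.Helper971.OS
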