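import Pool.Agent.Helper971.OS.Defs

/-!
Volume of unit vector fields on odd spheres, Stage 2: the pointwise inequality for large `N`.
-/

open MeasureTheory ProbabilityTheory Matrix
open scoped RealInnerProductSpace ENNReal BigOperators

namespace Pool.Agent.Helper971.OS



theorem psd_GM {E : Type*} [NormedAddCommGroup E] [InnerProductSpace ℝ E] {N : ℕ}
    (c s : Fin N → ℝ) (q g : Fin N → E) (x : E) (t : ℝ) (w : E) :
    (GM c s q g x t w).PosSemidef := by
  have h1 := (Matrix.posSemidef_gram ℝ (fun i => Mv c s q g x t w i)).add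
    (Matrix.posSemidef_vecMulVec_self_star (lv c q w))
  have h2 : Matrix.gram ℝ (fun i => Mv c s q g x t w i) +
      Matrix.vecMulVec (lv c q w) (star (lv c q w)) = GM c s q g x t w := by
    ext i j
    simp [Matrix.gram, Matrix.vecMulVec, GM]
  rw [← h2]
  exact h1

end Pool.Agent.Helper971.OS
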