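import Pool.Agent.Helper971.OS.Defs

/-!
Volume of unit vector fields on odd spheres, Stage 2: the pointwise inequality for large `N`.
-/

open MeasureTheory ProbabilityTheory Matrix
open scoped RealInnerProductSpace ENNReal BigOperators

namespace Pool.Agent.Helper971.OS



theorem quad_lower {E : Type*} [NormedAddCommGroup E] [InnerProductSpace ℝ E] {N : ℕ}
    {c s : Fin N → ℝ} {q g : Fin N → E} {x e : E} (h : NF N c s q g x e) (t : ℝ) (w : E)
    (hr : 0 < r2 q w) :
    L2 c q w * (L2 c q w / r2 q w * (t ^ 2 + r2 q w) - 2 * t * K2 c s q g x e w) ≤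
      ∑ i, ∑ j, lv c q w i * GM c s q g x t w i j * lv c q w j := by
  obtain ⟨y, hy⟩ : ∃ y : E, y = ∑ j, lv c q w j • Mv c s q g x t w j := ⟨_, rfl⟩
  -- the quadratic form
  have hQ : ∑ i, ∑ j, lv c q w i * GM c s q g x t w i j * lv c q w j =
      ‖y‖ ^ 2 + (L2 c q w) ^ 2 := by
    have h1 : ‖y‖ ^ 2 = ∑ i, ∑ j, lv c q w i * lv c q w j *
        ⟪Mv c s q g x t w i, Mv c s q g x t w j⟫ := by
      rw [← real_inner_self_eq_norm_sq, hy, sum_inner]
      refine Finset.sum_congr rfl fun i _ => ?_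
      rw [inner_sum]
      refine Finset.sum_congr rfl fun j _ => ?_
      rw [real_inner_smul_left, real_inner_smul_right]
      ring
    have h2 : (L2 c q w) ^ 2 = ∑ i, ∑ j, lv c q w i * (lv c q w i * lv c q w j) * lv c q w j := by
      unfold L2
      rw [pow_two, Finset.sum_mul_sum]
      refine Finset.sum_congr rfl fun i _ => Finset.sum_congr rfl fun j _ => ?_
      ring
    rw [h1, h2, ← Finset.sum_add_distrib]
    refine Finset.sum_congr rfl fun i _ => ?_
    rw [← Finset.sum_add_distrib]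
    refine Finset.sum_congr rfl fun j _ => ?_
    simp only [GM, Matrix.of_apply]
    ring
  -- inner products
  have hyw : ⟪y, w⟫ = t * L2 c q w := by
    rw [hy, sum_inner]
    unfold L2
    rw [Finset.mul_sum]
    refine Finset.sum_congr rfl fun j _ => ?_
    have h1 : ⟪Mv c s q g x t w j, w⟫ = t * lv c q w j := by
      unfold Mv lv
      rw [inner_add_left, real_inner_smul_left, real_inner_smul_left, inner_sub_left,
        real_inner_smul_left, real_inner_smul_left, real_inner_comm w (q j),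
        real_inner_comm w (g j), real_inner_comm w x]
      ring
    rw [real_inner_smul_left, h1]
    ring
  have hye : ⟪y, e⟫ = ∑ j, lv c q w j * ep s g x e w j := by
    rw [hy, sum_inner]
    refine Finset.sum_congr rfl fun j _ => ?_
    have h1 : ⟪Mv c s q g x t w j, e⟫ = ep s g x e w j := by
      unfold Mv ep
      rw [inner_add_left, real_inner_smul_left, real_inner_smul_left, inner_sub_left,
        real_inner_smul_left, real_inner_smul_left, h.qe j]
      ring
    rw [real_inner_smul_left, h1]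
  obtain ⟨κ, hκ⟩ : ∃ κ : ℝ, κ = ∑ j, lv c q w j * ep s g x e w j := ⟨_, rfl⟩
  obtain ⟨W, hW⟩ : ∃ W : ℝ, W = ⟪w, e⟫ := ⟨_, rfl⟩
  obtain ⟨L, hL⟩ : ∃ L : ℝ, L = L2 c q w := ⟨_, rfl⟩
  obtain ⟨r, hrr⟩ : ∃ r : ℝ, r = r2 q w := ⟨_, rfl⟩
  have hu : ‖w - W • e‖ ^ 2 = r := by
    have h1 := h.q_full w
    rw [← real_inner_self_eq_norm_sq, inner_sub_left, inner_sub_right, inner_sub_right,
      real_inner_smul_left, real_inner_smul_right, real_inner_smul_left, real_inner_smul_right,
      real_inner_self_eq_norm_sq, real_inner_self_eq_norm_sq, h.he, real_inner_comm w e, ← hW,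
      ← h1, ← hW, hrr]
    unfold r2
    ring
  have hyu : ⟪y, w - W • e⟫ = t * L - W * κ := by
    rw [inner_sub_right, real_inner_smul_right, hyw, hye, ← hκ, ← hL]
  have hcs : (t * L - W * κ) ^ 2 ≤ ‖y‖ ^ 2 * r := by
    rw [← hyu, ← hu]
    have h1 := abs_real_inner_le_norm y (w - W • e)
    calc ⟪y, w - W • e⟫ ^ 2 = |⟪y, w - W • e⟫| ^ 2 := (sq_abs _).symm
      _ ≤ (‖y‖ * ‖w - W • e‖) ^ 2 := pow_le_pow_left₀ (abs_nonneg _) h1 2
      _ = _ := by ring
  rw [hQ]
  unfold K2
  rw [← hκ, ← hW, ← hL, ← hrr]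
  rw [← hrr] at hr
  have h1 : L * (L / r * (t ^ 2 + r) - 2 * t * (W * κ / r)) =
      (t ^ 2 * L ^ 2 - 2 * (t * L) * (W * κ)) / r + L ^ 2 := by
    field_simp
    ring
  rw [h1]
  have h2 : (t ^ 2 * L ^ 2 - 2 * (t * L) * (W * κ)) / r ≤ ‖y‖ ^ 2 := by
    rw [div_le_iff₀ hr]
    nlinarith [sq_nonneg (W * κ)]
  linarith

end Pool.Agent.Helper971.OS
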