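import Pool.Agent.Helper971.OS.Defs

/-!
Volume of unit vector fields on odd spheres, Stage 2: the pointwise inequality for large `N`.
-/

open MeasureTheory ProbabilityTheory Matrix
open scoped RealInnerProductSpace ENNReal BigOperators

namespace Pool.Agent.Helper971.OS



theorem real_step (N : ℕ) (hN : 2 ≤ N) (d eta t r W B h k g0 S : ℝ) (ht : t ≠ 0) (hr : 0 < r)
    (heta0 : 0 ≤ eta) (heta1 : eta ≤ 1) (hetad : eta ≤ d) (hd : d ≤ ((N : ℝ) - 1) / 2)
    (hB : 0 ≤ B) (hh : h ^ 2 ≤ B) (hk : k ^ 2 ≤ d * W ^ 2) (hg0 : g0 = t ^ 2 + r)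
    (hS : S = B + d * W ^ 2) (al rho X g' : ℝ) (hal : al = 1 - (d - eta) / ((N : ℝ) - 1))
    (hrho : rho = 32 * S / ((N : ℝ) - 1)) (hX : X = al * t ^ 2 + rho) (hg' : g' = g0 + rho)
    (g1 T : ℝ → ℝ) (hg1 : ∀ u, g1 u = (1 - eta) * g0 - 2 * u * k)
    (hT : ∀ u, T u = ((N : ℝ) - d) * t ^ 2 + B - 2 * u * h + (1 - eta) * r) :
    0 < X ∧ X ≤ g' ∧
    Real.exp (g1 t / g' + (T t - g1 t) / X - N) + Real.exp (g1 (-t) / g' + (T (-t) - g1 (-t)) / X - N)
      ≤ 2 * Real.exp (-eta) := by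
  have hNr : (2 : ℝ) ≤ N := by exact_mod_cast hN
  have hn1 : 0 < (N : ℝ) - 1 := by linarith
  have hd0 : 0 ≤ d := le_trans heta0 hetad
  have hS0 : 0 ≤ S := by rw [hS]; positivity
  have hrho0 : 0 ≤ rho := by rw [hrho]; positivity
  have hal1 : al ≤ 1 := by
    have h1 : 0 ≤ (d - eta) / ((N : ℝ) - 1) := div_nonneg (by linarith) hn1.le
    rw [hal]
    linarith
  have hal2 : 1 / 2 ≤ al := by
    have h1 : (d - eta) / ((N : ℝ) - 1) ≤ 1 / 2 := by
      rw [div_le_iff₀ hn1]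
      linarith
    rw [hal]
    linarith
  have ht2 : 0 < t ^ 2 := by positivity
  have hXt : t ^ 2 / 2 ≤ X := by
    rw [hX]
    nlinarith
  have hX0 : 0 < X := by linarith
  have hg00 : 0 < g0 := by
    rw [hg0]
    linarith
  have hXg : X ≤ g' := by
    rw [hX, hg', hg0]
    nlinarith
  have hg'0 : 0 < g' := by linarith
  refine ⟨hX0, hXg, ?_⟩
  obtain ⟨φ, hφ⟩ : ∃ φ : ℝ, φ = k / g' + (h - k) / X := ⟨_, rfl⟩
  obtain ⟨E0, hE0⟩ : ∃ E0 : ℝ, E0 = (1 - eta) * g0 / g' - 1 + (B - 32 * S) / X := ⟨_, rfl⟩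
  have hn1al : ((N : ℝ) - 1) * al = (N : ℝ) - 1 - (d - eta) := by
    rw [hal, mul_sub, mul_one, mul_div_cancel₀ _ hn1.ne']
  have hn1rho : ((N : ℝ) - 1) * rho = 32 * S := by
    rw [hrho, mul_div_cancel₀ _ hn1.ne']
  have hexp : ∀ u, g1 u / g' + (T u - g1 u) / X - N = E0 - 2 * u * φ := by
    intro u
    have e1 : T u - g1 u = ((N : ℝ) - 1) * X - 32 * S + B - 2 * u * (h - k) := by
      rw [hT, hg1, hX, hg0]
      linear_combination (-t ^ 2) * hn1al - hn1rho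
    rw [e1, hg1, hE0, hφ]
    field_simp
    ring
  rw [hexp, hexp]
  have hcosh : Real.exp (E0 - 2 * t * φ) + Real.exp (E0 - 2 * (-t) * φ) =
      2 * Real.exp E0 * Real.cosh (2 * t * φ) := by
    rw [Real.cosh_eq, show E0 - 2 * t * φ = E0 + -(2 * t * φ) by ring,
      show E0 - 2 * (-t) * φ = E0 + 2 * t * φ by ring, Real.exp_add, Real.exp_add]
    ring
  rw [hcosh]
  have h1 := Real.cosh_le_exp_half_sq (2 * t * φ)
  have hφX : (φ * X) ^ 2 ≤ 2 * (h ^ 2 + k ^ 2) := by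
    obtain ⟨y, hy⟩ : ∃ y : ℝ, y = X / g' := ⟨_, rfl⟩
    have hy0 : 0 < y := by rw [hy]; positivity
    have hy1 : y ≤ 1 := by rw [hy, div_le_one hg'0]; exact hXg
    have e1 : φ * X = h - k * (1 - y) := by
      rw [hφ, hy]
      field_simp
      ring
    rw [e1]
    have e2 : (k * (1 - y)) ^ 2 ≤ k ^ 2 := by
      rw [mul_pow]
      have : (1 - y) ^ 2 ≤ 1 := by nlinarith
      nlinarith [sq_nonneg k]
    nlinarith [sq_nonneg (h + k * (1 - y))]
  have hmain : E0 + (2 * t * φ) ^ 2 / 2 ≤ -eta := by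
    have e1 : (1 - eta) * g0 / g' ≤ 1 - eta := by
      rw [div_le_iff₀ hg'0]
      refine mul_le_mul_of_nonneg_left ?_ (by linarith)
      rw [hg']
      linarith
    have e2 : (2 * t * φ) ^ 2 / 2 ≤ (32 * S - B) / X := by
      rw [le_div_iff₀ hX0]
      have e3 : X * ((2 * t * φ) ^ 2 / 2 * X) = 2 * t ^ 2 * (φ * X) ^ 2 := by ring
      have e4 : 2 * t ^ 2 * (φ * X) ^ 2 ≤ X * (32 * S - B) := by
        calc 2 * t ^ 2 * (φ * X) ^ 2 ≤ (4 * X) * (2 * (h ^ 2 + k ^ 2)) := by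
              refine mul_le_mul (by linarith) hφX (sq_nonneg _) (by linarith)
          _ = X * (8 * (h ^ 2 + k ^ 2)) := by ring
          _ ≤ X * (32 * S - B) := by
              refine mul_le_mul_of_nonneg_left ?_ hX0.le
              have : 0 ≤ d * W ^ 2 := by positivity
              rw [hS]
              linarith
      rw [← e3] at e4
      exact le_of_mul_le_mul_left e4 hX0
    have e5 : (B - 32 * S) / X = -((32 * S - B) / X) := by
      rw [← neg_div]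
      congr 1
      ring
    rw [hE0, e5]
    linarith
  calc 2 * Real.exp E0 * Real.cosh (2 * t * φ)
        ≤ 2 * Real.exp E0 * Real.exp ((2 * t * φ) ^ 2 / 2) :=
        mul_le_mul_of_nonneg_left h1 (by positivity)
    _ = 2 * Real.exp (E0 + (2 * t * φ) ^ 2 / 2) := by rw [Real.exp_add]; ring
    _ ≤ 2 * Real.exp (-eta) := by
        have := Real.exp_le_exp.2 hmain
        linarith

end Pool.Agent.Helper971.OS
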