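import Pool.Agent.Helper971.OS.Defs

/-!
Volume of unit vector fields on odd spheres, Stage 2: the pointwise inequality for large `N`.
-/

open MeasureTheory ProbabilityTheory Matrix
open scoped RealInnerProductSpace ENNReal BigOperators

namespace Pool.Agent.Helper971.OS



theorem trace_GM {E : Type*} [NormedAddCommGroup E] [InnerProductSpace ℝ E] {N : ℕ}
    {c s : Fin N → ℝ} {q g : Fin N → E} {x e : E} (h : NF N c s q g x e) (t : ℝ) (w : E) :
    (GM c s q g x t w).trace =
      ((N : ℝ) - dl s) * t ^ 2 + BB s g x w - 2 * t * hh c s q g x w + L2 c q w := by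
  have hq : ∀ j, ⟪q j, q j⟫ = 1 := by
    intro j
    rw [real_inner_self_eq_norm_sq, h.q_on.1 j]; norm_num
  have hg : ∀ j, ⟪g j, g j⟫ = 1 := by
    intro j
    rw [real_inner_self_eq_norm_sq, h.g_on.1 j]; norm_num
  have hx : ⟪x, x⟫ = 1 := by
    rw [real_inner_self_eq_norm_sq, h.hx]; norm_num
  have hdiag : ∀ j, GM c s q g x t w j j =
      t ^ 2 * (1 - s j ^ 2) + s j ^ 2 * (⟪w, x⟫ ^ 2 + ⟪w, g j⟫ ^ 2) +
        2 * t * ⟪w, x⟫ * (c j * s j * ⟪q j, g j⟫) -
        2 * t * (c j * s j * ⟪w, g j⟫ * ⟪q j, x⟫) + lv c q w j ^ 2 := by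
    intro j
    have h1 := h.cs j
    have h2 : ⟪g j, q j⟫ = ⟪q j, g j⟫ := real_inner_comm _ _
    have h3 : ⟪x, q j⟫ = ⟪q j, x⟫ := real_inner_comm _ _
    have h4 : ⟪x, g j⟫ = 0 := by rw [real_inner_comm]; exact h.gx j
    have h5 := h.gx j
    simp only [GM, Matrix.of_apply, Mv, inner_add_left, inner_add_right, inner_sub_left,
      inner_sub_right, real_inner_smul_left, real_inner_smul_right, hq, hg, hx, h2, h3, h4, h5]
    have h6 : c j ^ 2 = 1 - s j ^ 2 := by linarith
    rw [← h6]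
    ring
  rw [Matrix.trace]
  simp only [Matrix.diag_apply, hdiag, Finset.sum_add_distrib, Finset.sum_sub_distrib,
    ← Finset.mul_sum]
  rw [h.cross]
  simp only [Finset.sum_const, Finset.card_univ, Fintype.card_fin, nsmul_eq_mul, BB, hh, L2, dl]
  ring

end Pool.Agent.Helper971.OS
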