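import Pool.Agent.Helper971.OS.Defs
import Pool.Agent.Helper971.OS.P_amgm
import Pool.Agent.Helper971.OS.P_quad_lower
import Pool.Agent.Helper971.OS.P_K2_sq_le
import Pool.Agent.Helper971.OS.P_trace_GM
import Pool.Agent.Helper971.OS.P_hh_sq_le
import Pool.Agent.Helper971.OS.P_psd_GM
import Pool.Agent.Helper971.OS.P_real_step

/-!
Volume of unit vector fields on odd spheres, Stage 2: the pointwise inequality for large `N`.
-/

open MeasureTheory ProbabilityTheory Matrix
open scoped RealInnerProductSpace ENNReal BigOperators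

namespace Pool.Agent.Helper971.OS



theorem det_avg {E : Type*} [NormedAddCommGroup E] [InnerProductSpace ℝ E] {N : ℕ} (hN : 2 ≤ N)
    {c s : Fin N → ℝ} {q g : Fin N → E} {x e : E} (h : NF N c s q g x e) (t : ℝ) (ht : t ≠ 0)
    (w : E) (hl : 0 < L2 c q w) (hd : dl s ≤ ((N : ℝ) - 1) / 2)
    (eta al rho : ℝ) (heta : eta = 1 - L2 c q w / r2 q w)
    (hal : al = 1 - (dl s - eta) / ((N : ℝ) - 1)) (hrho : rho = 32 * SS s g x e w / ((N : ℝ) - 1)) :
    (GM c s q g x t w).det + (GM c s q g x (-t) w).det ≤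
      2 * ((t ^ 2 + r2 q w + rho) * (al * t ^ 2 + rho) ^ (N - 1) * Real.exp (-eta)) := by
  have hLdef : L2 c q w = ∑ i, lv c q w i ^ 2 := rfl
  have hc1 : ∀ j, c j ^ 2 = 1 - s j ^ 2 := fun j => by linarith [h.cs j]
  have hrL : r2 q w - L2 c q w = ∑ j, s j ^ 2 * ⟪w, q j⟫ ^ 2 := by
    unfold r2 L2 lv
    rw [← Finset.sum_sub_distrib]
    apply Finset.sum_congr rfl
    intro j _
    rw [mul_pow, hc1 j]
    ring
  have h0 : 0 ≤ ∑ j, s j ^ 2 * ⟪w, q j⟫ ^ 2 :=
    Finset.sum_nonneg (fun j _ => mul_nonneg (sq_nonneg _) (sq_nonneg _))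
  have hr : 0 < r2 q w := by linarith
  have hle : ∑ j, s j ^ 2 * ⟪w, q j⟫ ^ 2 ≤ dl s * r2 q w := by
    unfold dl
    rw [Finset.sum_mul]
    apply Finset.sum_le_sum
    intro j _
    apply mul_le_mul_of_nonneg_left _ (sq_nonneg _)
    unfold r2
    exact Finset.single_le_sum (f := fun j => ⟪w, q j⟫ ^ 2) (fun i _ => sq_nonneg _) (Finset.mem_univ j)
  have heta' : (1 - eta) * r2 q w = L2 c q w := by
    rw [heta]
    field_simp
    ring
  have he1 : 1 - eta = L2 c q w / r2 q w := by rw [heta]; ring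
  have heta0 : 0 ≤ eta := by
    have : eta * r2 q w = ∑ j, s j ^ 2 * ⟪w, q j⟫ ^ 2 := by linarith
    by_contra hc
    push Not at hc
    have := mul_neg_of_neg_of_pos hc hr
    linarith
  have heta1 : eta ≤ 1 := by
    have : 0 ≤ L2 c q w / r2 q w := by positivity
    linarith
  have hetad : eta ≤ dl s := by
    have h1 : eta * r2 q w ≤ dl s * r2 q w := by linarith
    exact le_of_mul_le_mul_right h1 hr
  have hBB : 0 ≤ BB s g x w := by
    unfold BB
    exact Finset.sum_nonneg (fun j _ => by positivity)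
  have hSS : SS s g x e w = BB s g x w + dl s * ⟪w, e⟫ ^ 2 := by
    unfold SS BB dl
    rw [Finset.sum_mul, ← Finset.sum_add_distrib]
    apply Finset.sum_congr rfl
    intro j _
    ring
  obtain ⟨hX, hXg, hexp⟩ := real_step N hN (dl s) eta t (r2 q w) ⟪w, e⟫ (BB s g x w) (hh c s q g x w)
    (K2 c s q g x e w) (t ^ 2 + r2 q w) (SS s g x e w) ht hr heta0 heta1 hetad hd hBB (hh_sq_le h w)
    (K2_sq_le h w hr) rfl hSS al rho (al * t ^ 2 + rho) (t ^ 2 + r2 q w + rho) hal hrho rfl rfl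
    (fun u => (1 - eta) * (t ^ 2 + r2 q w) - 2 * u * K2 c s q g x e w)
    (fun u => ((N : ℝ) - dl s) * t ^ 2 + BB s g x w - 2 * u * hh c s q g x w + (1 - eta) * r2 q w)
    (fun u => rfl) (fun u => rfl)
  have key : ∀ u : ℝ, u ^ 2 = t ^ 2 → (GM c s q g x u w).det ≤
      (t ^ 2 + r2 q w + rho) * (al * t ^ 2 + rho) ^ (N - 1) *
      Real.exp (((1 - eta) * (t ^ 2 + r2 q w) - 2 * u * K2 c s q g x e w) / (t ^ 2 + r2 q w + rho) +
        ((((N : ℝ) - dl s) * t ^ 2 + BB s g x w - 2 * u * hh c s q g x w + (1 - eta) * r2 q w) -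
          ((1 - eta) * (t ^ 2 + r2 q w) - 2 * u * K2 c s q g x e w)) / (al * t ^ 2 + rho) - N) := by
    intro u hu
    have h1 := amgm (by omega : 1 ≤ N) (GM c s q g x u w) (psd_GM c s q g x u w) (lv c q w)
      (by rw [← hLdef]; exact hl) (al * t ^ 2 + rho) (t ^ 2 + r2 q w + rho)
      ((1 - eta) * (t ^ 2 + r2 q w) - 2 * u * K2 c s q g x e w) hX hXg (by
        have h2 := quad_lower h u w hr
        rw [← hLdef, he1]
        rw [hu] at h2
        exact h2)
    have h3 : (GM c s q g x u w).trace = ((N : ℝ) - dl s) * t ^ 2 + BB s g x w -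
        2 * u * hh c s q g x w + (1 - eta) * r2 q w := by
      rw [trace_GM h u w, heta', hu]
    rw [h3] at h1
    exact h1
  have hp : 0 ≤ (t ^ 2 + r2 q w + rho) * (al * t ^ 2 + rho) ^ (N - 1) :=
    mul_nonneg (hX.le.trans hXg) (pow_nonneg hX.le _)
  have k1 := key t rfl
  have k2 := key (-t) (by ring)
  have k3 := mul_le_mul_of_nonneg_left hexp hp
  calc (GM c s q g x t w).det + (GM c s q g x (-t) w).det ≤ _ := add_le_add k1 k2
    _ = _ := by rw [← mul_add]
    _ ≤ _ := k3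
    _ = _ := by ring

end Pool.Agent.Helper971.OS
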