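import Pool.Agent.Helper971.OS.Defs
import Pool.Agent.Helper971.OS.P_psd_GM
import Pool.Agent.Helper971.OS.P_det_avg

/-!
Volume of unit vector fields on odd spheres, Stage 2: the pointwise inequality for large `N`.
-/

open MeasureTheory ProbabilityTheory Matrix
open scoped RealInnerProductSpace ENNReal BigOperators

namespace Pool.Agent.Helper971.OS



theorem FF_avg {E : Type*} [NormedAddCommGroup E] [InnerProductSpace ℝ E] {N : ℕ} (hN : 2 ≤ N)
    {c s : Fin N → ℝ} {q g : Fin N → E} {x e : E} (h : NF N c s q g x e) (t : ℝ) (ht : t ≠ 0)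
    (w : E) (hl : 0 < L2 c q w) (hd : dl s ≤ ((N : ℝ) - 1) / 2) :
    FF c s q g x t w + FF c s q g x (-t) w ≤
      2 * (Real.exp (-(dl s) / 2) *
        phi N (t ^ 2 + r2 q w) (t ^ 2) (64 * SS s g x e w / ((N : ℝ) - 1))) := by
  have hN1 : (0 : ℝ) < (N : ℝ) - 1 := by
    have : (2 : ℝ) ≤ N := by exact_mod_cast hN
    linarith
  have hL : L2 c q w = ∑ j, c j ^ 2 * ⟪w, q j⟫ ^ 2 := by
    simp only [L2, lv, mul_pow]
  have hc1 : ∀ j, c j ^ 2 ≤ 1 := fun j => by nlinarith [h.cs j, sq_nonneg (s j)]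
  have hLr : L2 c q w ≤ r2 q w := by
    rw [hL, r2]
    refine Finset.sum_le_sum fun j _ => ?_
    nlinarith [hc1 j, sq_nonneg ⟪w, q j⟫]
  have hr : 0 < r2 q w := hl.trans_le hLr
  set D : ℝ := dl s with hD
  set eta : ℝ := 1 - L2 c q w / r2 q w with heta
  have heta0 : 0 ≤ eta := by
    have : L2 c q w / r2 q w ≤ 1 := (div_le_one hr).2 hLr
    linarith
  have hetaD : eta ≤ D := by
    have h1 : r2 q w - L2 c q w ≤ D * r2 q w := by
      rw [hL, hD, dl, Finset.sum_mul]
      conv_lhs => rw [r2]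
      rw [← Finset.sum_sub_distrib]
      refine Finset.sum_le_sum fun j _ => ?_
      have h2 : ⟪w, q j⟫ ^ 2 ≤ r2 q w :=
        Finset.single_le_sum (f := fun j => ⟪w, q j⟫ ^ 2) (fun i _ => sq_nonneg _)
          (Finset.mem_univ j)
      have h3 : ⟪w, q j⟫ ^ 2 - c j ^ 2 * ⟪w, q j⟫ ^ 2 = s j ^ 2 * ⟪w, q j⟫ ^ 2 := by
        have := h.cs j
        have h4 : s j ^ 2 = 1 - c j ^ 2 := by linarith
        rw [h4]; ring
      rw [h3]
      exact mul_le_mul_of_nonneg_left h2 (sq_nonneg _)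
    have h5 : eta = (r2 q w - L2 c q w) / r2 q w := by
      rw [heta]; field_simp
    rw [h5, div_le_iff₀ hr]
    exact h1
  set al : ℝ := 1 - (D - eta) / ((N : ℝ) - 1) with hal
  have hSS : 0 ≤ SS s g x e w := by
    unfold SS
    refine Finset.sum_nonneg fun j _ => ?_
    positivity
  set rho : ℝ := 32 * SS s g x e w / ((N : ℝ) - 1) with hrho
  have hrho0 : 0 ≤ rho := by positivity
  have hal2 : 1 / 2 ≤ al := by
    have : (D - eta) / ((N : ℝ) - 1) ≤ 1 / 2 := by
      rw [div_le_iff₀ hN1]; linarith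
    linarith
  have hal1 : al ≤ 1 := by
    have : 0 ≤ (D - eta) / ((N : ℝ) - 1) := div_nonneg (by linarith) hN1.le
    linarith
  have halpow : al ^ (N - 1) ≤ Real.exp (-(D - eta)) := by
    have h1 : al ≤ Real.exp (-((D - eta) / ((N : ℝ) - 1))) := by
      have := Real.add_one_le_exp (-((D - eta) / ((N : ℝ) - 1)))
      linarith
    calc al ^ (N - 1) ≤ Real.exp (-((D - eta) / ((N : ℝ) - 1))) ^ (N - 1) :=
          pow_le_pow_left₀ (by linarith) h1 _
      _ = Real.exp (-(D - eta)) := by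
          rw [← Real.exp_nat_mul, Nat.cast_sub (by omega)]
          congr 1
          push_cast
          field_simp
  have havg := det_avg hN h t ht w hl hd eta al rho heta hal hrho
  set a := (GM c s q g x t w).det with ha
  set b := (GM c s q g x (-t) w).det with hb
  have ha0 : 0 ≤ a := (psd_GM c s q g x t w).det_nonneg
  have hb0 : 0 ≤ b := (psd_GM c s q g x (-t) w).det_nonneg
  have hy : 64 * SS s g x e w / ((N : ℝ) - 1) = 2 * rho := by rw [hrho]; ring
  rw [hy]
  set X : ℝ := Real.exp (-D / 2) * phi N (t ^ 2 + r2 q w) (t ^ 2) (2 * rho) with hX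
  have hX0 : 0 ≤ X := by
    rw [hX, phi]; positivity
  have hX2 : X ^ 2 = Real.exp (-D) * ((t ^ 2 + r2 q w + 2 * rho) * (t ^ 2 + 2 * rho) ^ (N - 1)) := by
    rw [hX, phi, mul_pow, mul_pow, ← pow_mul, mul_comm (N - 1) 2, pow_mul,
      Real.sq_sqrt (by positivity), Real.sq_sqrt (by positivity), ← Real.exp_nat_mul]
    congr 2
    push_cast
    ring
  have hmain : (a + b) / 2 ≤ X ^ 2 := by
    have h1 : (al * t ^ 2 + rho) ^ (N - 1) ≤ al ^ (N - 1) * (t ^ 2 + 2 * rho) ^ (N - 1) := by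
      rw [← mul_pow]
      refine pow_le_pow_left₀ (by positivity) ?_ _
      nlinarith
    have h2 : (t ^ 2 + r2 q w + rho) * (al * t ^ 2 + rho) ^ (N - 1) * Real.exp (-eta) ≤ X ^ 2 := by
      rw [hX2]
      calc (t ^ 2 + r2 q w + rho) * (al * t ^ 2 + rho) ^ (N - 1) * Real.exp (-eta)
          ≤ (t ^ 2 + r2 q w + 2 * rho) * (Real.exp (-(D - eta)) * (t ^ 2 + 2 * rho) ^ (N - 1)) *
            Real.exp (-eta) := by
            have h3 : (al * t ^ 2 + rho) ^ (N - 1) ≤
                Real.exp (-(D - eta)) * (t ^ 2 + 2 * rho) ^ (N - 1) :=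
              h1.trans (mul_le_mul_of_nonneg_right halpow (by positivity))
            have h4 : 0 ≤ (al * t ^ 2 + rho) ^ (N - 1) := by positivity
            have h5 : t ^ 2 + r2 q w + rho ≤ t ^ 2 + r2 q w + 2 * rho := by linarith
            gcongr
        _ = (Real.exp (-(D - eta)) * Real.exp (-eta)) *
            ((t ^ 2 + r2 q w + 2 * rho) * (t ^ 2 + 2 * rho) ^ (N - 1)) := by ring
        _ = Real.exp (-D) * ((t ^ 2 + r2 q w + 2 * rho) * (t ^ 2 + 2 * rho) ^ (N - 1)) := by
            rw [← Real.exp_add]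
            congr 2
            ring
    linarith
  have hs : (Real.sqrt a + Real.sqrt b) ^ 2 ≤ (2 * X) ^ 2 := by
    have h1 := Real.sq_sqrt ha0
    have h2 := Real.sq_sqrt hb0
    nlinarith [sq_nonneg (Real.sqrt a - Real.sqrt b)]
  have := abs_le_of_sq_le_sq' hs (by positivity)
  unfold FF
  exact this.2

end Pool.Agent.Helper971.OS
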