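import Pool.Agent.Helper971.OS.Defs
import Pool.Agent.Helper971.OS.P_det_le_exp
import Pool.Agent.Helper971.OS.P_psd_GM

/-!
Volume of unit vector fields on odd spheres, Stage 2: the pointwise inequality for large `N`.
-/

open MeasureTheory ProbabilityTheory Matrix
open scoped RealInnerProductSpace ENNReal BigOperators

namespace Pool.Agent.Helper971.OS



theorem FF_chernoff {E : Type*} [NormedAddCommGroup E] [InnerProductSpace ℝ E] {m : ℕ}
    (c s : Fin (2 * m) → ℝ) (q g : Fin (2 * m) → E) (x : E) (t : ℝ) (w : E) (X : ℝ) (hX : 0 < X) :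
    FF c s q g x t w ≤ X ^ m * Real.exp (-(m : ℝ)) *
      Real.exp ((GM c s q g x t w).trace / (2 * X)) := by
  set G := GM c s q g x t w with hG
  have hp : (X⁻¹ • G).PosSemidef := (psd_GM c s q g x t w).smul (inv_nonneg.2 hX.le)
  have h1 := det_le_exp _ hp
  rw [Matrix.det_smul, Matrix.trace_smul, Fintype.card_fin, smul_eq_mul] at h1
  have hXp : 0 < X ^ (2 * m) := pow_pos hX _
  have h2 : G.det ≤ (X ^ m * Real.exp (-(m : ℝ)) * Real.exp (G.trace / (2 * X))) ^ 2 := by
    have e1 : (X ^ m * Real.exp (-(m : ℝ)) * Real.exp (G.trace / (2 * X))) ^ 2 =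
        X ^ (2 * m) * Real.exp (X⁻¹ * G.trace - ((2 * m : ℕ) : ℝ)) := by
      rw [mul_pow, mul_pow, ← Real.exp_nat_mul, ← Real.exp_nat_mul, mul_assoc, ← Real.exp_add,
        ← pow_mul, mul_comm m 2]
      congr 2
      push_cast
      field_simp
      ring
    rw [e1]
    have e2 : G.det = X ^ (2 * m) * (X⁻¹ ^ (2 * m) * G.det) := by
      rw [← mul_assoc, ← mul_pow, mul_inv_cancel₀ hX.ne', one_pow, one_mul]
    rw [e2]
    exact mul_le_mul_of_nonneg_left h1 hXp.le
  unfold FF
  rw [← hG]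
  calc Real.sqrt G.det ≤ Real.sqrt
        ((X ^ m * Real.exp (-(m : ℝ)) * Real.exp (G.trace / (2 * X))) ^ 2) := Real.sqrt_le_sqrt h2
    _ = _ := Real.sqrt_sq (by positivity)

end Pool.Agent.Helper971.OS
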