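import Pool.Agent.Helper971.OS.Defs
import Pool.Agent.Helper971.OS.P_std_unit

/-!
Volume of unit vector fields on odd spheres, Stage 2: the pointwise inequality for large `N`.
-/

open MeasureTheory ProbabilityTheory Matrix
open scoped RealInnerProductSpace ENNReal BigOperators

namespace Pool.Agent.Helper971.OS



theorem ae_L2 {E : Type*} [NormedAddCommGroup E] [InnerProductSpace ℝ E]
    [FiniteDimensional ℝ E] [MeasurableSpace E] [BorelSpace E] {N : ℕ}
    {c s : Fin N → ℝ} {q g : Fin N → E} {x e : E} (h : NF N c s q g x e)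
    (hd : dl s < (N : ℝ)) : ∀ᵐ w ∂(stdGaussian E), 0 < L2 c q w := by
  have hj : ∃ j, c j ≠ 0 := by
    by_contra hcon
    push Not at hcon
    have h1 : ∀ j, s j ^ 2 = 1 := by
      intro j
      have h2 := h.cs j
      rw [hcon j] at h2
      linarith
    unfold dl at hd
    simp only [h1, Finset.sum_const, Finset.card_univ, Fintype.card_fin, nsmul_eq_mul,
      mul_one] at hd
    exact lt_irrefl _ hd
  obtain ⟨j, hj⟩ := hj
  have hq : ‖q j‖ = 1 := h.q_on.1 j
  haveI : NullSingletonClass (gaussianReal 0 1) := nullSingletonClass_gaussianReal one_ne_zero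
  have h1 : ∀ᵐ y ∂(gaussianReal 0 1), y ≠ 0 := by
    rw [ae_iff]
    simp only [ne_eq, not_not, Set.setOf_eq_eq_singleton]
    exact measure_singleton 0
  rw [← std_unit (q j) hq] at h1
  have hm : AEMeasurable (fun w : E => (⟪w, q j⟫ : ℝ)) (stdGaussian E) := by
    apply Measurable.aemeasurable
    fun_prop
  have h2 := ae_of_ae_map hm h1
  filter_upwards [h2] with w hw
  unfold L2
  apply Finset.sum_pos' (fun i _ => sq_nonneg _)
  refine ⟨j, Finset.mem_univ j, ?_⟩
  unfold lv
  have h3 : c j * ⟪w, q j⟫ ≠ 0 := mul_ne_zero hj hw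
  positivity

end Pool.Agent.Helper971.OS
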