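import Pool.Agent.Helper971.OS.Defs

/-!
Volume of unit vector fields on odd spheres, Stage 2: the pointwise inequality for large `N`.
-/

open MeasureTheory ProbabilityTheory Matrix
open scoped RealInnerProductSpace ENNReal BigOperators

namespace Pool.Agent.Helper971.OS



theorem br_det_row {m : ℕ} (M : Matrix (Fin (m + 1)) (Fin (m + 1)) ℝ) (h0 : M 0 0 = 1)
    (h1 : ∀ j : Fin m, M 0 j.succ = 0) : M.det = (M.submatrix Fin.succ Fin.succ).det := by
  rw [Matrix.det_succ_row_zero, Fin.sum_univ_succ]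
  simp [h0, h1]

theorem br_det_on {D : ℕ} (b : OrthonormalBasis (Fin D) ℝ (EuclideanSpace ℝ (Fin D)))
    (i j : Fin D) : (b i).ofLp ⬝ᵥ (b j).ofLp = if i = j then 1 else 0 := by
  have h := orthonormal_iff_ite.1 b.orthonormal i j
  rw [← h]
  simp only [PiLp.inner_apply, dotProduct]
  apply Finset.sum_congr rfl
  intro k _
  simp [mul_comm]

theorem br_det {N : ℕ} (b : OrthonormalBasis (Fin (N + 2)) ℝ (EuclideanSpace ℝ (Fin (N + 2))))
    (A : Matrix (Fin (N + 2)) (Fin (N + 2)) ℝ) (h0 : A *ᵥ (b 0).ofLp = 0)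
    (h1 : A *ᵥ (b 1).ofLp = 0) (h0' : (b 0).ofLp ᵥ* A = 0) (h1' : (b 1).ofLp ᵥ* A = 0) :
    (A + vecMulVec (b 0).ofLp (b 0).ofLp + vecMulVec (b 1).ofLp (b 1).ofLp).det =
      (Matrix.of fun i j : Fin N =>
        (b (Fin.succ (Fin.succ i))).ofLp ⬝ᵥ A *ᵥ (b (Fin.succ (Fin.succ j))).ofLp).det := by
  have hon := br_det_on b
  set O : Matrix (Fin (N + 2)) (Fin (N + 2)) ℝ := Matrix.of fun i j => (b j).ofLp i with hO
  have hOO : Oᵀ * O = 1 := by
    ext i j
    rw [Matrix.mul_apply, Matrix.one_apply, ← hon i j]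
    rfl
  set M := A + vecMulVec (b 0).ofLp (b 0).ofLp + vecMulVec (b 1).ofLp (b 1).ofLp with hM
  have hent : ∀ i j, (Oᵀ * M * O) i j = (b i).ofLp ⬝ᵥ A *ᵥ (b j).ofLp +
      ((b i).ofLp ⬝ᵥ (b 0).ofLp) * ((b 0).ofLp ⬝ᵥ (b j).ofLp) +
      ((b i).ofLp ⬝ᵥ (b 1).ofLp) * ((b 1).ofLp ⬝ᵥ (b j).ofLp) := by
    intro i j
    have e1 : (Oᵀ * M * O) i j = (b i).ofLp ⬝ᵥ M *ᵥ (b j).ofLp := by
      rw [Matrix.dotProduct_mulVec, Matrix.mul_apply]
      rfl
    rw [e1, hM, Matrix.add_mulVec, Matrix.add_mulVec, dotProduct_add, dotProduct_add,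
      vecMulVec_mulVec, vecMulVec_mulVec]
    simp only [dotProduct_smul, MulOpposite.smul_eq_mul_unop, MulOpposite.unop_op, smul_eq_mul,
      op_smul_eq_smul]
    ring
  have hdet : M.det = (Oᵀ * M * O).det := by
    rw [Matrix.det_mul, Matrix.det_mul, mul_comm, ← mul_assoc, ← Matrix.det_mul]
    have : (O * Oᵀ) = 1 := mul_eq_one_comm.1 hOO
    rw [this, Matrix.det_one, one_mul]
  rw [hdet]
  have z0 : ∀ w : Fin (N + 2) → ℝ, (b 0).ofLp ⬝ᵥ A *ᵥ w = 0 := by
    intro w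
    rw [Matrix.dotProduct_mulVec, h0', zero_dotProduct]
  have z1 : ∀ w : Fin (N + 2) → ℝ, (b 1).ofLp ⬝ᵥ A *ᵥ w = 0 := by
    intro w
    rw [Matrix.dotProduct_mulVec, h1', zero_dotProduct]
  rw [br_det_row _ ?_ ?_, br_det_row _ ?_ ?_]
  · congr 1
    ext i j
    simp only [Matrix.submatrix_apply, Matrix.of_apply]
    rw [hent, hon, hon, hon, hon]
    have n0 : ∀ i : Fin N, i.succ.succ ≠ (0 : Fin (N + 2)) := fun i => Fin.succ_ne_zero _
    have n1 : ∀ i : Fin N, i.succ.succ ≠ (1 : Fin (N + 2)) := fun i h => by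
      have := congrArg Fin.val h
      simp at this
    rw [if_neg (n0 i), if_neg (n1 i)]
    ring
  · simp only [Matrix.submatrix_apply]
    rw [hent]
    have e1 : (Fin.succ 0 : Fin (N + 2)) = 1 := rfl
    rw [e1, z1, hon, hon, hon]
    simp
  · intro j
    simp only [Matrix.submatrix_apply]
    rw [hent]
    have e1 : (Fin.succ 0 : Fin (N + 2)) = 1 := rfl
    have n1 : (1 : Fin (N + 2)) ≠ j.succ.succ := fun h => by
      have := congrArg Fin.val h
      simp at this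
    rw [e1, z1, hon, hon, hon, hon, if_neg n1]
    simp
  · rw [hent, z0, hon, hon, hon]
    simp
  · intro j
    rw [hent, z0, hon, hon, hon, hon]
    have n0 : (0 : Fin (N + 2)) ≠ j.succ := (Fin.succ_ne_zero _).symm
    rw [if_neg n0]
    simp

end Pool.Agent.Helper971.OS
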