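import Pool.Agent.Helper971.OS.Defs
import Pool.Agent.Helper971.OS.P_br_det

/-!
Volume of unit vector fields on odd spheres, Stage 2: the pointwise inequality for large `N`.
-/

open MeasureTheory ProbabilityTheory Matrix
open scoped RealInnerProductSpace ENNReal BigOperators

namespace Pool.Agent.Helper971.OS



theorem brt_vm {D : ℕ} (x v : Fin D → ℝ) (B : Matrix (Fin D) (Fin D) ℝ) (f u : Fin D → ℝ) :
    u ᵥ* TT x v B f = (x ⬝ᵥ f) • (u ᵥ* B) - ((u ᵥ* B) ⬝ᵥ f) • x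
      + (u - (u ⬝ᵥ x) • x - (u ⬝ᵥ v) • v) ᵥ*
        (vecMulVec f v - (v ⬝ᵥ f) • (1 : Matrix (Fin D) (Fin D) ℝ)) := by
  have hPi : u ᵥ* (1 - vecMulVec x x - vecMulVec v v) = u - (u ⬝ᵥ x) • x - (u ⬝ᵥ v) • v := by
    rw [vecMul_sub, vecMul_sub, vecMul_one, vecMul_vecMulVec, vecMul_vecMulVec]
  unfold TT
  rw [vecMul_add, vecMul_sub, vecMul_smul, vecMul_vecMulVec, dotProduct_mulVec, ← vecMul_vecMul,
    hPi]

theorem brt_zero {D : ℕ} (x v : Fin D → ℝ) (B : Matrix (Fin D) (Fin D) ℝ) (f u : Fin D → ℝ)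
    (hB : u ᵥ* B = 0) (hu : u - (u ⬝ᵥ x) • x - (u ⬝ᵥ v) • v = 0) : u ᵥ* TT x v B f = 0 := by
  rw [brt_vm, hB, hu, zero_vecMul, smul_zero, zero_dotProduct, zero_smul, sub_zero, add_zero]

theorem brt_e {D : ℕ} (x v : Fin D → ℝ) (B : Matrix (Fin D) (Fin D) ℝ) (f u : Fin D → ℝ)
    (hx : u ⬝ᵥ x = 0) (hv : u ⬝ᵥ v = 0) : u ᵥ* TT x v B f =
      (x ⬝ᵥ f) • (u ᵥ* B) - ((u ᵥ* B) ⬝ᵥ f) • x - (v ⬝ᵥ f) • u + (u ⬝ᵥ f) • v := by
  rw [brt_vm, hx, hv, zero_smul, zero_smul, sub_zero, sub_zero, vecMul_sub, vecMul_vecMulVec,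
    vecMul_smul, vecMul_one]
  abel

theorem brt_inner {D : ℕ} (a b : EuclideanSpace ℝ (Fin D)) : a.ofLp ⬝ᵥ b.ofLp = ⟪a, b⟫ := by
  rw [EuclideanSpace.inner_eq_star_dotProduct, dotProduct_comm]
  simp

theorem brt_Az {D : ℕ} (T : Matrix (Fin D) (Fin D) ℝ) (u : Fin D → ℝ) (h : u ᵥ* T = 0) :
    (T * Tᵀ) *ᵥ u = 0 ∧ u ᵥ* (T * Tᵀ) = 0 := by
  constructor
  · rw [← mulVec_mulVec, mulVec_transpose, h, mulVec_zero]
  · rw [← vecMul_vecMul, h, zero_vecMul]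

theorem brt_q {D : ℕ} (T : Matrix (Fin D) (Fin D) ℝ) (u w : Fin D → ℝ) :
    u ⬝ᵥ (T * Tᵀ) *ᵥ w = (u ᵥ* T) ⬝ᵥ (w ᵥ* T) := by
  rw [← mulVec_mulVec, dotProduct_mulVec, mulVec_transpose]

theorem br_TT {N : ℕ} (b : OrthonormalBasis (Fin (N + 2)) ℝ (EuclideanSpace ℝ (Fin (N + 2))))
    (B : Matrix (Fin (N + 2)) (Fin (N + 2)) ℝ) (h1 : (b 0).ofLp ᵥ* B = 0)
    (h2 : (b 1).ofLp ᵥ* B = 0) (f : EuclideanSpace ℝ (Fin (N + 2))) :
    JJ (b 0).ofLp (b 1).ofLp B f.ofLp =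
      Real.sqrt (gram (iot (b 0) (b 1) (fun i : Fin N => b (Fin.succ (Fin.succ i)))
        (fun i : Fin N => WithLp.toLp 2 ((b (Fin.succ (Fin.succ i))).ofLp ᵥ* B)) f)).det := by
  have on : ∀ i j, (b i).ofLp ⬝ᵥ (b j).ofLp = if i = j then 1 else 0 := by
    intro i j
    rw [brt_inner, orthonormal_iff_ite.1 b.orthonormal]
  have h01 : (0 : Fin (N + 2)) ≠ 1 := by
    intro h
    have := congrArg Fin.val h
    simp at this
  have z0 : (b 0).ofLp ᵥ* TT (b 0).ofLp (b 1).ofLp B f.ofLp = 0 := by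
    apply brt_zero _ _ _ _ _ h1
    rw [on, on, if_pos rfl, if_neg h01, one_smul, zero_smul, sub_self, sub_zero]
  have z1 : (b 1).ofLp ᵥ* TT (b 0).ofLp (b 1).ofLp B f.ofLp = 0 := by
    apply brt_zero _ _ _ _ _ h2
    rw [on, on, if_pos rfl, if_neg h01.symm, one_smul, zero_smul, sub_zero, sub_self]
  obtain ⟨a0, a0'⟩ := brt_Az _ _ z0
  obtain ⟨a1, a1'⟩ := brt_Az _ _ z1
  unfold JJ
  rw [br_det b _ a0 a1 a0' a1']
  congr 2
  ext i j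
  have key : ∀ i : Fin N, (b (Fin.succ (Fin.succ i))).ofLp ᵥ* TT (b 0).ofLp (b 1).ofLp B f.ofLp =
      (iot (b 0) (b 1) (fun i : Fin N => b (Fin.succ (Fin.succ i)))
        (fun i : Fin N => WithLp.toLp 2 ((b (Fin.succ (Fin.succ i))).ofLp ᵥ* B)) f i).ofLp := by
    intro i
    have n0 : Fin.succ (Fin.succ i) ≠ (0 : Fin (N + 2)) := Fin.succ_ne_zero _
    have n1 : Fin.succ (Fin.succ i) ≠ (1 : Fin (N + 2)) := by
      intro h
      have := congrArg Fin.val h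
      simp at this
    rw [brt_e _ _ _ _ _ (by rw [on, if_neg n0]) (by rw [on, if_neg n1])]
    unfold iot
    simp only [WithLp.ofLp_add, WithLp.ofLp_sub, WithLp.ofLp_smul]
    rw [← brt_inner f (b 0), ← brt_inner f (b 1), ← brt_inner f (b (Fin.succ (Fin.succ i))),
      ← brt_inner f (WithLp.toLp 2 ((b (Fin.succ (Fin.succ i))).ofLp ᵥ* B)),
      dotProduct_comm (b 0).ofLp, dotProduct_comm (b 1).ofLp,
      dotProduct_comm (b (Fin.succ (Fin.succ i))).ofLp f.ofLp, dotProduct_comm _ f.ofLp]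
  rw [of_apply, brt_q, key, key, brt_inner]
  rfl

end Pool.Agent.Helper971.OS
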