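import Pool.Agent.Helper971.OS.Defs

/-!
Volume of unit vector fields on odd spheres, Stage 2: the pointwise inequality for large `N`.
-/

open MeasureTheory ProbabilityTheory Matrix
open scoped RealInnerProductSpace ENNReal BigOperators

namespace Pool.Agent.Helper971.OS



theorem br_basis {N : ℕ} (x v : EuclideanSpace ℝ (Fin (N + 2))) (hx : ‖x‖ = 1) (hv : ‖v‖ = 1)
    (hxv : ⟪x, v⟫ = 0) :
    ∃ b : OrthonormalBasis (Fin (N + 2)) ℝ (EuclideanSpace ℝ (Fin (N + 2))),
      b 0 = x ∧ b 1 = v := by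
  let w : Fin (N + 2) → EuclideanSpace ℝ (Fin (N + 2)) := fun i => if i = 0 then x else v
  have h01 : (1 : Fin (N + 2)) ≠ 0 := by
    intro h
    have := congrArg Fin.val h
    simp at this
  have w0 : w 0 = x := if_pos rfl
  have w1 : w 1 = v := if_neg h01
  have hmem : ∀ i ∈ ({0, 1} : Set (Fin (N + 2))), i = 0 ∨ i = 1 := fun i hi => hi
  have hn : ∀ i ∈ ({0, 1} : Set (Fin (N + 2))), ‖w i‖ = 1 := by
    intro i hi
    rcases hmem i hi with h | h
    · rw [h, w0, hx]
    · rw [h, w1, hv]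
  have ho : ∀ i ∈ ({0, 1} : Set (Fin (N + 2))), ∀ j ∈ ({0, 1} : Set (Fin (N + 2))), i ≠ j →
      ⟪w i, w j⟫ = 0 := by
    intro i hi j hj hij
    rcases hmem i hi with h | h <;> rcases hmem j hj with h' | h'
    · exact absurd (h.trans h'.symm) hij
    · rw [h, h', w0, w1, hxv]
    · rw [h, h', w0, w1, real_inner_comm, hxv]
    · exact absurd (h.trans h'.symm) hij
  have hon : Orthonormal ℝ (({0, 1} : Set (Fin (N + 2))).domRestrict w) :=
    ⟨fun i => hn i.1 i.2, fun i j hij => ho i.1 i.2 j.1 j.2 (fun h => hij (Subtype.ext h))⟩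
  obtain ⟨b, hb⟩ := hon.exists_orthonormalBasis_extension_of_card_eq (by simp)
  refine ⟨b, ?_, ?_⟩
  · rw [hb 0 (Set.mem_insert _ _), w0]
  · rw [hb 1 (Set.mem_insert_of_mem _ rfl), w1]

end Pool.Agent.Helper971.OS
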