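import Pool.Agent.Helper971.OS.Defs
import Pool.Agent.Helper971.OS.P_br_det

/-!
Volume of unit vector fields on odd spheres, Stage 2: the pointwise inequality for large `N`.
-/

open MeasureTheory ProbabilityTheory Matrix
open scoped RealInnerProductSpace ENNReal BigOperators

namespace Pool.Agent.Helper971.OS



theorem br_det_one {N : ℕ} (b : OrthonormalBasis (Fin (N + 2)) ℝ (EuclideanSpace ℝ (Fin (N + 2))))
    (A : Matrix (Fin (N + 2)) (Fin (N + 2)) ℝ) (h0 : A *ᵥ (b 0).ofLp = 0)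
    (h1 : A *ᵥ (b 1).ofLp = 0) (h0' : (b 0).ofLp ᵥ* A = 0) (h1' : (b 1).ofLp ᵥ* A = 0) :
    (1 + A).det =
      (1 + Matrix.of fun i j : Fin N =>
        (b (Fin.succ (Fin.succ i))).ofLp ⬝ᵥ A *ᵥ (b (Fin.succ (Fin.succ j))).ofLp).det := by
  have hdot : ∀ i j, (b i).ofLp ⬝ᵥ (b j).ofLp = if i = j then (1 : ℝ) else 0 := by
    intro i j
    have h := orthonormal_iff_ite.mp b.orthonormal i j
    rw [EuclideanSpace.inner_eq_star_dotProduct] at h
    rw [dotProduct_comm]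
    simpa using h
  have h10 : (1 : Fin (N + 2)) ≠ 0 := by simp [Fin.ext_iff]
  have hPr : ∀ w : Fin (N + 2) → ℝ,
      (A + (1 - vecMulVec (b 0).ofLp (b 0).ofLp - vecMulVec (b 1).ofLp (b 1).ofLp)) *ᵥ w =
      A *ᵥ w + (w - ((b 0).ofLp ⬝ᵥ w) • (b 0).ofLp - ((b 1).ofLp ⬝ᵥ w) • (b 1).ofLp) := by
    intro w
    rw [add_mulVec, sub_mulVec, sub_mulVec, one_mulVec, vecMulVec_mulVec, vecMulVec_mulVec]
    simp
  have hPl : ∀ w : Fin (N + 2) → ℝ,
      w ᵥ* (A + (1 - vecMulVec (b 0).ofLp (b 0).ofLp - vecMulVec (b 1).ofLp (b 1).ofLp)) =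
      w ᵥ* A + (w - (w ⬝ᵥ (b 0).ofLp) • (b 0).ofLp - (w ⬝ᵥ (b 1).ofLp) • (b 1).ofLp) := by
    intro w
    rw [vecMul_add, vecMul_sub, vecMul_sub, vecMul_one, vecMul_vecMulVec, vecMul_vecMulVec]
  have key := br_det b (A + (1 - vecMulVec (b 0).ofLp (b 0).ofLp - vecMulVec (b 1).ofLp (b 1).ofLp))
    (by rw [hPr, h0, hdot, hdot, if_pos rfl, if_neg h10]; simp)
    (by rw [hPr, h1, hdot, hdot, if_pos rfl, if_neg h10.symm]; simp)
    (by rw [hPl, h0', hdot, hdot, if_pos rfl, if_neg h10.symm]; simp)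
    (by rw [hPl, h1', hdot, hdot, if_pos rfl, if_neg h10]; simp)
  have e1 : (A + (1 - vecMulVec (b 0).ofLp (b 0).ofLp - vecMulVec (b 1).ofLp (b 1).ofLp)) +
      vecMulVec (b 0).ofLp (b 0).ofLp + vecMulVec (b 1).ofLp (b 1).ofLp = 1 + A := by abel
  rw [e1] at key
  rw [key]
  congr 1
  ext i j
  rw [Matrix.of_apply, Matrix.add_apply, Matrix.of_apply, hPr, dotProduct_add, dotProduct_sub,
    dotProduct_sub, dotProduct_smul, dotProduct_smul, hdot, hdot, hdot, hdot, hdot,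
    Matrix.one_apply]
  have e2 : (0 : Fin (N + 2)) ≠ j.succ.succ := by simp [Fin.ext_iff]
  have e3 : (1 : Fin (N + 2)) ≠ j.succ.succ := by simp [Fin.ext_iff]
  rw [if_neg e2, if_neg e3]
  simp only [Fin.succ_inj, zero_smul, sub_zero]
  ring

end Pool.Agent.Helper971.OS
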