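import Pool.Agent.Helper971.OS.Defs
import Pool.Agent.Helper971.OS.P_br_det_one

/-!
Volume of unit vector fields on odd spheres, Stage 2: the pointwise inequality for large `N`.
-/

open MeasureTheory ProbabilityTheory Matrix
open scoped RealInnerProductSpace ENNReal BigOperators

namespace Pool.Agent.Helper971.OS



theorem br_one {N : ℕ} (b : OrthonormalBasis (Fin (N + 2)) ℝ (EuclideanSpace ℝ (Fin (N + 2))))
    (B : Matrix (Fin (N + 2)) (Fin (N + 2)) ℝ) (h1 : (b 0).ofLp ᵥ* B = 0)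
    (h2 : (b 1).ofLp ᵥ* B = 0) :
    (1 + B * Bᵀ).det =
      (1 + gram (fun i : Fin N => (WithLp.toLp 2 ((b (Fin.succ (Fin.succ i))).ofLp ᵥ* B) :
        EuclideanSpace ℝ (Fin (N + 2))))).det := by
  have key : ∀ u w : Fin (N + 2) → ℝ, u ⬝ᵥ (B * Bᵀ) *ᵥ w = (u ᵥ* B) ⬝ᵥ (w ᵥ* B) := by
    intro u w
    rw [← Matrix.mulVec_mulVec, Matrix.mulVec_transpose, Matrix.dotProduct_mulVec]
  have m1 : ∀ u : Fin (N + 2) → ℝ, u ᵥ* B = 0 → (B * Bᵀ) *ᵥ u = 0 := by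
    intro u hu
    rw [← Matrix.mulVec_mulVec, Matrix.mulVec_transpose, hu, Matrix.mulVec_zero]
  have m2 : ∀ u : Fin (N + 2) → ℝ, u ᵥ* B = 0 → u ᵥ* (B * Bᵀ) = 0 := by
    intro u hu
    rw [← Matrix.vecMul_vecMul, hu, Matrix.zero_vecMul]
  rw [br_det_one b (B * Bᵀ) (m1 _ h1) (m1 _ h2) (m2 _ h1) (m2 _ h2)]
  congr 2
  ext i j
  simp only [gram, Matrix.of_apply]
  rw [key, EuclideanSpace.inner_eq_star_dotProduct]
  simp [dotProduct_comm]

end Pool.Agent.Helper971.OS
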