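import Pool.Agent.Helper971.OS.Defs
import Pool.Agent.Helper971.OS.P_lint_exp_sq

/-!
Volume of unit vector fields on odd spheres, Stage 2: the pointwise inequality for large `N`.
-/

open MeasureTheory ProbabilityTheory Matrix
open scoped RealInnerProductSpace ENNReal BigOperators

namespace Pool.Agent.Helper971.OS



theorem gauss_t (N : ℕ) (hN : 30720 ≤ N) (d X : ℝ) (hd0 : (N : ℝ) / 3072 ≤ d)
    (hd : d ≤ (N : ℝ) / 2) (hX : X = (N : ℝ) * (1 - 1 / 6144)) :
    ∫⁻ t, ENNReal.ofReal (Real.exp (((N : ℝ) - d + 1) * t ^ 2 / (2 * X))) ∂(gaussianReal 0 1) ≤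
      ENNReal.ofReal 120 := by
  have hN' : (30720 : ℝ) ≤ N := by exact_mod_cast hN
  have hX0 : 0 < X := by
    rw [hX]
    nlinarith
  have hXN : X ≤ N := by
    rw [hX]
    nlinarith
  have h1 : (N : ℝ) - d + 1 + X / 14400 ≤ X := by
    have : (N : ℝ) / 6144 ≤ X - N * (1 - 1 / 3072) := by
      rw [hX]
      nlinarith
    linarith
  obtain ⟨a, ha⟩ : ∃ a : ℝ, a = ((N : ℝ) - d + 1) / (2 * X) := ⟨_, rfl⟩
  have h2 : 1 / 14400 ≤ 1 - 2 * a := by
    have h3 : 2 * a = ((N : ℝ) - d + 1) / X := by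
      rw [ha]
      field_simp
    have h4 : ((N : ℝ) - d + 1) / X ≤ 1 - 1 / 14400 := by
      rw [div_le_iff₀ hX0]
      linarith
    rw [h3]
    linarith
  have h5 : ∀ t : ℝ, ((N : ℝ) - d + 1) * t ^ 2 / (2 * X) = a * t ^ 2 := fun t => by
    rw [ha]
    ring
  simp_rw [h5]
  rw [lint_exp_sq a (by linarith)]
  apply ENNReal.ofReal_le_ofReal
  have h6 : (1 : ℝ) / 120 ≤ Real.sqrt (1 - 2 * a) := by
    apply Real.le_sqrt_of_sq_le
    norm_num
    norm_num at h2
    exact h2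
  rw [div_le_iff₀ (lt_of_lt_of_le (by norm_num) h6)]
  linarith

end Pool.Agent.Helper971.OS
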