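import Pool.Agent.Helper971.OS.Defs
import Pool.Agent.Helper971.OS.P_lint_exp_sq

/-!
Volume of unit vector fields on odd spheres, Stage 2: the pointwise inequality for large `N`.
-/

open MeasureTheory ProbabilityTheory Matrix
open scoped RealInnerProductSpace ENNReal BigOperators

namespace Pool.Agent.Helper971.OS



theorem gauss_quad_pi {N : ℕ} (c : Fin (N + 1) → ℝ) (hc : ∀ i, c i < 1 / 2) :
    ∫⁻ y : Fin (N + 1) → ℝ, ENNReal.ofReal (Real.exp (∑ i, c i * y i ^ 2))
      ∂(Measure.pi fun _ : Fin (N + 1) => gaussianReal 0 1) =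
      ∏ i, ENNReal.ofReal (1 / Real.sqrt (1 - 2 * c i)) := by
  have h1 : ∀ y : Fin (N + 1) → ℝ, ENNReal.ofReal (Real.exp (∑ i, c i * y i ^ 2)) =
      ∏ i, ENNReal.ofReal (Real.exp (c i * y i ^ 2)) := by
    intro y
    rw [Real.exp_sum, ENNReal.ofReal_prod_of_nonneg (fun i _ => (Real.exp_pos _).le)]
  simp only [h1]
  have hm : ∀ i : Fin (N + 1), Measurable (fun t : ℝ => ENNReal.ofReal (Real.exp (c i * t ^ 2))) := by
    intro i
    fun_prop
  have hind : iIndepFun (fun (i : Fin (N + 1)) (y : Fin (N + 1) → ℝ) =>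
      ENNReal.ofReal (Real.exp (c i * y i ^ 2)))
      (Measure.pi fun _ : Fin (N + 1) => gaussianReal 0 1) :=
    iIndepFun_pi (X := fun i t => ENNReal.ofReal (Real.exp (c i * t ^ 2)))
      (fun i => (hm i).aemeasurable)
  rw [lintegral_prod_eq_prod_lintegral_of_indepFun Finset.univ
    (fun (i : Fin (N + 1)) (y : Fin (N + 1) → ℝ) => ENNReal.ofReal (Real.exp (c i * y i ^ 2)))
    hind (fun i => (hm i).comp (measurable_pi_apply i))]
  refine Finset.prod_congr rfl fun i _ => ?_
  have h2 := (measurePreserving_eval (fun _ : Fin (N + 1) => gaussianReal 0 1) i).lintegral_comp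
    (hm i)
  have h3 := lint_exp_sq (c i) (hc i)
  rw [← h3, ← h2]

theorem gauss_quad {E : Type*} [NormedAddCommGroup E] [InnerProductSpace ℝ E]
    [FiniteDimensional ℝ E] [MeasurableSpace E] [BorelSpace E] {N : ℕ}
    (hE : Module.finrank ℝ E = N + 1) (x : E) (hx : ‖x‖ = 1) (a b : ℝ) (ha : 0 ≤ a) (hb : 0 ≤ b)
    (hab : a + b < 1 / 2) :
    ∫⁻ w, ENNReal.ofReal (Real.exp (a * ⟪w, x⟫ ^ 2 + b * ‖w‖ ^ 2)) ∂(stdGaussian E) =
      ENNReal.ofReal (1 / Real.sqrt (1 - 2 * (a + b)) * (1 / Real.sqrt (1 - 2 * b)) ^ N) := by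
  obtain ⟨bs, hbs⟩ := Orthonormal.exists_orthonormalBasis_extension_of_card_eq
    (𝕜 := ℝ) (E := E) (ι := Fin (N + 1)) (by rw [hE, Fintype.card_fin])
    (v := fun _ => x) (s := {0}) ⟨fun _ => hx, fun i j hij => absurd (Subsingleton.elim i j) hij⟩
  have hb0 : bs 0 = x := hbs 0 rfl
  rw [stdGaussian_eq_map_pi_orthonormalBasis bs, lintegral_map (by fun_prop) (by fun_prop)]
  have key : ∀ y : Fin (N + 1) → ℝ, a * ⟪∑ i, y i • bs i, x⟫ ^ 2 + b * ‖∑ i, y i • bs i‖ ^ 2 =
      ∑ i, (if i = 0 then a + b else b) * y i ^ 2 := by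
    intro y
    have h1 : ⟪∑ i, y i • bs i, x⟫ = y 0 := by
      rw [← hb0, sum_inner, Finset.sum_eq_single 0]
      · rw [inner_smul_left, real_inner_self_eq_norm_sq, bs.orthonormal.1 0]; simp
      · intro i _ hi
        rw [inner_smul_left, bs.orthonormal.2 hi, mul_zero]
      · intro h; exact absurd (Finset.mem_univ _) h
    have h2 : ‖∑ i, y i • bs i‖ ^ 2 = ∑ i, y i ^ 2 := by
      rw [← real_inner_self_eq_norm_sq, bs.orthonormal.inner_sum]
      exact Finset.sum_congr rfl fun i _ => by simp [sq]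
    rw [h1, h2, Fin.sum_univ_succ, Fin.sum_univ_succ]
    simp only [if_true, Fin.succ_ne_zero, if_false]
    rw [← Finset.mul_sum]
    ring
  simp only [key]
  rw [gauss_quad_pi (fun i => if i = 0 then a + b else b) (by
    intro i
    by_cases h : i = 0
    · simp only [h, if_true]; exact hab
    · simp only [h, if_false]; linarith)]
  rw [Fin.prod_univ_succ]
  simp only [if_true, Fin.succ_ne_zero, if_false, Finset.prod_const, Finset.card_univ,
    Fintype.card_fin]
  rw [← ENNReal.ofReal_pow (by positivity), ← ENNReal.ofReal_mul (by positivity)]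

end Pool.Agent.Helper971.OS
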