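import Pool.Agent.Helper971.OS.Defs
import Pool.Agent.Helper971.OS.P_gauss_quad

/-!
Volume of unit vector fields on odd spheres, Stage 2: the pointwise inequality for large `N`.
-/

open MeasureTheory ProbabilityTheory Matrix
open scoped RealInnerProductSpace ENNReal BigOperators

namespace Pool.Agent.Helper971.OS



theorem gw_exp : Real.exp (5 / 2) ≤ 14 := by
  have h1 : Real.exp (5 / 2) ^ 2 = Real.exp 1 ^ 5 := by
    rw [← Real.exp_nat_mul, ← Real.exp_nat_mul]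
    norm_num
  have h2 : Real.exp 1 ^ 5 ≤ 2.7182818286 ^ 5 :=
    pow_le_pow_left₀ (Real.exp_pos 1).le Real.exp_one_lt_d9.le 5
  have h3 : Real.exp (5 / 2) ^ 2 ≤ 14 ^ 2 := by
    rw [h1]
    refine h2.trans ?_
    norm_num
  exact le_of_sq_le_sq h3 (by norm_num)

theorem gw_one (u : ℝ) (h0 : 0 ≤ u) (h1 : u ≤ 1 / 4) :
    1 / Real.sqrt (1 - u) ≤ Real.exp (2 / 3 * u) := by
  have h2 : Real.exp (-(4 / 3 * u)) ≤ 1 - u := by
    rw [Real.exp_neg]
    have h3 : 1 + 4 / 3 * u ≤ Real.exp (4 / 3 * u) := by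
      have := Real.add_one_le_exp (4 / 3 * u)
      linarith
    have h4 : 0 < 1 + 4 / 3 * u := by positivity
    calc (Real.exp (4 / 3 * u))⁻¹ ≤ (1 + 4 / 3 * u)⁻¹ := inv_anti₀ h4 h3
      _ ≤ 1 - u := by
        rw [inv_le_iff_one_le_mul₀ h4]
        nlinarith
  have h5 : Real.exp (-(2 / 3 * u)) ≤ Real.sqrt (1 - u) := by
    apply Real.le_sqrt_of_sq_le
    rw [← Real.exp_nat_mul]
    refine le_trans (le_of_eq ?_) h2
    congr 1
    push_cast
    ring
  have h6 : 0 < Real.exp (-(2 / 3 * u)) := Real.exp_pos _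
  calc 1 / Real.sqrt (1 - u) ≤ 1 / Real.exp (-(2 / 3 * u)) := one_div_le_one_div_of_le h6 h5
    _ = Real.exp (2 / 3 * u) := by rw [Real.exp_neg, one_div, inv_inv]

theorem gauss_w {E : Type*} [NormedAddCommGroup E] [InnerProductSpace ℝ E]
    [FiniteDimensional ℝ E] [MeasurableSpace E] [BorelSpace E] {N : ℕ} (hN : 1000 ≤ N)
    (hE : Module.finrank ℝ E = N + 1) (x : E) (hx : ‖x‖ = 1) (d X : ℝ) (hd0 : 0 ≤ d)
    (hd : d ≤ (N : ℝ) / 2) (hX : 99 / 100 * (N : ℝ) ≤ X) :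
    ∫⁻ w, ENNReal.ofReal (Real.exp ((d * ⟪w, x⟫ ^ 2 + 3 * ‖w‖ ^ 2) / (2 * X))) ∂(stdGaussian E) ≤
      ENNReal.ofReal 20 := by
  have hN' : (1000 : ℝ) ≤ N := by exact_mod_cast hN
  have hX0 : 0 < X := by linarith
  have e1 : ∀ w : E, (d * ⟪w, x⟫ ^ 2 + 3 * ‖w‖ ^ 2) / (2 * X) =
      d / (2 * X) * ⟪w, x⟫ ^ 2 + 3 / (2 * X) * ‖w‖ ^ 2 := by
    intro w
    ring
  simp_rw [e1]
  have hab : d / (2 * X) + 3 / (2 * X) < 1 / 2 := by
    rw [← add_div, div_lt_div_iff₀ (by positivity) (by norm_num)]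
    linarith
  rw [gauss_quad hE x hx _ _ (by positivity) (by positivity) hab]
  apply ENNReal.ofReal_le_ofReal
  have h1 : (49 / 100 : ℝ) ≤ 1 - 2 * (d / (2 * X) + 3 / (2 * X)) := by
    have e : 2 * (d / (2 * X) + 3 / (2 * X)) = (d + 3) / X := by
      field_simp
    rw [e]
    have h : (d + 3) / X ≤ 51 / 100 := by
      rw [div_le_iff₀ hX0]
      linarith
    linarith
  have h2 : (7 / 10 : ℝ) ≤ Real.sqrt (1 - 2 * (d / (2 * X) + 3 / (2 * X))) := by
    apply Real.le_sqrt_of_sq_le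
    refine le_trans (le_of_eq ?_) h1
    norm_num
  have h3 : 1 / Real.sqrt (1 - 2 * (d / (2 * X) + 3 / (2 * X))) ≤ 10 / 7 := by
    rw [div_le_div_iff₀ (by linarith) (by norm_num)]
    linarith
  have h4 : 1 - 2 * (3 / (2 * X)) = 1 - 3 / X := by
    field_simp
  have h5 : 3 / X ≤ 1 / 4 := by
    rw [div_le_div_iff₀ hX0 (by norm_num)]
    linarith
  have h6 := gw_one (3 / X) (by positivity) h5
  have h7 : (1 / Real.sqrt (1 - 2 * (3 / (2 * X)))) ^ N ≤ 14 := by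
    rw [h4]
    calc (1 / Real.sqrt (1 - 3 / X)) ^ N ≤ Real.exp (2 / 3 * (3 / X)) ^ N :=
          pow_le_pow_left₀ (by positivity) h6 N
      _ = Real.exp (N * (2 / 3 * (3 / X))) := by rw [← Real.exp_nat_mul]
      _ ≤ Real.exp (5 / 2) := by
        apply Real.exp_le_exp.2
        have e : (N : ℝ) * (2 / 3 * (3 / X)) = 2 * N / X := by
          field_simp
        rw [e, div_le_iff₀ hX0]
        linarith
      _ ≤ 14 := gw_exp
  calc 1 / Real.sqrt (1 - 2 * (d / (2 * X) + 3 / (2 * X))) *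
        (1 / Real.sqrt (1 - 2 * (3 / (2 * X)))) ^ N ≤ 10 / 7 * 14 :=
        mul_le_mul h3 h7 (by positivity) (by norm_num)
    _ = 20 := by norm_num

end Pool.Agent.Helper971.OS
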