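import Pool.Agent.Helper971.OS.Defs
import Pool.Agent.Helper971.OS.P_mm_rec

/-!
Volume of unit vector fields on odd spheres, Stage 2: the pointwise inequality for large `N`.
-/

open MeasureTheory ProbabilityTheory Matrix
open scoped RealInnerProductSpace ENNReal BigOperators

namespace Pool.Agent.Helper971.OS



theorem w667_zero : mm 0 = 1 := by
  unfold mm
  simp

theorem w667_low (m : ℕ) (hm : 1 ≤ m) :
    ENNReal.ofReal (2 ^ m * (m.factorial : ℝ) / (2 * m)) ≤ mm (2 * m) := by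
  induction m, hm using Nat.le_induction with
  | base =>
    have h := mm_rec 0
    rw [w667_zero] at h
    have e : (2 * 1 : ℕ) = 0 + 2 := by norm_num
    rw [e, h]
    norm_num
  | succ m hm ih =>
    have h := mm_rec (2 * m)
    have e : 2 * (m + 1) = 2 * m + 2 := by ring
    rw [e, h]
    have hmr : (1 : ℝ) ≤ m := by exact_mod_cast hm
    have hc : (((2 * m : ℕ) : ENNReal) + 1) = ENNReal.ofReal (((2 * m : ℕ) : ℝ) + 1) := by
      rw [ENNReal.ofReal_add (by positivity) zero_le_one, ENNReal.ofReal_natCast, ENNReal.ofReal_one]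
    rw [hc]
    refine le_trans ?_ (mul_le_mul_right ih (ENNReal.ofReal (((2 * m : ℕ) : ℝ) + 1)))
    rw [← ENNReal.ofReal_mul (by positivity)]
    apply ENNReal.ofReal_le_ofReal
    have hf : (0 : ℝ) < (m.factorial : ℝ) := by positivity
    have e1 : (2 : ℝ) ^ (m + 1) * ((m + 1).factorial : ℝ) / (2 * ((m + 1 : ℕ) : ℝ)) =
        2 ^ m * (m.factorial : ℝ) := by
      rw [Nat.factorial_succ]
      push_cast
      have : (m : ℝ) + 1 ≠ 0 := by positivity
      field_simp
      ring
    rw [e1]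
    have e2 : (((2 * m : ℕ) : ℝ) + 1) * (2 ^ m * (m.factorial : ℝ) / (2 * m)) =
        2 ^ m * (m.factorial : ℝ) + 2 ^ m * (m.factorial : ℝ) / (2 * m) := by
      push_cast
      have : (m : ℝ) ≠ 0 := by positivity
      field_simp
    rw [e2]
    have : 0 ≤ 2 ^ m * (m.factorial : ℝ) / (2 * m) := by positivity
    linarith

theorem mm_lower (m : ℕ) (hm : 1 ≤ m) :
    ENNReal.ofReal (1 / (2 * m) * (2 * m) ^ m * Real.exp (-(m : ℝ))) ≤ mm (2 * m) := by
  refine le_trans (ENNReal.ofReal_le_ofReal ?_) (w667_low m hm)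
  have hmr : (1 : ℝ) ≤ m := by exact_mod_cast hm
  have h1 := Real.pow_div_factorial_le_exp (m : ℝ) (by positivity) m
  have hf : (0 : ℝ) < (m.factorial : ℝ) := by positivity
  rw [div_le_iff₀ hf] at h1
  have h2 : (m : ℝ) ^ m * Real.exp (-(m : ℝ)) ≤ (m.factorial : ℝ) := by
    calc (m : ℝ) ^ m * Real.exp (-(m : ℝ)) ≤ (Real.exp m * (m.factorial : ℝ)) * Real.exp (-(m : ℝ)) :=
          mul_le_mul_of_nonneg_right h1 (Real.exp_pos _).le
      _ = (m.factorial : ℝ) * (Real.exp m * Real.exp (-(m : ℝ))) := by ring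
      _ = (m.factorial : ℝ) := by rw [← Real.exp_add, add_neg_cancel, Real.exp_zero, mul_one]
  have e : 1 / (2 * (m : ℝ)) * (2 * m) ^ m * Real.exp (-(m : ℝ)) =
      2 ^ m * ((m : ℝ) ^ m * Real.exp (-(m : ℝ))) / (2 * m) := by
    rw [mul_pow]
    ring
  rw [e]
  gcongr

end Pool.Agent.Helper971.OS
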