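import Pool.Agent.Helper971.OS.Defs

/-!
Volume of unit vector fields on odd spheres, Stage 2: the pointwise inequality for large `N`.
-/

open MeasureTheory ProbabilityTheory Matrix
open scoped RealInnerProductSpace ENNReal BigOperators

namespace Pool.Agent.Helper971.OS



theorem num_final (m : ℕ) (hm : 150000 ≤ m) :
    2400 * ((2 * (m : ℝ)) * (1 - 1 / 6144)) ^ m ≤ 1 / (2 * m) * (2 * (m : ℝ)) ^ m := by
  have hm' : (150000 : ℝ) ≤ m := by exact_mod_cast hm
  have hmpos : (0 : ℝ) < m := by linarith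
  have hpow : (0 : ℝ) < (2 * (m : ℝ)) ^ m := by positivity
  have h1 : (1 - 1 / 6144 : ℝ) ^ m ≤ Real.exp (-(m / 6144)) := by
    have h2 : (1 - 1 / 6144 : ℝ) ≤ Real.exp (-(1 / 6144)) := by
      have := Real.add_one_le_exp (-(1 / 6144 : ℝ))
      linarith
    calc (1 - 1 / 6144 : ℝ) ^ m ≤ (Real.exp (-(1 / 6144))) ^ m :=
          pow_le_pow_left₀ (by norm_num) h2 m
      _ = Real.exp (-(m / 6144)) := by
          rw [← Real.exp_nat_mul]
          congr 1
          ring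
  have h24 : (26000000000 : ℝ) ≤ Real.exp 24 := by
    have h3 : Real.exp 24 = Real.exp 1 ^ 24 := by
      rw [← Real.exp_nat_mul]
      norm_num
    rw [h3]
    have h4 : (2.718 : ℝ) ≤ Real.exp 1 := by
      have := Real.exp_one_gt_d9
      linarith
    calc (26000000000 : ℝ) ≤ (2.718 : ℝ) ^ 24 := by norm_num
      _ ≤ Real.exp 1 ^ 24 := pow_le_pow_left₀ (by norm_num) h4 24
  have h5 : 4800 * (m : ℝ) ≤ Real.exp (m / 6144) := by
    have h6 : Real.exp ((m : ℝ) / 6144) = Real.exp 24 * Real.exp ((m : ℝ) / 6144 - 24) := by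
      rw [← Real.exp_add]
      congr 1
      ring
    have h7 := Real.add_one_le_exp ((m : ℝ) / 6144 - 24)
    rw [h6]
    have h8 : (0 : ℝ) ≤ (m : ℝ) / 6144 - 24 + 1 := by linarith
    calc 4800 * (m : ℝ) ≤ 26000000000 * ((m : ℝ) / 6144 - 24 + 1) := by linarith
      _ ≤ Real.exp 24 * Real.exp ((m : ℝ) / 6144 - 24) :=
          mul_le_mul h24 h7 h8 (Real.exp_pos _).le
  have h9 : 4800 * (m : ℝ) * (1 - 1 / 6144) ^ m ≤ 1 := by
    calc 4800 * (m : ℝ) * (1 - 1 / 6144) ^ m ≤ Real.exp (m / 6144) * Real.exp (-(m / 6144)) :=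
          mul_le_mul h5 h1 (by positivity) (Real.exp_pos _).le
      _ = 1 := by rw [← Real.exp_add]; simp
  rw [mul_pow]
  have h10 : 2400 * (1 - 1 / 6144 : ℝ) ^ m ≤ 1 / (2 * m) := by
    rw [le_div_iff₀ (by positivity)]
    linarith
  calc 2400 * ((2 * (m : ℝ)) ^ m * (1 - 1 / 6144) ^ m)
      = (2400 * (1 - 1 / 6144 : ℝ) ^ m) * (2 * (m : ℝ)) ^ m := by ring
    _ ≤ 1 / (2 * m) * (2 * (m : ℝ)) ^ m := mul_le_mul_of_nonneg_right h10 hpow.le

end Pool.Agent.Helper971.OS
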