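import Pool.Agent.Helper971.OS.Defs
import Pool.Agent.Helper971.OS.P_trace_GM

/-!
Volume of unit vector fields on odd spheres, Stage 2: the pointwise inequality for large `N`.
-/

open MeasureTheory ProbabilityTheory Matrix
open scoped RealInnerProductSpace ENNReal BigOperators

namespace Pool.Agent.Helper971.OS



theorem tr_upper {E : Type*} [NormedAddCommGroup E] [InnerProductSpace ℝ E] {N : ℕ}
    {c s : Fin N → ℝ} {q g : Fin N → E} {x e : E} (h : NF N c s q g x e) (t : ℝ) (w : E) :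
    (GM c s q g x t w).trace ≤
      ((N : ℝ) - dl s + 1) * t ^ 2 + dl s * ⟪w, x⟫ ^ 2 + 3 * ‖w‖ ^ 2 := by
  rw [trace_GM h t w]
  have hs : ∀ j, s j ^ 2 ≤ 1 := fun j => by nlinarith [h.cs j, sq_nonneg (c j)]
  have hc : ∀ j, c j ^ 2 ≤ 1 := fun j => by nlinarith [h.cs j, sq_nonneg (s j)]
  have hg : ∑ j, ⟪w, g j⟫ ^ 2 ≤ ‖w‖ ^ 2 := by
    have := h.g_full w
    nlinarith [sq_nonneg ⟪w, x⟫]
  have hq : ∑ j, ⟪w, q j⟫ ^ 2 ≤ ‖w‖ ^ 2 := by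
    have := h.q_full w
    nlinarith [sq_nonneg ⟪w, e⟫]
  have hqx : ∑ j, ⟪q j, x⟫ ^ 2 ≤ 1 := by
    have h1 := h.q_full x
    rw [h.hx] at h1
    have h2 : ∑ j, ⟪q j, x⟫ ^ 2 = ∑ j, ⟪x, q j⟫ ^ 2 :=
      Finset.sum_congr rfl fun j _ => by rw [real_inner_comm]
    rw [h2]
    nlinarith [sq_nonneg ⟪x, e⟫]
  have hB : BB s g x w ≤ dl s * ⟪w, x⟫ ^ 2 + ‖w‖ ^ 2 := by
    have h1 : BB s g x w = dl s * ⟪w, x⟫ ^ 2 + ∑ j, s j ^ 2 * ⟪w, g j⟫ ^ 2 := by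
      rw [BB, dl, Finset.sum_mul, ← Finset.sum_add_distrib]
      exact Finset.sum_congr rfl fun j _ => by ring
    have h2 : ∑ j, s j ^ 2 * ⟪w, g j⟫ ^ 2 ≤ ∑ j, ⟪w, g j⟫ ^ 2 :=
      Finset.sum_le_sum fun j _ => by nlinarith [hs j, sq_nonneg ⟪w, g j⟫]
    linarith
  have hL : L2 c q w ≤ ‖w‖ ^ 2 := by
    have h2 : L2 c q w ≤ ∑ j, ⟪w, q j⟫ ^ 2 := by
      rw [L2]
      refine Finset.sum_le_sum fun j _ => ?_
      rw [lv, mul_pow]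
      nlinarith [hc j, sq_nonneg ⟪w, q j⟫]
    linarith
  have hh2 : hh c s q g x w ^ 2 ≤ ‖w‖ ^ 2 := by
    have h1 : hh c s q g x w = ∑ j, (c j * s j * ⟪w, g j⟫) * ⟪q j, x⟫ := rfl
    rw [h1]
    refine (Finset.sum_mul_sq_le_sq_mul_sq _ _ _).trans ?_
    have h3 : ∑ j, (c j * s j * ⟪w, g j⟫) ^ 2 ≤ ∑ j, ⟪w, g j⟫ ^ 2 := by
      refine Finset.sum_le_sum fun j _ => ?_
      have h4 : (c j * s j) ^ 2 ≤ 1 := by
        rw [mul_pow]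
        have := mul_le_mul (hc j) (hs j) (sq_nonneg _) (by norm_num)
        linarith
      rw [mul_pow]
      nlinarith [sq_nonneg ⟪w, g j⟫]
    have h5 : 0 ≤ ∑ j, ⟪q j, x⟫ ^ 2 := Finset.sum_nonneg fun j _ => sq_nonneg _
    have h6 : 0 ≤ ∑ j, (c j * s j * ⟪w, g j⟫) ^ 2 := Finset.sum_nonneg fun j _ => sq_nonneg _
    nlinarith [mul_le_mul (h3.trans hg) hqx h5 (sq_nonneg ‖w‖)]
  nlinarith [sq_nonneg (t + hh c s q g x w)]

end Pool.Agent.Helper971.OS
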