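import Pool.Agent.Helper971.OS.Defs
import Pool.Agent.Helper971.OS.P_mm_fin
import Pool.Agent.Helper971.OS.P_Et_even
import Pool.Agent.Helper971.OS.P_Et_odd
import Pool.Agent.Helper971.OS.P_Er_lower
import Pool.Agent.Helper971.OS.P_Eexp3
import Pool.Agent.Helper971.OS.P_Erexp3

/-!
Volume of unit vector fields on odd spheres, Stage 2: the pointwise inequality for large `N`.
-/

open MeasureTheory ProbabilityTheory Matrix
open scoped RealInnerProductSpace ENNReal BigOperators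

namespace Pool.Agent.Helper971.OS



theorem phi_int_r2_nonneg {E : Type*} [NormedAddCommGroup E] [InnerProductSpace ℝ E] {N : ℕ}
    (q : Fin N → E) (w : E) : 0 ≤ r2 q w := Finset.sum_nonneg fun _ _ => sq_nonneg _

theorem phi_int_up (m : ℕ) (hm : 1 ≤ m) (t r y : ℝ) (hr : 0 ≤ r) (hy : 0 ≤ y) :
    phi (2 * m) (t ^ 2 + r) (t ^ 2) y ≤
      (t ^ 2 + y) ^ m + Real.sqrt r * Real.sqrt (t ^ 2 + y) ^ (2 * (m - 1) + 1) := by
  unfold phi
  have h0 : 0 ≤ t ^ 2 + y := by positivity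
  have h1 : Real.sqrt (t ^ 2 + r + y) ≤ Real.sqrt (t ^ 2 + y) + Real.sqrt r := by
    apply Real.sqrt_le_iff.2
    refine ⟨by positivity, ?_⟩
    have e1 := Real.sq_sqrt h0
    have e2 := Real.sq_sqrt hr
    have e3 : 0 ≤ Real.sqrt (t ^ 2 + y) * Real.sqrt r := by positivity
    nlinarith
  have h2 : 2 * m - 1 = 2 * (m - 1) + 1 := by omega
  rw [h2]
  have h3 : (t ^ 2 + y) ^ m = Real.sqrt (t ^ 2 + y) * Real.sqrt (t ^ 2 + y) ^ (2 * (m - 1) + 1) := by
    rw [← pow_succ']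
    have : 2 * (m - 1) + 1 + 1 = 2 * m := by omega
    rw [this, pow_mul, Real.sq_sqrt h0]
  rw [h3, ← add_mul]
  exact mul_le_mul_of_nonneg_right h1 (by positivity)

theorem phi_int_lo1 (N : ℕ) (hN : 1 ≤ N) (t r : ℝ) (hr : 0 ≤ r) :
    |t| ^ N ≤ phi N (t ^ 2 + r) (t ^ 2) 0 := by
  unfold phi
  rw [add_zero, add_zero, Real.sqrt_sq_eq_abs]
  have h1 : |t| ≤ Real.sqrt (t ^ 2 + r) := by
    rw [← Real.sqrt_sq_eq_abs]
    exact Real.sqrt_le_sqrt (by linarith)
  have h2 : |t| ^ N = |t| * |t| ^ (N - 1) := by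
    rw [← pow_succ']
    congr 1
    omega
  rw [h2]
  exact mul_le_mul_of_nonneg_right h1 (by positivity)

theorem phi_int_lo2 (N : ℕ) (t r : ℝ) :
    Real.sqrt r * |t| ^ (N - 1) ≤ phi N (t ^ 2 + r) (t ^ 2) 0 := by
  unfold phi
  rw [add_zero, add_zero, Real.sqrt_sq_eq_abs]
  have h1 : Real.sqrt r ≤ Real.sqrt (t ^ 2 + r) := Real.sqrt_le_sqrt (by nlinarith [sq_nonneg t])
  exact mul_le_mul_of_nonneg_right h1 (by positivity)

theorem phi_int {E : Type*} [NormedAddCommGroup E] [InnerProductSpace ℝ E]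
    [FiniteDimensional ℝ E] [MeasurableSpace E] [BorelSpace E] {N : ℕ} (hN : 4 ≤ N) (hE : Even N)
    (q : Fin N → E) (hq : Orthonormal ℝ q) (a b c : E)
    (ha : ‖a‖ = 1) (hb : ‖b‖ = 1) (hc : ‖c‖ = 1) :
    ∫⁻ w, ∫⁻ t, ENNReal.ofReal (phi N (t ^ 2 + r2 q w) (t ^ 2)
        (1 / 24 * (⟪w, a⟫ ^ 2 + ⟪w, b⟫ ^ 2 + ⟪w, c⟫ ^ 2))) ∂(gaussianReal 0 1) ∂(stdGaussian E) ≤
      5 * ∫⁻ w, ∫⁻ t, ENNReal.ofReal (phi N (t ^ 2 + r2 q w) (t ^ 2) 0)
        ∂(gaussianReal 0 1) ∂(stdGaussian E) := by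
  obtain ⟨m, hm⟩ := hE
  have hNm : N = 2 * m := by omega
  set J : ℝ≥0∞ := ∫⁻ w, ∫⁻ t, ENNReal.ofReal (phi N (t ^ 2 + r2 q w) (t ^ 2) 0)
        ∂(gaussianReal 0 1) ∂(stdGaussian E) with hJ
  have hJ1 : mm (2 * m) ≤ J := by
    have h1 : mm (2 * m) = ∫⁻ _w : E, mm (2 * m) ∂(stdGaussian E) := by
      rw [lintegral_const, measure_univ, mul_one]
    rw [h1, hJ]
    apply lintegral_mono
    intro w
    unfold mm
    apply lintegral_mono
    intro t
    apply ENNReal.ofReal_le_ofReal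
    rw [← hNm]
    exact phi_int_lo1 N (by omega) t _ (phi_int_r2_nonneg q w)
  have hJ2 : ENNReal.ofReal (Real.sqrt N / 2) * mm (2 * (m - 1) + 1) ≤ J := by
    calc ENNReal.ofReal (Real.sqrt N / 2) * mm (2 * (m - 1) + 1)
        ≤ (∫⁻ w, ENNReal.ofReal (Real.sqrt (r2 q w)) ∂(stdGaussian E)) * mm (2 * (m - 1) + 1) := by
          gcongr
          exact Er_lower q hq
      _ = ∫⁻ w, ENNReal.ofReal (Real.sqrt (r2 q w)) * mm (2 * (m - 1) + 1) ∂(stdGaussian E) := by
          rw [lintegral_mul_const' _ _ (mm_fin _).1]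
      _ ≤ J := by
          rw [hJ]
          apply lintegral_mono
          intro w
          change ENNReal.ofReal (Real.sqrt (r2 q w)) * mm (2 * (m - 1) + 1) ≤ _
          unfold mm
          rw [← lintegral_const_mul' _ _ ENNReal.ofReal_ne_top]
          apply lintegral_mono
          intro t
          change _ * _ ≤ _
          rw [← ENNReal.ofReal_mul (Real.sqrt_nonneg _)]
          apply ENNReal.ofReal_le_ofReal
          have h2 : 2 * (m - 1) + 1 = N - 1 := by omega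
          rw [h2]
          exact phi_int_lo2 N t _
  set y : E → ℝ := fun w => 1 / 24 * (⟪w, a⟫ ^ 2 + ⟪w, b⟫ ^ 2 + ⟪w, c⟫ ^ 2) with hy
  have hy0 : ∀ w, 0 ≤ y w := fun w => by simp only [hy]; positivity
  have hinner : ∀ w, ∫⁻ t, ENNReal.ofReal (phi N (t ^ 2 + r2 q w) (t ^ 2) (y w))
      ∂(gaussianReal 0 1) ≤ ENNReal.ofReal (Real.exp (y w)) * mm (2 * m) +
        ENNReal.ofReal (Real.sqrt (r2 q w) * Real.exp (y w)) *
          (ENNReal.ofReal (Real.sqrt 2) * mm (2 * (m - 1) + 1)) := by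
    intro w
    have hr0 := phi_int_r2_nonneg q w
    calc ∫⁻ t, ENNReal.ofReal (phi N (t ^ 2 + r2 q w) (t ^ 2) (y w)) ∂(gaussianReal 0 1)
        ≤ ∫⁻ t, (ENNReal.ofReal ((t ^ 2 + y w) ^ m) + ENNReal.ofReal (Real.sqrt (r2 q w)) *
            ENNReal.ofReal (Real.sqrt (t ^ 2 + y w) ^ (2 * (m - 1) + 1))) ∂(gaussianReal 0 1) := by
          apply lintegral_mono
          intro t
          change _ ≤ _ + _
          rw [← ENNReal.ofReal_mul (Real.sqrt_nonneg _), ← ENNReal.ofReal_add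
            (pow_nonneg (add_nonneg (sq_nonneg _) (hy0 w)) _) (by positivity)]
          apply ENNReal.ofReal_le_ofReal
          have hup := phi_int_up m (by omega) t _ _ hr0 (hy0 w)
          rw [← hNm] at hup
          exact hup
      _ = ∫⁻ t, ENNReal.ofReal ((t ^ 2 + y w) ^ m) ∂(gaussianReal 0 1) +
          ENNReal.ofReal (Real.sqrt (r2 q w)) *
            ∫⁻ t, ENNReal.ofReal (Real.sqrt (t ^ 2 + y w) ^ (2 * (m - 1) + 1))
              ∂(gaussianReal 0 1) := by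
          rw [lintegral_add_left (by fun_prop), lintegral_const_mul' _ _ ENNReal.ofReal_ne_top]
      _ ≤ ENNReal.ofReal (Real.exp (y w)) * mm (2 * m) +
          ENNReal.ofReal (Real.sqrt (r2 q w)) *
            (ENNReal.ofReal (Real.sqrt 2 * Real.exp (y w)) * mm (2 * (m - 1) + 1)) := by
          gcongr
          · exact Et_even m (y w) (hy0 w)
          · exact Et_odd (m - 1) (y w) (hy0 w)
      _ = _ := by
          rw [ENNReal.ofReal_mul (Real.sqrt_nonneg 2), ENNReal.ofReal_mul (Real.sqrt_nonneg (r2 q w))]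
          ring
  have hmeas : Measurable fun w : E => ENNReal.ofReal (Real.exp (y w)) * mm (2 * m) := by
    simp only [hy]
    fun_prop
  calc ∫⁻ w, ∫⁻ t, ENNReal.ofReal (phi N (t ^ 2 + r2 q w) (t ^ 2) (y w))
          ∂(gaussianReal 0 1) ∂(stdGaussian E)
      ≤ ∫⁻ w, (ENNReal.ofReal (Real.exp (y w)) * mm (2 * m) +
        ENNReal.ofReal (Real.sqrt (r2 q w) * Real.exp (y w)) *
          (ENNReal.ofReal (Real.sqrt 2) * mm (2 * (m - 1) + 1))) ∂(stdGaussian E) :=
        lintegral_mono hinner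
    _ = (∫⁻ w, ENNReal.ofReal (Real.exp (y w)) ∂(stdGaussian E)) * mm (2 * m) +
        (∫⁻ w, ENNReal.ofReal (Real.sqrt (r2 q w) * Real.exp (y w)) ∂(stdGaussian E)) *
          (ENNReal.ofReal (Real.sqrt 2) * mm (2 * (m - 1) + 1)) := by
        rw [lintegral_add_left hmeas, lintegral_mul_const' _ _ (mm_fin _).1,
          lintegral_mul_const' _ _ (ENNReal.mul_ne_top ENNReal.ofReal_ne_top (mm_fin _).1)]
    _ ≤ ENNReal.ofReal (6 / 5) * mm (2 * m) + ENNReal.ofReal (6 / 5 * Real.sqrt N) *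
          (ENNReal.ofReal (Real.sqrt 2) * mm (2 * (m - 1) + 1)) := by
        gcongr
        · exact Eexp3 a b c ha hb hc
        · exact Erexp3 q hq a b c ha hb hc
    _ = ENNReal.ofReal (6 / 5) * mm (2 * m) + ENNReal.ofReal (12 / 5 * Real.sqrt 2) *
          (ENNReal.ofReal (Real.sqrt N / 2) * mm (2 * (m - 1) + 1)) := by
        congr 1
        rw [← mul_assoc, ← mul_assoc, ← ENNReal.ofReal_mul (by positivity),
          ← ENNReal.ofReal_mul (by positivity)]
        congr 2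
        ring
    _ ≤ ENNReal.ofReal (6 / 5) * J + ENNReal.ofReal (12 / 5 * Real.sqrt 2) * J := by
        gcongr
    _ = ENNReal.ofReal (6 / 5 + 12 / 5 * Real.sqrt 2) * J := by
        rw [← add_mul, ← ENNReal.ofReal_add (by norm_num) (by positivity)]
    _ ≤ ENNReal.ofReal 5 * J := by
        gcongr
        have h2 : Real.sqrt 2 ≤ 3 / 2 := by
          rw [Real.sqrt_le_left (by norm_num)]
          norm_num
        linarith
    _ = 5 * J := by
        congr 1
        norm_num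

end Pool.Agent.Helper971.OS
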