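import Pool.Agent.Helper971.OS.Defs

/-!
Volume of unit vector fields on odd spheres, Stage 2: the pointwise inequality for large `N`.
-/

open MeasureTheory ProbabilityTheory Matrix
open scoped RealInnerProductSpace ENNReal BigOperators

namespace Pool.Agent.Helper971.OS



theorem phi_hasDeriv (n : ℕ) (hn : 1 ≤ n) (A B y : ℝ) (ha : 0 < A + y) (hb : 0 < B + y) :
    HasDerivAt (fun y => Real.sqrt (A + y) * Real.sqrt (B + y) ^ n)
      (Real.sqrt (A + y) * Real.sqrt (B + y) ^ n *
        (1 / (2 * (A + y)) + n / (2 * (B + y)))) y := by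
  have h1 : HasDerivAt (fun y => Real.sqrt (A + y)) (1 / (2 * Real.sqrt (A + y))) y := by
    have := (((hasDerivAt_id y).const_add A).sqrt (by simpa using ha.ne'))
    simpa using this
  have h2 : HasDerivAt (fun y => Real.sqrt (B + y)) (1 / (2 * Real.sqrt (B + y))) y := by
    have := (((hasDerivAt_id y).const_add B).sqrt (by simpa using hb.ne'))
    simpa using this
  have h3 := h1.mul (h2.pow n)
  have sa : 0 < Real.sqrt (A + y) := Real.sqrt_pos.2 ha
  have sb : 0 < Real.sqrt (B + y) := Real.sqrt_pos.2 hb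
  have qa : A + y = Real.sqrt (A + y) ^ 2 := (Real.sq_sqrt ha.le).symm
  have qb : B + y = Real.sqrt (B + y) ^ 2 := (Real.sq_sqrt hb.le).symm
  obtain ⟨m, rfl⟩ : ∃ m, n = m + 1 := ⟨n - 1, by omega⟩
  refine h3.congr_deriv ?_
  have e : Real.sqrt (A + y) * Real.sqrt (B + y) ^ (m + 1) *
        (1 / (2 * (A + y)) + ((m + 1 : ℕ) : ℝ) / (2 * (B + y))) =
      Real.sqrt (A + y) * Real.sqrt (B + y) ^ (m + 1) *
        (1 / (2 * Real.sqrt (A + y) ^ 2) + ((m + 1 : ℕ) : ℝ) / (2 * Real.sqrt (B + y) ^ 2)) := by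
    rw [← qa, ← qb]
  rw [e]
  simp only [Nat.add_sub_cancel, Pi.pow_apply]
  field_simp
  ring

theorem phi_convex (N : ℕ) (hN : 4 ≤ N) (hE : Even N) (A B : ℝ) (hB : 0 ≤ B) (hAB : B ≤ A) :
    ConvexOn ℝ (Set.Ici 0) (phi N A B) := by
  obtain ⟨n, rfl⟩ : ∃ n, N = n + 1 := ⟨N - 1, by omega⟩
  have hn : 3 ≤ n := by omega
  have hnr : (3 : ℝ) ≤ n := by exact_mod_cast hn
  have hphi : phi (n + 1) A B = fun y => Real.sqrt (A + y) * Real.sqrt (B + y) ^ n := by
    funext y; simp only [phi, Nat.add_sub_cancel]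
  rw [hphi]
  refine convexOn_of_hasDerivWithinAt2_nonneg (convex_Ici 0)
    (f' := fun y => Real.sqrt (A + y) * Real.sqrt (B + y) ^ n *
        (1 / (2 * (A + y)) + n / (2 * (B + y))))
    (f'' := fun y => Real.sqrt (A + y) * Real.sqrt (B + y) ^ n *
        ((1 / (2 * (A + y)) + n / (2 * (B + y))) ^ 2 - 1 / (2 * (A + y) ^ 2)
          - n / (2 * (B + y) ^ 2))) ?_ ?_ ?_ ?_
  · apply Continuous.continuousOn
    fun_prop
  · intro y hy
    rw [interior_Ici, Set.mem_Ioi] at hy
    exact (phi_hasDeriv n (by omega) A B y (by linarith) (by linarith)).hasDerivWithinAt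
  · intro y hy
    rw [interior_Ici, Set.mem_Ioi] at hy
    have ha : 0 < A + y := by linarith
    have hb : 0 < B + y := by linarith
    have h1 := phi_hasDeriv n (by omega) A B y ha hb
    have ga : HasDerivAt (fun y => 1 / (2 * (A + y))) (-(1 / (2 * (A + y) ^ 2))) y := by
      have := (((hasDerivAt_id y).const_add A).const_mul 2).inv (by simpa using ha.ne')
      simp only [id] at this
      have h' := this
      refine (h'.congr_deriv ?_).congr_of_eventuallyEq (Filter.Eventually.of_forall fun z => ?_)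
      · field_simp
      · simp [one_div]
    have gb : HasDerivAt (fun y => (n : ℝ) / (2 * (B + y))) (-((n : ℝ) / (2 * (B + y) ^ 2))) y := by
      have := ((((hasDerivAt_id y).const_add B).const_mul 2).inv (by simpa using hb.ne')).const_mul (n : ℝ)
      simp only [id] at this
      refine (this.congr_deriv ?_).congr_of_eventuallyEq (Filter.Eventually.of_forall fun z => ?_)
      · field_simp
      · simp [div_eq_mul_inv]
    have h2 := h1.mul (ga.add gb)
    refine (h2.congr_deriv ?_).hasDerivWithinAt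
    simp only [Pi.add_apply]
    ring
  · intro y hy
    rw [interior_Ici, Set.mem_Ioi] at hy
    have ha : 0 < A + y := by linarith
    have hb : 0 < B + y := by linarith
    apply mul_nonneg (by positivity)
    have hab : B + y ≤ A + y := by linarith
    have e : (1 / (2 * (A + y)) + n / (2 * (B + y))) ^ 2 - 1 / (2 * (A + y) ^ 2)
          - n / (2 * (B + y) ^ 2) = ((n : ℝ) ^ 2 - 2 * n) / (4 * (B + y) ^ 2)
          - 1 / (4 * (A + y) ^ 2) + n / (2 * (A + y) * (B + y)) := by
      field_simp
      ring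
    rw [e]
    have k1 : 1 / (4 * (A + y) ^ 2) ≤ ((n : ℝ) ^ 2 - 2 * n) / (4 * (B + y) ^ 2) := by
      apply div_le_div₀
      · nlinarith
      · nlinarith
      · positivity
      · nlinarith
    have k2 : 0 ≤ (n : ℝ) / (2 * (A + y) * (B + y)) := by positivity
    linarith

end Pool.Agent.Helper971.OS
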