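import Pool.Agent.Helper971.OS.Defs
import Pool.Agent.Helper971.OS.P_phi_convex

/-!
Volume of unit vector fields on odd spheres, Stage 2: the pointwise inequality for large `N`.
-/

open MeasureTheory ProbabilityTheory Matrix
open scoped RealInnerProductSpace ENNReal BigOperators

namespace Pool.Agent.Helper971.OS



theorem phi_mono_aux (N : ℕ) (A B y z : ℝ) (hyz : y ≤ z) : phi N A B y ≤ phi N A B z := by
  unfold phi
  apply mul_le_mul
  · exact Real.sqrt_le_sqrt (by linarith)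
  · exact pow_le_pow_left₀ (Real.sqrt_nonneg _) (Real.sqrt_le_sqrt (by linarith)) _
  · exact pow_nonneg (Real.sqrt_nonneg _) _
  · exact Real.sqrt_nonneg _

theorem phi_jensen {E : Type*} [NormedAddCommGroup E] [InnerProductSpace ℝ E] {N : ℕ} (hN : 4 ≤ N)
    (hE : Even N) (s : Fin N → ℝ) (g : Fin N → E) (x e : E) (w : E) (A B : ℝ) (hB : 0 ≤ B) (hAB : B ≤ A)
    (hd : dl s ≤ (N : ℝ) / 3072) :
    phi N A B (64 * SS s g x e w / ((N : ℝ) - 1)) ≤
      phi N A B 0 + ∑ j, (s j ^ 2 * 3072 / N) *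
        phi N A B (1 / 24 * (⟪w, x⟫ ^ 2 + ⟪w, g j⟫ ^ 2 + ⟪w, e⟫ ^ 2)) := by
  have hN4 : (4 : ℝ) ≤ N := by exact_mod_cast hN
  have hN0 : (0 : ℝ) < N := by linarith
  have hN1 : (0 : ℝ) < (N : ℝ) - 1 := by linarith
  have hY : ∀ j, 0 ≤ ⟪w, x⟫ ^ 2 + ⟪w, g j⟫ ^ 2 + ⟪w, e⟫ ^ 2 := fun j => by positivity
  have hth : ∀ j, 0 ≤ s j ^ 2 * 3072 / N := fun j => by positivity
  have hsum : ∑ j, s j ^ 2 * 3072 / (N : ℝ) ≤ 1 := by
    have : ∑ j, s j ^ 2 * 3072 / (N : ℝ) = dl s * 3072 / N := by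
      unfold dl
      rw [Finset.sum_mul, Finset.sum_div]
    rw [this, div_le_one hN0]
    rw [le_div_iff₀ (by norm_num)] at hd
    exact hd
  have hphi0 : 0 ≤ phi N A B 0 := by
    unfold phi
    exact mul_nonneg (Real.sqrt_nonneg _) (pow_nonneg (Real.sqrt_nonneg _) _)
  have hc := phi_convex N hN hE A B hB hAB
  have hJ := hc.map_sum_le (t := (Finset.univ : Finset (Option (Fin N))))
    (w := fun o => o.elim (1 - ∑ j, s j ^ 2 * 3072 / (N : ℝ)) (fun j => s j ^ 2 * 3072 / (N : ℝ)))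
    (p := fun o => o.elim 0
      (fun j => ((N : ℝ) / 3072) * (64 * (⟪w, x⟫ ^ 2 + ⟪w, g j⟫ ^ 2 + ⟪w, e⟫ ^ 2) / ((N : ℝ) - 1))))
    (by
      intro o _
      cases o with
      | none => simp only [Option.elim_none]; linarith
      | some j => simp only [Option.elim_some]; exact hth j)
    (by
      rw [Fintype.sum_option]
      simp only [Option.elim_none, Option.elim_some]
      ring)
    (by
      intro o _
      cases o with
      | none => simp
      | some j =>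
        simp only [Option.elim_some, Set.mem_Ici]
        have := hY j
        positivity)
  rw [Fintype.sum_option, Fintype.sum_option] at hJ
  simp only [Option.elim_none, Option.elim_some, smul_eq_mul, mul_zero, zero_add] at hJ
  have e1 : ∑ j, s j ^ 2 * 3072 / (N : ℝ) *
      ((N : ℝ) / 3072 * (64 * (⟪w, x⟫ ^ 2 + ⟪w, g j⟫ ^ 2 + ⟪w, e⟫ ^ 2) / ((N : ℝ) - 1))) =
      64 * SS s g x e w / ((N : ℝ) - 1) := by
    unfold SS
    rw [Finset.mul_sum, Finset.sum_div]
    apply Finset.sum_congr rfl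
    intro j _
    field_simp
  rw [e1] at hJ
  refine hJ.trans ?_
  apply add_le_add
  · have : 0 ≤ ∑ j, s j ^ 2 * 3072 / (N : ℝ) := Finset.sum_nonneg (fun j _ => hth j)
    nlinarith
  · apply Finset.sum_le_sum
    intro j _
    apply mul_le_mul_of_nonneg_left _ (hth j)
    apply phi_mono_aux
    have h2 : (N : ℝ) / 3072 * (64 * (⟪w, x⟫ ^ 2 + ⟪w, g j⟫ ^ 2 + ⟪w, e⟫ ^ 2) / ((N : ℝ) - 1)) =
        ((N : ℝ) / (48 * ((N : ℝ) - 1))) * (⟪w, x⟫ ^ 2 + ⟪w, g j⟫ ^ 2 + ⟪w, e⟫ ^ 2) := by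
      field_simp
      ring
    rw [h2]
    apply mul_le_mul_of_nonneg_right _ (hY j)
    rw [div_le_div_iff₀ (by positivity) (by norm_num)]
    linarith

end Pool.Agent.Helper971.OS
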