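import Pool.Agent.Helper971.OS.Defs
import Pool.Agent.Helper971.OS.P_small_delta
import Pool.Agent.Helper971.OS.P_large_delta

/-!
Volume of unit vector fields on odd spheres, Stage 2: the pointwise inequality for large `N`.
-/

open MeasureTheory ProbabilityTheory Matrix
open scoped RealInnerProductSpace ENNReal BigOperators

namespace Pool.Agent.Helper971.OS



theorem core {E : Type*} [NormedAddCommGroup E] [InnerProductSpace ℝ E]
    [FiniteDimensional ℝ E] [MeasurableSpace E] [BorelSpace E] {m : ℕ} (hm : 150000 ≤ m)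
    (hE : Module.finrank ℝ E = 2 * m + 1)
    {c s : Fin (2 * m) → ℝ} {q g : Fin (2 * m) → E} {x e : E} (h : NF (2 * m) c s q g x e)
    (hd : dl s ≤ ((2 * m : ℕ) : ℝ) / 2) :
    ∫⁻ w, ∫⁻ t, ENNReal.ofReal (FF c s q g x t w) ∂(gaussianReal 0 1) ∂(stdGaussian E) ≤
      ∫⁻ w, ∫⁻ t, ENNReal.ofReal (phi (2 * m) (t ^ 2 + r2 q w) (t ^ 2) 0)
        ∂(gaussianReal 0 1) ∂(stdGaussian E) := by
  rcases le_total (dl s) (((2 * m : ℕ) : ℝ) / 3072) with h1 | h1
  · exact small_delta (by omega) (even_two_mul m) h h1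
  · exact large_delta hm hE h h1 hd

end Pool.Agent.Helper971.OS
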