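import Pool.Agent.Helper971.OS.Defs

/-!
Volume of unit vector fields on odd spheres, Stage 2: the pointwise inequality for large `N`.
-/

open MeasureTheory ProbabilityTheory Matrix
open scoped RealInnerProductSpace ENNReal BigOperators

namespace Pool.Agent.Helper971.OS



theorem gauss_split_map {W : Type*} [NormedAddCommGroup W] [InnerProductSpace ℝ W]
    [FiniteDimensional ℝ W] [MeasurableSpace W] [BorelSpace W] (v : W) (hv : ‖v‖ = 1) :
    ((stdGaussian (ℝ ∙ v)ᗮ).prod (gaussianReal 0 1)).map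
      (fun p : (ℝ ∙ v)ᗮ × ℝ => p.2 • v + (p.1 : W)) = stdGaussian W := by
  have hm : Measurable (fun p : (ℝ ∙ v)ᗮ × ℝ => p.2 • v + (p.1 : W)) := by
    have h1 : Continuous (fun p : (ℝ ∙ v)ᗮ × ℝ => p.2 • v + (p.1 : W)) := by fun_prop
    exact h1.measurable
  haveI : IsProbabilityMeasure (((stdGaussian (ℝ ∙ v)ᗮ).prod (gaussianReal 0 1)).map
      (fun p : (ℝ ∙ v)ᗮ × ℝ => p.2 • v + (p.1 : W))) :=
    Measure.isProbabilityMeasure_map hm.aemeasurable
  apply Measure.ext_of_charFun (E := W)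
  ext y
  have hy' : y - ⟪v, y⟫ • v ∈ (ℝ ∙ v)ᗮ := by
    rw [Submodule.mem_orthogonal_singleton_iff_inner_right, inner_sub_right,
      inner_smul_right, real_inner_self_eq_norm_sq, hv]
    ring
  set y' : (ℝ ∙ v)ᗮ := ⟨y - ⟪v, y⟫ • v, hy'⟩ with hy'def
  have hin : ∀ w : (ℝ ∙ v)ᗮ, ⟪(w : W), y⟫ = ⟪w, y'⟫ := by
    intro w
    have h1 : ⟪(w : W), v⟫ = 0 := by
      have := (Submodule.mem_orthogonal_singleton_iff_inner_right).1 w.2
      rw [real_inner_comm]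
      exact this
    rw [Submodule.coe_inner, hy'def, inner_sub_right, inner_smul_right, h1, mul_zero, sub_zero]
  have hnorm : ‖y‖ ^ 2 = ⟪v, y⟫ ^ 2 + ‖y'‖ ^ 2 := by
    have h1 : ‖y'‖ ^ 2 = ‖y - ⟪v, y⟫ • v‖ ^ 2 := rfl
    rw [h1, norm_sub_sq_real, norm_smul, hv, inner_smul_right, real_inner_comm v y,
      Real.norm_eq_abs, mul_one, sq_abs]
    ring
  rw [charFun_apply, integral_map hm.aemeasurable (by
    apply Continuous.aestronglyMeasurable
    fun_prop), charFun_stdGaussian]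
  have h2 : ∀ p : (ℝ ∙ v)ᗮ × ℝ, Complex.exp (⟪p.2 • v + (p.1 : W), y⟫ * Complex.I) =
      Complex.exp (⟪p.1, y'⟫ * Complex.I) * Complex.exp (⟪p.2, ⟪v, y⟫⟫ * Complex.I) := by
    intro p
    rw [← Complex.exp_add, inner_add_left, inner_smul_left, hin]
    congr 1
    simp only [conj_trivial, RCLike.inner_apply]
    push_cast
    ring
  simp only [h2]
  rw [integral_prod_mul (μ := stdGaussian (ℝ ∙ v)ᗮ) (ν := gaussianReal 0 1)
    (fun w => Complex.exp (⟪w, y'⟫ * Complex.I)) (fun t => Complex.exp (⟪t, ⟪v, y⟫⟫ * Complex.I)),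
    ← charFun_apply, ← charFun_apply, charFun_stdGaussian, charFun_gaussianReal, ← Complex.exp_add]
  congr 1
  have h3 : ((‖y‖ : ℂ)) ^ 2 = ((⟪v, y⟫ : ℝ) : ℂ) ^ 2 + ((‖y'‖ : ℝ) : ℂ) ^ 2 := by
    exact_mod_cast hnorm
  rw [h3]
  push_cast
  ring

theorem gauss_split {W : Type*} [NormedAddCommGroup W] [InnerProductSpace ℝ W]
    [FiniteDimensional ℝ W] [MeasurableSpace W] [BorelSpace W] (v : W) (hv : ‖v‖ = 1)
    (G : W → ℝ≥0∞) (hG : Measurable G) :
    ∫⁻ f, G f ∂(stdGaussian W) =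
      ∫⁻ w : (ℝ ∙ v)ᗮ, ∫⁻ t : ℝ, G (t • v + (w : W)) ∂(gaussianReal 0 1)
        ∂(stdGaussian (ℝ ∙ v)ᗮ) := by
  have hm : Measurable (fun p : (ℝ ∙ v)ᗮ × ℝ => p.2 • v + (p.1 : W)) := by
    have h1 : Continuous (fun p : (ℝ ∙ v)ᗮ × ℝ => p.2 • v + (p.1 : W)) := by fun_prop
    exact h1.measurable
  rw [← gauss_split_map v hv, lintegral_map hG hm]
  exact lintegral_prod (fun p : (ℝ ∙ v)ᗮ × ℝ => G (p.2 • v + (p.1 : W)))
    (hG.comp hm).aemeasurable

end Pool.Agent.Helper971.OS
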