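import Pool.Agent.Helper971.OS.Defs

/-!
Volume of unit vector fields on odd spheres, Stage 2: the pointwise inequality for large `N`.
-/

open MeasureTheory ProbabilityTheory Matrix
open scoped RealInnerProductSpace ENNReal BigOperators

namespace Pool.Agent.Helper971.OS



/-- Parseval for a full orthonormal family given as two vectors and a family. -/
theorem nf_U_full {W : Type*} [NormedAddCommGroup W] [InnerProductSpace ℝ W]
    [FiniteDimensional ℝ W] {N : ℕ} (hW : Module.finrank ℝ W = N + 2) (v e : W) (q : Fin N → W)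
    (hv : ‖v‖ = 1) (he : ‖e‖ = 1) (hev : ⟪e, v⟫ = 0) (hq : Orthonormal ℝ q)
    (hqv : ∀ j, ⟪q j, v⟫ = 0) (hqe : ∀ j, ⟪q j, e⟫ = 0) (w : W) :
    ⟪w, v⟫ ^ 2 + (⟪w, e⟫ ^ 2 + ∑ j, ⟪w, q j⟫ ^ 2) = ‖w‖ ^ 2 := by
  classical
  let f : Option (Option (Fin N)) → W := fun o => o.elim v (fun o' => o'.elim e q)
  have hvv : ⟪v, v⟫ = 1 := by rw [real_inner_self_eq_norm_sq, hv]; norm_num
  have hee : ⟪e, e⟫ = 1 := by rw [real_inner_self_eq_norm_sq, he]; norm_num
  have hve : ⟪v, e⟫ = 0 := by rw [real_inner_comm]; exact hev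
  have hvq : ∀ j, ⟪v, q j⟫ = 0 := fun j => by rw [real_inner_comm]; exact hqv j
  have heq : ∀ j, ⟪e, q j⟫ = 0 := fun j => by rw [real_inner_comm]; exact hqe j
  have hf : Orthonormal ℝ f := by
    rw [orthonormal_iff_ite]
    intro i j
    match i, j with
    | none, none => simpa [f] using hvv
    | none, some none => simpa [f] using hve
    | none, some (some j) => simpa [f] using hvq j
    | some none, none => simpa [f] using hev
    | some none, some none => simpa [f] using hee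
    | some none, some (some j) => simpa [f] using heq j
    | some (some i), none => simpa [f] using hqv i
    | some (some i), some none => simpa [f] using hqe i
    | some (some i), some (some j) =>
      have := orthonormal_iff_ite.1 hq i j
      simpa [f] using this
  have hcard : Fintype.card (Option (Option (Fin N))) = Module.finrank ℝ W := by
    rw [hW]
    simp
  have htop : ⊤ ≤ Submodule.span ℝ (Set.range f) := by
    rw [hf.linearIndependent.span_eq_top_of_card_eq_finrank' hcard]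
  let B : OrthonormalBasis (Option (Option (Fin N))) ℝ W := OrthonormalBasis.mk hf htop
  have hB : ⇑B = f := OrthonormalBasis.coe_mk hf htop
  have h1 := B.sum_sq_norm_inner_left w
  rw [hB, Fintype.sum_option, Fintype.sum_option] at h1
  simp only [Real.norm_eq_abs, sq_abs] at h1
  exact h1

theorem nf_U {W : Type*} [NormedAddCommGroup W] [InnerProductSpace ℝ W] [FiniteDimensional ℝ W]
    {N : ℕ} (hW : Module.finrank ℝ W = N + 2) (v x : W) (c s : Fin N → ℝ) (q g : Fin N → W) (e : W)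
    (hv : ‖v‖ = 1) (hx : ‖x‖ = 1) (hvx : ⟪x, v⟫ = 0)
    (hcs : ∀ j, c j ^ 2 + s j ^ 2 = 1) (hq : Orthonormal ℝ q) (hg : Orthonormal ℝ g)
    (hqv : ∀ j, ⟪q j, v⟫ = 0) (hgv : ∀ j, ⟪g j, v⟫ = 0) (hgx : ∀ j, ⟪g j, x⟫ = 0)
    (he : ‖e‖ = 1) (hev : ⟪e, v⟫ = 0) (hqe : ∀ j, ⟪q j, e⟫ = 0)
    (hcr : ∑ j, c j * s j * ⟪q j, g j⟫ = 0) :
    ∃ (q' g' : Fin N → (ℝ ∙ v)ᗮ) (x' e' : (ℝ ∙ v)ᗮ),
      (∀ j, (q' j : W) = q j) ∧ (∀ j, (g' j : W) = g j) ∧ (x' : W) = x ∧ (e' : W) = e ∧
      NF N c s q' g' x' e' ∧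
      ∀ (t : ℝ) (w : (ℝ ∙ v)ᗮ),
        Real.sqrt (gram (iob v x c s q g (t • v + (w : W)))).det = FF c s q' g' x' t w := by
  have mem : ∀ u : W, ⟪u, v⟫ = 0 → u ∈ (ℝ ∙ v)ᗮ := by
    intro u hu
    rw [Submodule.mem_orthogonal_singleton_iff_inner_left]
    exact hu
  have wv : ∀ w : (ℝ ∙ v)ᗮ, ⟪(w : W), v⟫ = 0 := by
    intro w
    exact (Submodule.mem_orthogonal_singleton_iff_inner_left (𝕜 := ℝ)).1 w.2
  have hvv : ⟪v, v⟫ = 1 := by rw [real_inner_self_eq_norm_sq, hv]; norm_num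
  refine ⟨fun j => ⟨q j, mem _ (hqv j)⟩, fun j => ⟨g j, mem _ (hgv j)⟩, ⟨x, mem _ hvx⟩,
    ⟨e, mem _ hev⟩, fun _ => rfl, fun _ => rfl, rfl, rfl, ?_, ?_⟩
  · refine ⟨hcs, hx, he, ?_, ?_, hqe, hgx, ?_, ?_, hcr⟩
    · rw [orthonormal_iff_ite]
      intro i j
      exact orthonormal_iff_ite.1 hq i j
    · rw [orthonormal_iff_ite]
      intro i j
      exact orthonormal_iff_ite.1 hg i j
    · intro w
      have h1 := nf_U_full hW v e q hv he hev hq hqv hqe (w : W)
      rw [wv w] at h1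
      have h2 : ⟪(w : W), e⟫ ^ 2 + ∑ j, ⟪(w : W), q j⟫ ^ 2 = ‖(w : W)‖ ^ 2 := by
        linarith
      exact h2
    · intro w
      have h1 := nf_U_full hW v x g hv hx hvx hg hgv hgx (w : W)
      rw [wv w] at h1
      have h2 : ⟪(w : W), x⟫ ^ 2 + ∑ j, ⟪(w : W), g j⟫ ^ 2 = ‖(w : W)‖ ^ 2 := by
        linarith
      exact h2
  · intro t w
    unfold FF
    congr 2
    ext i j
    -- the vector splits
    have hvq : ∀ j, ⟪v, q j⟫ = 0 := fun j => by rw [real_inner_comm]; exact hqv j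
    have hvg : ∀ j, ⟪v, g j⟫ = 0 := fun j => by rw [real_inner_comm]; exact hgv j
    have hvx' : ⟪v, x⟫ = 0 := by rw [real_inner_comm]; exact hvx
    set M : Fin N → W := fun j => (t * c j) • q j +
      s j • (⟪(w : W), x⟫ • g j - ⟪(w : W), g j⟫ • x) with hM
    have hMv : ∀ j, ⟪M j, v⟫ = 0 := by
      intro j
      show ⟪(t * c j) • q j + s j • (⟪(w : W), x⟫ • g j - ⟪(w : W), g j⟫ • x), v⟫ = 0
      simp only [inner_add_left, inner_sub_left, inner_smul_left, hqv, hgv, hvx, mul_zero,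
        sub_zero, add_zero]
    have hvM : ∀ j, ⟪v, M j⟫ = 0 := fun j => by rw [real_inner_comm]; exact hMv j
    have hsplit : ∀ j, iob v x c s q g (t • v + (w : W)) j = M j - (c j * ⟪(w : W), q j⟫) • v := by
      intro j
      show c j • (⟪t • v + (w : W), v⟫ • q j - ⟪t • v + (w : W), q j⟫ • v) +
        s j • (⟪t • v + (w : W), x⟫ • g j - ⟪t • v + (w : W), g j⟫ • x) = _
      simp only [inner_add_left, inner_smul_left, hvv, hvq, hvg, hvx', wv w, mul_zero, zero_add,
        mul_one, add_zero, RCLike.conj_to_real]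
      rw [hM]
      module
    show ⟪iob v x c s q g (t • v + (w : W)) i, iob v x c s q g (t • v + (w : W)) j⟫ =
      ⟪M i, M j⟫ + (c i * ⟪(w : W), q i⟫) * (c j * ⟪(w : W), q j⟫)
    rw [hsplit, hsplit]
    simp only [inner_sub_left, inner_sub_right, inner_smul_left, inner_smul_right, hMv, hvM, hvv,
      mul_zero, mul_one, sub_zero, zero_sub, RCLike.conj_to_real]
    ring

end Pool.Agent.Helper971.OS
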