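import Pool.Agent.Helper971.OS.Defs

/-!
Volume of unit vector fields on odd spheres, Stage 2: the pointwise inequality for large `N`.
-/

open MeasureTheory ProbabilityTheory Matrix
open scoped RealInnerProductSpace ENNReal BigOperators

namespace Pool.Agent.Helper971.OS



private theorem j30673_inner {W : Type*} [NormedAddCommGroup W] [InnerProductSpace ℝ W] {N : ℕ}
    (P Q : Fin N → W) (C S : ℝ) :
    ∑ i, ⟪C • P i + S • Q i, (-S) • P i + C • Q i⟫ =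
      C * S * (∑ i, ‖Q i‖ ^ 2 - ∑ i, ‖P i‖ ^ 2) + (C ^ 2 - S ^ 2) * ∑ i, ⟪P i, Q i⟫ := by
  rw [← Finset.sum_sub_distrib, Finset.mul_sum, Finset.mul_sum, ← Finset.sum_add_distrib]
  refine Finset.sum_congr rfl fun i _ => ?_
  simp only [inner_add_left, inner_add_right, real_inner_smul_left, real_inner_smul_right,
    real_inner_self_eq_norm_sq, real_inner_comm (P i) (Q i)]
  rw [real_inner_comm (Q i) (P i)]
  ring

private theorem j30673_norm {W : Type*} [NormedAddCommGroup W] [InnerProductSpace ℝ W] {N : ℕ}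
    (P Q : Fin N → W) (C S : ℝ) :
    ∑ i, ‖C • P i + S • Q i‖ ^ 2 =
      C ^ 2 * ∑ i, ‖P i‖ ^ 2 + 2 * C * S * ∑ i, ⟪P i, Q i⟫ + S ^ 2 * ∑ i, ‖Q i‖ ^ 2 := by
  rw [Finset.mul_sum, Finset.mul_sum, Finset.mul_sum, ← Finset.sum_add_distrib,
    ← Finset.sum_add_distrib]
  refine Finset.sum_congr rfl fun i _ => ?_
  rw [norm_add_sq_real, norm_smul, norm_smul, real_inner_smul_left, real_inner_smul_right,
    mul_pow, mul_pow, Real.norm_eq_abs, Real.norm_eq_abs, sq_abs, sq_abs]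
  ring

theorem nf_rot {W : Type*} [NormedAddCommGroup W] [InnerProductSpace ℝ W] {N : ℕ}
    (P Q : Fin N → W) : ∃ C S : ℝ, C ^ 2 + S ^ 2 = 1 ∧
      ∑ i, ⟪C • P i + S • Q i, (-S) • P i + C • Q i⟫ = 0 ∧
      ∑ i, ‖(-S) • P i + C • Q i‖ ^ 2 ≤ ∑ i, ‖C • P i + S • Q i‖ ^ 2 := by
  set a := ∑ i, ‖P i‖ ^ 2 with ha
  set b := ∑ i, ⟪P i, Q i⟫ with hb
  set d := ∑ i, ‖Q i‖ ^ 2 with hd
  have h1 : ‖(⟨a - d, 2 * b⟩ : ℂ)‖ * Real.cos (Complex.arg ⟨a - d, 2 * b⟩) = a - d :=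
    Complex.norm_mul_cos_arg ⟨a - d, 2 * b⟩
  have h2 : ‖(⟨a - d, 2 * b⟩ : ℂ)‖ * Real.sin (Complex.arg ⟨a - d, 2 * b⟩) = 2 * b :=
    Complex.norm_mul_sin_arg ⟨a - d, 2 * b⟩
  set ρ : ℝ := ‖(⟨a - d, 2 * b⟩ : ℂ)‖ with hρ
  have hρ0 : 0 ≤ ρ := norm_nonneg _
  set θ : ℝ := Complex.arg ⟨a - d, 2 * b⟩ / 2 with hθ
  have h3 : Complex.arg ⟨a - d, 2 * b⟩ = 2 * θ := by rw [hθ]; ring
  rw [h3, Real.cos_two_mul'] at h1
  rw [h3, Real.sin_two_mul] at h2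
  have h4 := Real.cos_sq_add_sin_sq θ
  refine ⟨Real.cos θ, Real.sin θ, h4, ?_, ?_⟩
  · rw [j30673_inner, ← ha, ← hb, ← hd]
    have h5 : d - a = -(ρ * (Real.cos θ ^ 2 - Real.sin θ ^ 2)) := by rw [h1]; ring
    have h6 : b = ρ * (Real.sin θ * Real.cos θ) := by linarith
    rw [h5, h6]
    ring
  · have h7 := j30673_norm P Q (-Real.sin θ) (Real.cos θ)
    have h8 := j30673_norm P Q (Real.cos θ) (Real.sin θ)
    rw [← ha, ← hb, ← hd] at h7 h8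
    rw [h7, h8]
    have h9 : 0 ≤ ρ * ((Real.cos θ ^ 2 - Real.sin θ ^ 2) ^ 2 +
        (2 * Real.sin θ * Real.cos θ) ^ 2) := by positivity
    have h10 : ρ * ((Real.cos θ ^ 2 - Real.sin θ ^ 2) ^ 2 + (2 * Real.sin θ * Real.cos θ) ^ 2) =
        (a - d) * (Real.cos θ ^ 2 - Real.sin θ ^ 2) + (2 * b) * (2 * Real.sin θ * Real.cos θ) := by
      rw [← h1, ← h2]; ring
    rw [h10] at h9
    nlinarith [h9]

end Pool.Agent.Helper971.OS
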