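import Pool.Agent.Helper971.OS.Defs

/-!
Volume of unit vector fields on odd spheres, Stage 2: the pointwise inequality for large `N`.
-/

open MeasureTheory ProbabilityTheory Matrix
open scoped RealInnerProductSpace ENNReal BigOperators

namespace Pool.Agent.Helper971.OS



theorem nf_gr {W : Type*} [NormedAddCommGroup W] [InnerProductSpace ℝ W] {N : ℕ}
    (O : Matrix (Fin N) (Fin N) ℝ) (a b : Fin N → W) (j l : Fin N) :
    ⟪∑ i, O i j • a i, ∑ k, O k l • b k⟫ =
      (Oᵀ * (Matrix.of fun i k => ⟪a i, b k⟫) * O) j l := by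
  rw [sum_inner]
  simp only [inner_sum, real_inner_smul_left, real_inner_smul_right, Matrix.mul_apply,
    Matrix.transpose_apply, Matrix.of_apply, Finset.sum_mul]
  rw [Finset.sum_comm]
  refine Finset.sum_congr rfl fun k _ => Finset.sum_congr rfl fun i _ => ?_
  ring

theorem nf_tr {W : Type*} [NormedAddCommGroup W] [InnerProductSpace ℝ W] {N : ℕ}
    (O : Matrix (Fin N) (Fin N) ℝ) (hO : O * Oᵀ = 1) (a b : Fin N → W) :
    ∑ j, ⟪∑ i, O i j • a i, ∑ k, O k j • b k⟫ = ∑ i, ⟪a i, b i⟫ := by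
  simp only [nf_gr]
  have h1 : ∑ j, (Oᵀ * (Matrix.of fun i k => ⟪a i, b k⟫) * O) j j =
      Matrix.trace (Oᵀ * (Matrix.of fun i k => ⟪a i, b k⟫) * O) := rfl
  rw [h1, Matrix.trace_mul_comm, ← Matrix.mul_assoc, hO, Matrix.one_mul]
  rfl

theorem nf_rec {W : Type*} [NormedAddCommGroup W] [InnerProductSpace ℝ W] {N : ℕ}
    (O : Matrix (Fin N) (Fin N) ℝ) (hO : O * Oᵀ = 1) (a : Fin N → W) (i : Fin N) :
    a i = ∑ j, O i j • ∑ k, O k j • a k := by
  simp only [Finset.smul_sum, smul_smul]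
  rw [Finset.sum_comm]
  have h1 : ∀ k, ∑ j, (O i j * O k j) • a k = (if i = k then (1 : ℝ) else 0) • a k := by
    intro k
    rw [← Finset.sum_smul]
    congr 1
    have h2 := congrFun (congrFun hO i) k
    rw [Matrix.mul_apply, Matrix.one_apply] at h2
    exact h2
  rw [Finset.sum_congr rfl fun k _ => h1 k]
  simp

/-- extension of an orthogonal family to an orthonormal one -/
theorem nf_ext {W : Type*} [NormedAddCommGroup W] [InnerProductSpace ℝ W] [FiniteDimensional ℝ W]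
    {N : ℕ} (hW : Module.finrank ℝ W = N + 2) (y : Fin N → W) (c : Fin N → ℝ)
    (hy : ∀ i j, ⟪y i, y j⟫ = if i = j then c j ^ 2 else 0)
    (u : Fin 2 → W) (t : Set (Fin 2)) (hu : Orthonormal ℝ (fun k : t => u k))
    (huy : ∀ k ∈ t, ∀ j, ⟪y j, u k⟫ = 0) :
    ∃ (q : Fin N → W) (e : Fin 2 → W), Orthonormal ℝ q ∧ Orthonormal ℝ e ∧
      (∀ j k, ⟪q j, e k⟫ = 0) ∧ (∀ k ∈ t, e k = u k) ∧ ∀ j, y j = c j • q j := by
  classical
  set f : Fin N ⊕ Fin 2 → W := Sum.elim (fun j => (c j)⁻¹ • y j) u with hf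
  set s : Set (Fin N ⊕ Fin 2) := {i | (∃ j, i = Sum.inl j ∧ c j ≠ 0) ∨ ∃ k, i = Sum.inr k ∧ k ∈ t} with hs
  have hcard : Module.finrank ℝ W = Fintype.card (Fin N ⊕ Fin 2) := by
    rw [hW]; simp
  have hu' := orthonormal_iff_ite.mp hu
  have huu : ∀ k ∈ t, ∀ l ∈ t, ⟪u k, u l⟫ = if k = l then 1 else 0 := by
    intro k hk l hl
    have := hu' ⟨k, hk⟩ ⟨l, hl⟩
    simpa [Subtype.mk.injEq] using this
  have hon : Orthonormal ℝ (fun i : s => f i) := by
    rw [orthonormal_iff_ite]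
    rintro ⟨i, hi⟩ ⟨i', hi'⟩
    rcases hi with ⟨j, rfl, hj⟩ | ⟨k, rfl, hk⟩ <;> rcases hi' with ⟨j', rfl, hj'⟩ | ⟨k', rfl, hk'⟩
    · simp only [hf, Sum.elim_inl, real_inner_smul_left, real_inner_smul_right, hy,
        Subtype.mk.injEq, Sum.inl.injEq]
      by_cases h : j = j'
      · subst h
        simp only [if_true]
        field_simp
      · simp [h]
    · simp only [hf, Sum.elim_inl, Sum.elim_inr, real_inner_smul_left, huy k' hk' j]
      simp
    · simp only [hf, Sum.elim_inl, Sum.elim_inr, real_inner_smul_right]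
      rw [real_inner_comm, huy k hk j']
      simp
    · simp only [hf, Sum.elim_inr, Subtype.mk.injEq, Sum.inr.injEq]
      exact huu k hk k' hk'
  obtain ⟨b, hb⟩ := Orthonormal.exists_orthonormalBasis_extension_of_card_eq hcard (v := f) (s := s) hon
  have hbo := orthonormal_iff_ite.mp b.orthonormal
  refine ⟨fun j => b (Sum.inl j), fun k => b (Sum.inr k), ?_, ?_, ?_, ?_, ?_⟩
  · rw [orthonormal_iff_ite]
    intro i j
    rw [hbo]
    simp
  · rw [orthonormal_iff_ite]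
    intro i j
    rw [hbo]
    simp
  · intro j k
    rw [hbo]
    simp
  · intro k hk
    show b (Sum.inr k) = u k
    rw [hb (Sum.inr k) (Or.inr ⟨k, rfl, hk⟩)]
    rfl
  · intro j
    show y j = c j • b (Sum.inl j)
    by_cases hj : c j = 0
    · have h1 : ⟪y j, y j⟫ = 0 := by rw [hy, if_pos rfl, hj]; norm_num
      rw [inner_self_eq_zero.mp h1, hj, zero_smul]
    · rw [hb (Sum.inl j) (Or.inl ⟨j, rfl, hj⟩)]
      show y j = c j • ((c j)⁻¹ • y j)
      rw [smul_smul, mul_inv_cancel₀ hj, one_smul]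

theorem nf_svd {W : Type*} [NormedAddCommGroup W] [InnerProductSpace ℝ W] [FiniteDimensional ℝ W]
    {N : ℕ} (hW : Module.finrank ℝ W = N + 2) (v x : W) (hv : ‖v‖ = 1) (hx : ‖x‖ = 1)
    (hvx : ⟪x, v⟫ = 0) (a a' : Fin N → W) (hav : ∀ i, ⟪a i, v⟫ = 0) (hav' : ∀ i, ⟪a' i, v⟫ = 0)
    (hax' : ∀ i, ⟪a' i, x⟫ = 0) (hg : gram a + gram a' = 1) (hc : ∑ i, ⟪a i, a' i⟫ = 0) :
    ∃ (O : Matrix (Fin N) (Fin N) ℝ) (c s : Fin N → ℝ) (q g : Fin N → W) (e : W),
      O * Oᵀ = 1 ∧ (∀ j, c j ^ 2 + s j ^ 2 = 1) ∧ Orthonormal ℝ q ∧ Orthonormal ℝ g ∧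
      (∀ j, ⟪q j, v⟫ = 0) ∧ (∀ j, ⟪g j, v⟫ = 0) ∧ (∀ j, ⟪g j, x⟫ = 0) ∧
      ‖e‖ = 1 ∧ ⟪e, v⟫ = 0 ∧ (∀ j, ⟪q j, e⟫ = 0) ∧ (∑ j, c j * s j * ⟪q j, g j⟫ = 0) ∧
      (∑ j, s j ^ 2 = ∑ i, ‖a' i‖ ^ 2) ∧
      (∀ i, a i = ∑ j, O i j • c j • q j) ∧ (∀ i, a' i = ∑ j, O i j • s j • g j) := by
  classical
  have hA : (gram a).IsHermitian := by
    rw [Matrix.IsHermitian, Matrix.conjTranspose_eq_transpose_of_trivial]
    ext i j
    exact real_inner_comm _ _
  have hd := hA.conjStarAlgAut_star_eigenvectorUnitary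
  rw [Unitary.conjStarAlgAut_star_apply] at hd
  set O : Matrix (Fin N) (Fin N) ℝ := (hA.eigenvectorUnitary : Matrix (Fin N) (Fin N) ℝ) with hOdef
  have hst : star O = Oᵀ := by
    rw [Matrix.star_eq_conjTranspose, Matrix.conjTranspose_eq_transpose_of_trivial]
  have hOO' : Oᵀ * O = 1 := by
    rw [← hst]
    exact Unitary.coe_star_mul_self hA.eigenvectorUnitary
  have hOO : O * Oᵀ = 1 := by
    rw [← hst]
    exact Unitary.coe_mul_star_self hA.eigenvectorUnitary
  set lam : Fin N → ℝ := hA.eigenvalues with hlam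
  have hd' : Oᵀ * gram a * O = Matrix.diagonal lam := by
    rw [← hst]
    exact hd
  have hd2 : Oᵀ * gram a' * O = Matrix.diagonal (fun j => 1 - lam j) := by
    have h1 : gram a' = 1 - gram a := by rw [← hg]; abel
    rw [h1, Matrix.mul_sub, Matrix.sub_mul, Matrix.mul_one, hOO', hd']
    ext i j
    simp only [Matrix.sub_apply, Matrix.one_apply, Matrix.diagonal_apply]
    split_ifs <;> simp
  set y : Fin N → W := fun j => ∑ i, O i j • a i with hydef
  set z : Fin N → W := fun j => ∑ i, O i j • a' i with hzdef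
  have hyy : ∀ i j, ⟪y i, y j⟫ = if i = j then lam j else 0 := by
    intro i j
    rw [hydef]
    show ⟪∑ k, O k i • a k, ∑ k, O k j • a k⟫ = _
    rw [nf_gr]
    have := congrFun (congrFun hd' i) j
    rw [Matrix.diagonal_apply] at this
    have e1 : (Matrix.of fun i k => ⟪a i, a k⟫) = gram a := rfl
    rw [e1, this]
    split_ifs with h
    · rw [h]
    · rfl
  have hzz : ∀ i j, ⟪z i, z j⟫ = if i = j then 1 - lam j else 0 := by
    intro i j
    rw [hzdef]
    show ⟪∑ k, O k i • a' k, ∑ k, O k j • a' k⟫ = _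
    rw [nf_gr]
    have := congrFun (congrFun hd2 i) j
    rw [Matrix.diagonal_apply] at this
    have e1 : (Matrix.of fun i k => ⟪a' i, a' k⟫) = gram a' := rfl
    rw [e1, this]
    split_ifs with h
    · rw [h]
    · rfl
  have hl0 : ∀ j, 0 ≤ lam j := by
    intro j
    have h1 := hyy j j
    rw [if_pos rfl] at h1
    rw [← h1]
    exact real_inner_self_nonneg
  have hl1 : ∀ j, 0 ≤ 1 - lam j := by
    intro j
    have h1 := hzz j j
    rw [if_pos rfl] at h1
    rw [← h1]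
    exact real_inner_self_nonneg
  set c : Fin N → ℝ := fun j => Real.sqrt (lam j) with hcdef
  set s : Fin N → ℝ := fun j => Real.sqrt (1 - lam j) with hsdef
  have hc2 : ∀ j, c j ^ 2 = lam j := fun j => Real.sq_sqrt (hl0 j)
  have hs2 : ∀ j, s j ^ 2 = 1 - lam j := fun j => Real.sq_sqrt (hl1 j)
  have hyv : ∀ j, ⟪y j, v⟫ = 0 := by
    intro j
    simp only [hydef, sum_inner, real_inner_smul_left, hav, mul_zero, Finset.sum_const_zero]
  have hzv : ∀ j, ⟪z j, v⟫ = 0 := by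
    intro j
    simp only [hzdef, sum_inner, real_inner_smul_left, hav', mul_zero, Finset.sum_const_zero]
  have hzx : ∀ j, ⟪z j, x⟫ = 0 := by
    intro j
    simp only [hzdef, sum_inner, real_inner_smul_left, hax', mul_zero, Finset.sum_const_zero]
  have hvv : ⟪v, v⟫ = 1 := by rw [real_inner_self_eq_norm_sq, hv]; norm_num
  have hxx : ⟪x, x⟫ = 1 := by rw [real_inner_self_eq_norm_sq, hx]; norm_num
  obtain ⟨q, e, hq, he, hqe, het, hyq⟩ := nf_ext hW y c
    (fun i j => by rw [hyy, hc2]) ![v, x] {0} (by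
      rw [orthonormal_iff_ite]
      rintro ⟨i, hi⟩ ⟨j, hj⟩
      rw [Set.mem_singleton_iff] at hi hj
      subst hi hj
      simp [hv]) (by
      intro k hk j
      rw [Set.mem_singleton_iff] at hk
      subst hk
      exact hyv j)
  obtain ⟨g, e', hg', he', hge', het', hzg⟩ := nf_ext hW z s
    (fun i j => by rw [hzz, hs2]) ![v, x] Set.univ (by
      rw [orthonormal_iff_ite]
      rintro ⟨i, hi⟩ ⟨j, hj⟩
      have hxv : ⟪v, x⟫ = 0 := by rw [real_inner_comm]; exact hvx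
      fin_cases i <;> fin_cases j <;> simp [hv, hx, hvx, hxv]) (by
      intro k hk j
      fin_cases k
      · exact hzv j
      · exact hzx j)
  have he0 : e 0 = v := het 0 rfl
  have he0' : e' 0 = v := het' 0 (Set.mem_univ _)
  have he1' : e' 1 = x := het' 1 (Set.mem_univ _)
  refine ⟨O, c, s, q, g, e 1, hOO, ?_, hq, hg', ?_, ?_, ?_, he.1 1, ?_, ?_, ?_, ?_, ?_, ?_⟩
  · intro j
    rw [hc2, hs2]; ring
  · intro j
    rw [← he0]; exact hqe j 0
  · intro j
    rw [← he0']; exact hge' j 0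
  · intro j
    rw [← he1']; exact hge' j 1
  · rw [← he0]
    exact he.2 (by decide)
  · intro j
    exact hqe j 1
  · have h1 : ∀ j, c j * s j * ⟪q j, g j⟫ = ⟪y j, z j⟫ := by
      intro j
      rw [hyq j, hzg j, real_inner_smul_left, real_inner_smul_right]
      ring
    rw [Finset.sum_congr rfl fun j _ => h1 j, ← hc]
    exact nf_tr O hOO a a'
  · have h1 : ∀ j, s j ^ 2 = ⟪z j, z j⟫ := by
      intro j
      rw [hzz, if_pos rfl, hs2]
    rw [Finset.sum_congr rfl fun j _ => h1 j]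
    have h2 := nf_tr O hOO a' a'
    rw [Finset.sum_congr rfl fun i _ => (real_inner_self_eq_norm_sq (a' i)).symm]
    exact h2
  · intro i
    rw [nf_rec O hOO a i]
    exact Finset.sum_congr rfl fun j _ => by rw [← hyq j]
  · intro i
    rw [nf_rec O hOO a' i]
    exact Finset.sum_congr rfl fun j _ => by rw [← hzg j]

end Pool.Agent.Helper971.OS
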