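import Pool.Agent.Helper971.OS.Defs

/-!
Volume of unit vector fields on odd spheres, Stage 2: the pointwise inequality for large `N`.
-/

open MeasureTheory ProbabilityTheory Matrix
open scoped RealInnerProductSpace ENNReal BigOperators

namespace Pool.Agent.Helper971.OS



open scoped MatrixOrder in
theorem nfw_fac {N : ℕ} (A : Matrix (Fin N) (Fin N) ℝ) (hA : A.PosSemidef) :
    ∃ B : Matrix (Fin N) (Fin N) ℝ, A = Bᵀ * B := by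
  obtain ⟨B, hB⟩ := CStarAlgebra.nonneg_iff_eq_star_mul_self.mp hA.nonneg
  refine ⟨B, ?_⟩
  rw [hB, Matrix.star_eq_conjTranspose, Matrix.conjTranspose_eq_transpose_of_trivial]

theorem nf_white {N : ℕ} (A : Matrix (Fin N) (Fin N) ℝ) (hA : A.PosDef) :
    ∃ T R : Matrix (Fin N) (Fin N) ℝ, T * R = 1 ∧ R * T = 1 ∧ T * Tᵀ = A ∧
      R * A * Rᵀ = 1 ∧ T.det ^ 2 = A.det := by
  obtain ⟨B, hB⟩ := nfw_fac A hA.posSemidef
  have hT : Bᵀ * Bᵀᵀ = A := by rw [Matrix.transpose_transpose]; exact hB.symm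
  have hdet : Bᵀ.det ^ 2 = A.det := by
    rw [← hT, Matrix.det_mul, Matrix.det_transpose Bᵀ, sq]
  have hpos := hA.det_pos
  have hu : IsUnit Bᵀ.det := by
    rw [isUnit_iff_ne_zero]
    intro h0
    rw [h0] at hdet
    rw [← hdet] at hpos
    norm_num at hpos
  have h1 : Bᵀ * Bᵀ⁻¹ = 1 := Matrix.mul_nonsing_inv _ hu
  have h2 : Bᵀ⁻¹ * Bᵀ = 1 := Matrix.nonsing_inv_mul _ hu
  refine ⟨Bᵀ, Bᵀ⁻¹, h1, h2, hT, ?_, hdet⟩
  rw [← hT]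
  calc Bᵀ⁻¹ * (Bᵀ * Bᵀᵀ) * Bᵀ⁻¹ᵀ = (Bᵀ⁻¹ * Bᵀ) * (Bᵀᵀ * Bᵀ⁻¹ᵀ) := by
        simp only [Matrix.mul_assoc]
    _ = 1 := by rw [h2, ← Matrix.transpose_mul, h2, Matrix.transpose_one, Matrix.mul_one]

end Pool.Agent.Helper971.OS
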