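import Pool.Agent.Helper971.OS.Defs
import Pool.Agent.Helper971.OS.P_nf_rot
import Pool.Agent.Helper971.OS.P_nf_white
import Pool.Agent.Helper971.OS.P_nf_svd

/-!
Volume of unit vector fields on odd spheres, Stage 2: the pointwise inequality for large `N`.
-/

open MeasureTheory ProbabilityTheory Matrix
open scoped RealInnerProductSpace ENNReal BigOperators

namespace Pool.Agent.Helper971.OS



theorem nf_W_gram {W : Type*} [NormedAddCommGroup W] [InnerProductSpace ℝ W] {N : ℕ}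
    (R : Matrix (Fin N) (Fin N) ℝ) (p : Fin N → W) :
    gram (fun i => ∑ k, R i k • p k) = R * gram p * Rᵀ := by
  ext i j
  rw [Matrix.mul_apply]
  unfold gram
  rw [Matrix.of_apply, inner_sum]
  refine Finset.sum_congr rfl (fun l _ => ?_)
  rw [inner_smul_right, sum_inner, Matrix.mul_apply, Matrix.transpose_apply, mul_comm]
  congr 1
  refine Finset.sum_congr rfl (fun k _ => ?_)
  rw [inner_smul_left, Matrix.of_apply]
  simp

theorem nf_W_exp {W : Type*} [NormedAddCommGroup W] [InnerProductSpace ℝ W]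
    (u w x : W) (α β : ℝ) : ⟪u + α • x, w + β • x⟫ =
      ⟪u, w⟫ + β * ⟪u, x⟫ + α * ⟪x, w⟫ + α * β * ⟪x, x⟫ := by
  simp only [inner_add_left, inner_add_right, inner_smul_left, inner_smul_right,
    RCLike.conj_to_real]
  ring

theorem nf_W_pos {W : Type*} [NormedAddCommGroup W] [InnerProductSpace ℝ W] {N : ℕ}
    (p : Fin N → W) : (1 + gram p).PosDef := by
  have h1 : gram p = Matrix.gram ℝ p := rfl
  rw [h1]
  exact (Matrix.PosDef.one).add_posSemidef (Matrix.posSemidef_gram ℝ p)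

theorem nf_W_ident {W : Type*} [AddCommGroup W] [Module ℝ W] (C S X Y pp ee π : ℝ)
    (hCS : C ^ 2 + S ^ 2 = 1) (P' E x0 V : W) :
    X • (P' + π • V) - (pp + π * Y) • x0 + Y • E - ee • V =
      (C * X + S * Y) • (C • P' + S • E + π • ((-S) • x0 + C • V))
        - (C * pp + S * ee + π * (-S * X + C * Y)) • (C • x0 + S • V)
        + (-S * X + C * Y) • ((-S) • P' + C • E)
        - (-S * pp + C * ee) • ((-S) • x0 + C • V) := by
  have h1 : (C * X + S * Y) • (C • P' + S • E + π • ((-S) • x0 + C • V))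
        - (C * pp + S * ee + π * (-S * X + C * Y)) • (C • x0 + S • V)
        + (-S * X + C * Y) • ((-S) • P' + C • E)
        - (-S * pp + C * ee) • ((-S) • x0 + C • V) =
      (C ^ 2 + S ^ 2) • (X • (P' + π • V) - (pp + π * Y) • x0 + Y • E - ee • V) := by
    module
  rw [h1, hCS, one_smul]

theorem nf_W {W : Type*} [NormedAddCommGroup W] [InnerProductSpace ℝ W] [FiniteDimensional ℝ W]
    {N : ℕ} (hW : Module.finrank ℝ W = N + 2) (x0 V : W) (hx0 : ‖x0‖ = 1) (hV : ‖V‖ = 1)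
    (hxV : ⟪x0, V⟫ = 0) (e0 p : Fin N → W) (he0 : Orthonormal ℝ e0)
    (he0x : ∀ i, ⟪e0 i, x0⟫ = 0) (he0V : ∀ i, ⟪e0 i, V⟫ = 0) (hp : ∀ i, ⟪p i, x0⟫ = 0) :
    ∃ (v x : W) (T : Matrix (Fin N) (Fin N) ℝ) (c s : Fin N → ℝ) (q g : Fin N → W) (e : W),
      ‖v‖ = 1 ∧ ‖x‖ = 1 ∧ ⟪x, v⟫ = 0 ∧
      (∀ j, c j ^ 2 + s j ^ 2 = 1) ∧ Orthonormal ℝ q ∧ Orthonormal ℝ g ∧
      (∀ j, ⟪q j, v⟫ = 0) ∧ (∀ j, ⟪g j, v⟫ = 0) ∧ (∀ j, ⟪g j, x⟫ = 0) ∧
      ‖e‖ = 1 ∧ ⟪e, v⟫ = 0 ∧ (∀ j, ⟪q j, e⟫ = 0) ∧ (∑ j, c j * s j * ⟪q j, g j⟫ = 0) ∧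
      (∑ j, s j ^ 2 ≤ (N : ℝ) / 2) ∧ T.det ^ 2 = (1 + gram p).det ∧
      ∀ f i, iot x0 V e0 p f i = ∑ j, T i j • iob v x c s q g f j := by
  obtain ⟨T0, R, hTR, hRT, hTT, hRR, hdet⟩ := nf_white _ (nf_W_pos p)
  set P : Fin N → W := fun i => ∑ k, R i k • p k with hP
  set E : Fin N → W := fun i => ∑ k, R i k • (-(e0 k)) with hE
  have hge : gram (fun k => -(e0 k)) = 1 := by
    ext i j
    unfold gram
    rw [Matrix.of_apply, inner_neg_neg, orthonormal_iff_ite.1 he0 i j, Matrix.one_apply]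
  have hPE : gram P + gram E = 1 := by
    rw [hP, hE, nf_W_gram, nf_W_gram, hge]
    rw [← Matrix.add_mul, ← Matrix.mul_add, add_comm (gram p)]
    exact hRR
  have hPE' : ∀ i j, ⟪P i, P j⟫ + ⟪E i, E j⟫ = (1 : Matrix (Fin N) (Fin N) ℝ) i j := by
    intro i j
    rw [← hPE]
    rfl
  have hVV : ⟪V, V⟫ = 1 := by rw [real_inner_self_eq_norm_sq, hV]; norm_num
  have hxx : ⟪x0, x0⟫ = 1 := by rw [real_inner_self_eq_norm_sq, hx0]; norm_num
  have hVx : ⟪V, x0⟫ = 0 := by rw [real_inner_comm]; exact hxV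
  have hPx : ∀ i, ⟪P i, x0⟫ = 0 := by
    intro i
    rw [hP]
    simp only [sum_inner, inner_smul_left, hp, mul_zero, Finset.sum_const_zero]
  have hEx : ∀ i, ⟪E i, x0⟫ = 0 := by
    intro i
    rw [hE]
    simp only [sum_inner, inner_smul_left, inner_neg_left, he0x, neg_zero, mul_zero,
      Finset.sum_const_zero]
  have hEV : ∀ i, ⟪E i, V⟫ = 0 := by
    intro i
    rw [hE]
    simp only [sum_inner, inner_smul_left, inner_neg_left, he0V, neg_zero, mul_zero,
      Finset.sum_const_zero]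
  set π : Fin N → ℝ := fun i => ⟪P i, V⟫ with hπ
  set P' : Fin N → W := fun i => P i - π i • V with hP'
  have hP'x : ∀ i, ⟪P' i, x0⟫ = 0 := by
    intro i
    show ⟪P i - π i • V, x0⟫ = 0
    rw [inner_sub_left, inner_smul_left, hPx, hVx, mul_zero, sub_zero]
  have hP'V : ∀ i, ⟪P' i, V⟫ = 0 := by
    intro i
    show ⟪P i - π i • V, V⟫ = 0
    rw [inner_sub_left, inner_smul_left, hVV]
    simp [hπ]
  have hP'P' : ∀ i j, ⟪P' i, P' j⟫ = ⟪P i, P j⟫ - π i * π j := by
    intro i j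
    have h1 : ⟪P' i, P' j⟫ = ⟪P' i, P j⟫ - π j * ⟪P' i, V⟫ := by
      show ⟪P' i, P j - π j • V⟫ = _
      rw [inner_sub_right, inner_smul_right]
    rw [h1, hP'V, mul_zero, sub_zero]
    show ⟪P i - π i • V, P j⟫ = _
    rw [inner_sub_left, inner_smul_left]
    have : ⟪V, P j⟫ = π j := by rw [real_inner_comm]
    rw [this]
    simp
  obtain ⟨C, S, hCS, hrot, hrot2⟩ := nf_rot P' E
  set v : W := C • x0 + S • V with hv
  set x : W := (-S) • x0 + C • V with hx
  have hvv : ‖v‖ = 1 := by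
    have : ‖v‖ ^ 2 = 1 := by
      rw [← real_inner_self_eq_norm_sq, hv]
      simp only [inner_add_left, inner_add_right, inner_smul_left, inner_smul_right, hxx, hVV,
        hxV, hVx, RCLike.conj_to_real]
      linear_combination hCS
    have h0 := norm_nonneg v
    nlinarith
  have hxn : ‖x‖ = 1 := by
    have : ‖x‖ ^ 2 = 1 := by
      rw [← real_inner_self_eq_norm_sq, hx]
      simp only [inner_add_left, inner_add_right, inner_smul_left, inner_smul_right, hxx, hVV,
        hxV, hVx, RCLike.conj_to_real]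
      linear_combination hCS
    have h0 := norm_nonneg x
    nlinarith
  have hxin : ⟪x, x⟫ = 1 := by rw [real_inner_self_eq_norm_sq, hxn]; norm_num
  have hxv : ⟪x, v⟫ = 0 := by
    rw [hx, hv]
    simp only [inner_add_left, inner_add_right, inner_smul_left, inner_smul_right, hxx, hVV,
        hxV, hVx, RCLike.conj_to_real]
    ring
  have hperp : ∀ u : W, ⟪u, x0⟫ = 0 → ⟪u, V⟫ = 0 → ⟪u, v⟫ = 0 ∧ ⟪u, x⟫ = 0 := by
    intro u h1 h2
    rw [hx, hv]
    simp only [inner_add_right, inner_smul_right, h1, h2, mul_zero, add_zero, and_self]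
  set b : Fin N → W := fun i => C • P' i + S • E i with hb
  set a : Fin N → W := fun i => C • P' i + S • E i + π i • x with ha
  set a' : Fin N → W := fun i => (-S) • P' i + C • E i with ha'
  have hab : ∀ i, a i = b i + π i • x := fun i => rfl
  have hbv : ∀ i, ⟪b i, v⟫ = 0 ∧ ⟪b i, x⟫ = 0 := by
    intro i
    apply hperp
    · show ⟪C • P' i + S • E i, x0⟫ = 0
      rw [inner_add_left, inner_smul_left, inner_smul_left, hP'x, hEx]
      simp
    · show ⟪C • P' i + S • E i, V⟫ = 0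
      rw [inner_add_left, inner_smul_left, inner_smul_left, hP'V, hEV]
      simp
  have ha'v : ∀ i, ⟪a' i, v⟫ = 0 ∧ ⟪a' i, x⟫ = 0 := by
    intro i
    apply hperp
    · show ⟪(-S) • P' i + C • E i, x0⟫ = 0
      rw [inner_add_left, inner_smul_left, inner_smul_left, hP'x, hEx]
      simp
    · show ⟪(-S) • P' i + C • E i, V⟫ = 0
      rw [inner_add_left, inner_smul_left, inner_smul_left, hP'V, hEV]
      simp
  have hav : ∀ i, ⟪a i, v⟫ = 0 := by
    intro i
    rw [hab, inner_add_left, inner_smul_left, (hbv i).1, hxv]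
    simp
  have hxb : ∀ i, ⟪x, b i⟫ = 0 := fun i => by rw [real_inner_comm]; exact (hbv i).2
  have hxa' : ∀ i, ⟪x, a' i⟫ = 0 := fun i => by rw [real_inner_comm]; exact (ha'v i).2
  have hgram : gram a + gram a' = 1 := by
    ext i j
    rw [← hPE' i j]
    show ⟪a i, a j⟫ + ⟪a' i, a' j⟫ = _
    have e1 : ⟪a i, a j⟫ = ⟪b i, b j⟫ + π i * π j := by
      rw [hab, hab, nf_W_exp, hxb, (hbv i).2, hxin]
      ring
    rw [e1]
    have e2 : ⟪b i, b j⟫ = C ^ 2 * ⟪P' i, P' j⟫ + C * S * (⟪P' i, E j⟫ + ⟪E i, P' j⟫) +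
        S ^ 2 * ⟪E i, E j⟫ := by
      show ⟪C • P' i + S • E i, C • P' j + S • E j⟫ = _
      simp only [inner_add_left, inner_add_right, inner_smul_left, inner_smul_right,
        RCLike.conj_to_real]
      ring
    have e3 : ⟪a' i, a' j⟫ = S ^ 2 * ⟪P' i, P' j⟫ - C * S * (⟪P' i, E j⟫ + ⟪E i, P' j⟫) +
        C ^ 2 * ⟪E i, E j⟫ := by
      show ⟪(-S) • P' i + C • E i, (-S) • P' j + C • E j⟫ = _
      simp only [inner_add_left, inner_add_right, inner_smul_left, inner_smul_right,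
        RCLike.conj_to_real]
      ring
    rw [e2, e3, hP'P']
    linear_combination (⟪P i, P j⟫ - π i * π j + ⟪E i, E j⟫) * hCS
  have hcross : ∑ i, ⟪a i, a' i⟫ = 0 := by
    rw [← hrot]
    refine Finset.sum_congr rfl (fun i _ => ?_)
    rw [hab, inner_add_left, inner_smul_left, hxa']
    simp [hb, ha']
  obtain ⟨O, c, s, q, g, e, hOO, hcs, hq, hg, hqv, hgv, hgx, he1, hev, hqe, hcr, hsum, hOa, hOa'⟩ :=
    nf_svd hW v x hvv hxn hxv a a' hav (fun i => (ha'v i).1) (fun i => (ha'v i).2) hgram hcross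
  refine ⟨v, x, T0 * O, c, s, q, g, e, hvv, hxn, hxv, hcs, hq, hg, hqv, hgv, hgx, he1, hev, hqe,
    hcr, ?_, ?_, ?_⟩
  · rw [hsum]
    have h1 : ∑ i, (‖b i‖ ^ 2 + ‖a' i‖ ^ 2) ≤ ∑ i : Fin N, (1 : ℝ) := by
      refine Finset.sum_le_sum (fun i _ => ?_)
      rw [← real_inner_self_eq_norm_sq, ← real_inner_self_eq_norm_sq]
      have e2 : ⟪b i, b i⟫ = C ^ 2 * ⟪P' i, P' i⟫ + C * S * (⟪P' i, E i⟫ + ⟪E i, P' i⟫) +
          S ^ 2 * ⟪E i, E i⟫ := by
        show ⟪C • P' i + S • E i, C • P' i + S • E i⟫ = _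
        simp only [inner_add_left, inner_add_right, inner_smul_left, inner_smul_right,
          RCLike.conj_to_real]
        ring
      have e3 : ⟪a' i, a' i⟫ = S ^ 2 * ⟪P' i, P' i⟫ - C * S * (⟪P' i, E i⟫ + ⟪E i, P' i⟫) +
          C ^ 2 * ⟪E i, E i⟫ := by
        show ⟪(-S) • P' i + C • E i, (-S) • P' i + C • E i⟫ = _
        simp only [inner_add_left, inner_add_right, inner_smul_left, inner_smul_right,
          RCLike.conj_to_real]
        ring
      have e4 := hPE' i i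
      rw [Matrix.one_apply_eq] at e4
      have e5 := hP'P' i i
      have e6 : ⟪b i, b i⟫ + ⟪a' i, a' i⟫ = 1 - π i * π i := by
        rw [e2, e3, e5]
        linear_combination (⟪P i, P i⟫ - π i * π i + ⟪E i, E i⟫) * hCS + e4
      rw [e6]
      nlinarith [mul_self_nonneg (π i)]
    rw [Finset.sum_add_distrib, Finset.sum_const, Finset.card_univ, Fintype.card_fin,
      nsmul_eq_mul, mul_one] at h1
    have h2 : ∑ i, ‖a' i‖ ^ 2 ≤ ∑ i, ‖b i‖ ^ 2 := hrot2
    linarith
  · rw [Matrix.det_mul, mul_pow, hdet]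
    have h1 : O.det ^ 2 = 1 := by
      have h2 := congrArg Matrix.det hOO
      rw [Matrix.det_mul, Matrix.det_transpose, Matrix.det_one] at h2
      rw [sq]
      exact h2
    rw [h1, mul_one]
  · intro f i
    -- the transformed vectors
    have hL : ∀ k, ∑ l, R k l • iot x0 V e0 p f l =
        ⟪f, x0⟫ • P k - ⟪f, P k⟫ • x0 + ⟪f, V⟫ • E k - ⟪f, E k⟫ • V := by
      intro k
      rw [hP, hE]
      simp only [inner_sum, inner_smul_right, Finset.smul_sum, Finset.sum_smul,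
        ← Finset.sum_sub_distrib, ← Finset.sum_add_distrib]
      refine Finset.sum_congr rfl (fun l _ => ?_)
      unfold iot
      rw [inner_neg_right]
      module
    have hM : ∀ k, ⟪f, x0⟫ • P k - ⟪f, P k⟫ • x0 + ⟪f, V⟫ • E k - ⟪f, E k⟫ • V =
        ⟪f, v⟫ • a k - ⟪f, a k⟫ • v + ⟪f, x⟫ • a' k - ⟪f, a' k⟫ • x := by
      intro k
      have e1 : P k = P' k + π k • V := by
        show P k = P k - π k • V + π k • V
        rw [sub_add_cancel]
      have e2 : ⟪f, P k⟫ = ⟪f, P' k⟫ + π k * ⟪f, V⟫ := by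
        rw [e1, inner_add_right, inner_smul_right]
      have e3 : ⟪f, v⟫ = C * ⟪f, x0⟫ + S * ⟪f, V⟫ := by
        rw [hv, inner_add_right, inner_smul_right, inner_smul_right]
      have e4 : ⟪f, x⟫ = -S * ⟪f, x0⟫ + C * ⟪f, V⟫ := by
        rw [hx, inner_add_right, inner_smul_right, inner_smul_right]
      have e5 : ⟪f, a k⟫ = C * ⟪f, P' k⟫ + S * ⟪f, E k⟫ + π k * (-S * ⟪f, x0⟫ + C * ⟪f, V⟫) := by
        show ⟪f, C • P' k + S • E k + π k • x⟫ = _
        rw [inner_add_right, inner_add_right, inner_smul_right, inner_smul_right,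
          inner_smul_right, e4]
      have e6 : ⟪f, a' k⟫ = -S * ⟪f, P' k⟫ + C * ⟪f, E k⟫ := by
        show ⟪f, (-S) • P' k + C • E k⟫ = _
        rw [inner_add_right, inner_smul_right, inner_smul_right]
      have := nf_W_ident C S ⟪f, x0⟫ ⟪f, V⟫ ⟪f, P' k⟫ ⟪f, E k⟫ (π k) hCS (P' k) (E k) x0 V
      rw [e2, e3, e4, e5, e6]
      rw [← e1] at this
      exact this
    have hO : ∀ k, ⟪f, v⟫ • a k - ⟪f, a k⟫ • v + ⟪f, x⟫ • a' k - ⟪f, a' k⟫ • x =
        ∑ j, O k j • iob v x c s q g f j := by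
      intro k
      rw [hOa k, hOa' k]
      simp only [inner_sum, inner_smul_right, Finset.smul_sum, Finset.sum_smul,
        ← Finset.sum_sub_distrib, ← Finset.sum_add_distrib]
      refine Finset.sum_congr rfl (fun l _ => ?_)
      unfold iob
      module
    have hK : ∀ k, ∑ l, R k l • iot x0 V e0 p f l = ∑ j, O k j • iob v x c s q g f j :=
      fun k => (hL k).trans ((hM k).trans (hO k))
    have hfin : iot x0 V e0 p f i = ∑ k, T0 i k • ∑ l, R k l • iot x0 V e0 p f l := by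
      simp only [Finset.smul_sum]
      rw [Finset.sum_comm]
      have e1 : ∀ l, ∑ k, T0 i k • R k l • iot x0 V e0 p f l =
          (T0 * R) i l • iot x0 V e0 p f l := by
        intro l
        rw [Matrix.mul_apply, Finset.sum_smul]
        exact Finset.sum_congr rfl (fun k _ => by rw [smul_smul])
      rw [Finset.sum_congr rfl (fun l _ => e1 l), hTR, Finset.sum_eq_single i]
      · rw [Matrix.one_apply_eq, one_smul]
      · intro l _ hl
        rw [Matrix.one_apply_ne (Ne.symm hl), zero_smul]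
      · intro h
        exact absurd (Finset.mem_univ _) h
    rw [hfin, Finset.sum_congr rfl (fun k _ => by rw [hK k])]
    simp only [Finset.smul_sum]
    rw [Finset.sum_comm]
    refine Finset.sum_congr rfl (fun j _ => ?_)
    rw [Matrix.mul_apply, Finset.sum_smul]
    exact Finset.sum_congr rfl (fun k _ => by rw [smul_smul])

end Pool.Agent.Helper971.OS
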