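import Pool.Agent.Helper971.OS.Defs

/-!
Volume of unit vector fields on odd spheres, Stage 2: the pointwise inequality for large `N`.
-/

open MeasureTheory ProbabilityTheory Matrix
open scoped RealInnerProductSpace ENNReal BigOperators

namespace Pool.Agent.Helper971.OS



theorem pair_indep_onb {W : Type*} [NormedAddCommGroup W] [InnerProductSpace ℝ W]
    [FiniteDimensional ℝ W] (v e : W) (hv : ‖v‖ = 1) (he : ‖e‖ = 1) (hve : ⟪e, v⟫ = 0) :
    ∃ (h2 : 2 ≤ Module.finrank ℝ W)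
      (b : OrthonormalBasis (Fin (Module.finrank ℝ W)) ℝ W),
      b ⟨0, by omega⟩ = v ∧ b ⟨1, by omega⟩ = e := by
  have hve' : ⟪v, e⟫ = 0 := by rw [real_inner_comm]; exact hve
  have hon : Orthonormal ℝ ![v, e] := by
    rw [orthonormal_iff_ite]
    intro i j
    fin_cases i <;> fin_cases j
    · simp [hv]
    · simp [hve']
    · simp [hve]
    · simp [he]
  have h2 : 2 ≤ Module.finrank ℝ W := by
    have := hon.linearIndependent.fintype_card_le_finrank
    simpa using this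
  refine ⟨h2, ?_⟩
  let w : Fin (Module.finrank ℝ W) → W := fun i => if i.1 = 0 then v else e
  let s : Set (Fin (Module.finrank ℝ W)) := {i | i.1 < 2}
  have hs : Orthonormal ℝ (s.domRestrict w) := by
    rw [orthonormal_iff_ite]
    rintro ⟨⟨i, hi⟩, hi'⟩ ⟨⟨j, hj⟩, hj'⟩
    have hi2 : i < 2 := hi'
    have hj2 : j < 2 := hj'
    interval_cases i <;> interval_cases j
    · simp [w, Set.domRestrict, hv]
    · simp [w, Set.domRestrict, hve']
    · simp [w, Set.domRestrict, hve]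
    · simp [w, Set.domRestrict, he]
  obtain ⟨b, hb⟩ := hs.exists_orthonormalBasis_extension_of_card_eq (by simp)
  refine ⟨b, ?_, ?_⟩
  · rw [hb ⟨0, by omega⟩ (by show (0 : ℕ) < 2; norm_num)]
    simp [w]
  · rw [hb ⟨1, by omega⟩ (by show (1 : ℕ) < 2; norm_num)]
    simp [w]

theorem pair_indep {W : Type*} [NormedAddCommGroup W] [InnerProductSpace ℝ W]
    [FiniteDimensional ℝ W] [MeasurableSpace W] [BorelSpace W] (N : ℕ) (v e v' e' : W)
    (hv : ‖v‖ = 1) (he : ‖e‖ = 1) (hve : ⟪e, v⟫ = 0) (hv' : ‖v'‖ = 1) (he' : ‖e'‖ = 1)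
    (hve' : ⟪e', v'⟫ = 0) :
    ∫⁻ f, ENNReal.ofReal (|⟪f, v⟫| ^ (N - 1) * Real.sqrt (‖f‖ ^ 2 - ⟪f, e⟫ ^ 2)) ∂(stdGaussian W) =
    ∫⁻ f, ENNReal.ofReal (|⟪f, v'⟫| ^ (N - 1) * Real.sqrt (‖f‖ ^ 2 - ⟪f, e'⟫ ^ 2))
      ∂(stdGaussian W) := by
  obtain ⟨h2, b, hb0, hb1⟩ := pair_indep_onb v e hv he hve
  obtain ⟨h2', b', hc0, hc1⟩ := pair_indep_onb v' e' hv' he' hve'
  set R : W ≃ₗᵢ[ℝ] W := b.equiv b' (Equiv.refl _) with hR
  have hRv : R v = v' := by
    rw [← hb0, hR, OrthonormalBasis.equiv_apply_basis, Equiv.refl_apply, hc0]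
  have hRe : R e = e' := by
    rw [← hb1, hR, OrthonormalBasis.equiv_apply_basis, Equiv.refl_apply, hc1]
  have hm : (stdGaussian W).map R = stdGaussian W := stdGaussian_map R
  conv_rhs => rw [← hm]
  rw [lintegral_map _ R.continuous.measurable]
  · refine lintegral_congr fun f => ?_
    rw [← hRv, ← hRe, R.inner_map_map, R.inner_map_map, R.norm_map]
  · fun_prop

end Pool.Agent.Helper971.OS
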