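import Pool.Agent.Helper971.OS.Defs

/-!
Volume of unit vector fields on odd spheres, Stage 2: the pointwise inequality for large `N`.
-/

open MeasureTheory ProbabilityTheory Matrix
open scoped RealInnerProductSpace ENNReal BigOperators

namespace Pool.Agent.Helper971.OS


theorem sphere_gauss_density (n : ℕ) : ∃ c : ℝ, 0 < c ∧
    stdGaussian (EuclideanSpace ℝ (Fin n)) =
      (volume : Measure (EuclideanSpace ℝ (Fin n))).withDensity
      (fun f => ENNReal.ofReal (c * Real.exp (-(1 / 2) * ‖f‖ ^ 2))) := by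
  have hb : (0 : ℝ) < 1 / 2 := by norm_num
  have hbc : (0 : ℝ) < ((1 / 2 : ℂ)).re := by norm_num
  obtain ⟨Z, hZ⟩ : ∃ Z : ℝ, Z = ∫ v : EuclideanSpace ℝ (Fin n),
    Real.exp (-(1 / 2) * ‖v‖ ^ 2) := ⟨_, rfl⟩
  have hZpos : 0 < Z := by
    rw [hZ, GaussianFourier.integral_rexp_neg_mul_sq_norm hb]
    exact Real.rpow_pos_of_pos (by positivity) _
  have hint : Integrable (fun v : EuclideanSpace ℝ (Fin n) => Real.exp (-(1 / 2) * ‖v‖ ^ 2)) := by
    by_contra h
    rw [integral_undef h] at hZ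
    linarith
  have hZc : (Z : ℂ) = (Real.pi / (1 / 2 : ℂ)) ^
      (Module.finrank ℝ (EuclideanSpace ℝ (Fin n)) / 2 : ℂ) := by
    rw [← GaussianFourier.integral_cexp_neg_mul_sq_norm (V := EuclideanSpace ℝ (Fin n)) hbc, hZ,
      ← integral_complex_ofReal]
    congr 1
    ext v
    push_cast
    rfl
  have hint2 : Integrable (fun v : EuclideanSpace ℝ (Fin n) =>
      Z⁻¹ * Real.exp (-(1 / 2) * ‖v‖ ^ 2)) := hint.const_mul _
  refine ⟨Z⁻¹, inv_pos.2 hZpos, ?_⟩
  haveI : IsFiniteMeasure ((volume : Measure (EuclideanSpace ℝ (Fin n))).withDensity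
      (fun f => ENNReal.ofReal (Z⁻¹ * Real.exp (-(1 / 2) * ‖f‖ ^ 2)))) :=
    isFiniteMeasure_withDensity_ofReal hint2.2
  apply Measure.ext_of_charFun
  ext t
  have hmeas : Measurable (fun f : EuclideanSpace ℝ (Fin n) =>
      ENNReal.ofReal (Z⁻¹ * Real.exp (-(1 / 2) * ‖f‖ ^ 2))) := by fun_prop
  rw [charFun_stdGaussian, charFun_apply, integral_withDensity_eq_integral_toReal_smul hmeas
    (Filter.Eventually.of_forall fun _ => ENNReal.ofReal_lt_top)]
  have h1 : ∀ x : EuclideanSpace ℝ (Fin n),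
      (ENNReal.ofReal (Z⁻¹ * Real.exp (-(1 / 2) * ‖x‖ ^ 2))).toReal •
        Complex.exp (((inner ℝ x t : ℝ) : ℂ) * Complex.I) =
      ((Z⁻¹ : ℝ) : ℂ) * Complex.exp (-(1 / 2 : ℂ) * ‖x‖ ^ 2 + Complex.I * ((inner ℝ t x : ℝ) : ℂ)) := by
    intro x
    rw [ENNReal.toReal_ofReal (by positivity), Complex.real_smul, Complex.exp_add,
      real_inner_comm, Complex.ofReal_mul, Complex.ofReal_exp, mul_assoc,
      mul_comm (((inner ℝ t x : ℝ) : ℂ)) Complex.I]
    congr 3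
    push_cast
    rfl
  simp_rw [h1]
  rw [integral_const_mul, GaussianFourier.integral_cexp_neg_mul_sq_norm_add hbc, ← hZc,
    ← mul_assoc, ← Complex.ofReal_mul, inv_mul_cancel₀ hZpos.ne', Complex.ofReal_one, one_mul,
    Complex.I_sq]
  congr 1
  ring

theorem sphere_gauss_polar (n : ℕ) (hn : 1 ≤ n) (Φ : EuclideanSpace ℝ (Fin n) → ℝ≥0∞) :
    ∫⁻ f, Φ f ∂(volume : Measure (EuclideanSpace ℝ (Fin n))) =
      ∫⁻ p : Metric.sphere (0 : EuclideanSpace ℝ (Fin n)) 1 × Set.Ioi (0 : ℝ),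
        Φ ((p.2 : ℝ) • (p.1 : EuclideanSpace ℝ (Fin n)))
        ∂((volume : Measure (EuclideanSpace ℝ (Fin n))).toSphere.prod
          (Measure.volumeIoiPow (n - 1))) := by
  haveI : Nonempty (Fin n) := ⟨⟨0, hn⟩⟩
  haveI : Nontrivial (EuclideanSpace ℝ (Fin n)) := by
    apply Module.nontrivial_of_finrank_pos (R := ℝ)
    rw [finrank_euclideanSpace_fin]
    exact hn
  have h1 := (volume : Measure (EuclideanSpace ℝ (Fin n))).measurePreserving_homeomorphUnitSphereProd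
  rw [finrank_euclideanSpace_fin] at h1
  rw [← h1.lintegral_comp_emb (Homeomorph.measurableEmbedding _)]
  have h2 : ∀ x : ({0}ᶜ : Set (EuclideanSpace ℝ (Fin n))),
      Φ (((homeomorphUnitSphereProd (EuclideanSpace ℝ (Fin n)) x).2 : ℝ) •
        ((homeomorphUnitSphereProd (EuclideanSpace ℝ (Fin n)) x).1 :
          EuclideanSpace ℝ (Fin n))) = Φ x := by
    intro x
    congr 1
    have hx : ‖(x : EuclideanSpace ℝ (Fin n))‖ ≠ 0 := norm_ne_zero_iff.2 x.2
    simp [smul_smul, hx]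
  simp_rw [h2]
  rw [lintegral_subtype_comap (measurableSet_singleton _).compl, restrict_compl_singleton]

theorem sphere_gauss (n k : ℕ) (hn : 1 ≤ n) : ∃ C : ℝ≥0∞, C ≠ 0 ∧ C ≠ ∞ ∧
    ∀ G : EuclideanSpace ℝ (Fin n) → ℝ≥0∞, Measurable G →
      (∀ (r : ℝ), 0 < r → ∀ f, G (r • f) = ENNReal.ofReal (r ^ k) * G f) →
      ∫⁻ f, G f ∂(stdGaussian (EuclideanSpace ℝ (Fin n))) =
        C * ∫⁻ f : Metric.sphere (0 : EuclideanSpace ℝ (Fin n)) 1, G f
          ∂((volume : Measure (EuclideanSpace ℝ (Fin n))).toSphere) := by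
  obtain ⟨c, hc, hγ⟩ := sphere_gauss_density n
  obtain ⟨F, hF⟩ : ∃ F : Set.Ioi (0 : ℝ) → ℝ≥0∞, F = fun r : Set.Ioi (0 : ℝ) =>
    ENNReal.ofReal ((r : ℝ) ^ k) * ENNReal.ofReal (c * Real.exp (-(1 / 2) * (r : ℝ) ^ 2)) :=
    ⟨_, rfl⟩
  have hFm : Measurable F := by
    rw [hF]
    fun_prop
  have hFpos : ∀ r, 0 < F r := by
    intro r
    rw [hF]
    have hr : (0 : ℝ) < r := r.2
    exact ENNReal.mul_pos (ENNReal.ofReal_pos.2 (by positivity)).ne'
      (ENNReal.ofReal_pos.2 (by positivity)).ne'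
  refine ⟨∫⁻ r, F r ∂(Measure.volumeIoiPow (n - 1)), ?_, ?_, ?_⟩
  · intro h0
    rw [lintegral_eq_zero_iff hFm] at h0
    have h1 : (Measure.volumeIoiPow (n - 1)) Set.univ = 0 := by
      have h2 : {r | ¬ (F r = (0 : Set.Ioi (0 : ℝ) → ℝ≥0∞) r)} = Set.univ := by
        ext r
        simp [(hFpos r).ne']
      rw [← h2]
      exact h0
    have h3 := Measure.volumeIoiPow_apply_Iio (n - 1) ⟨1, by simp⟩
    have h4 : (Measure.volumeIoiPow (n - 1)) (Set.Iio ⟨1, by simp⟩) = 0 :=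
      measure_mono_null (Set.subset_univ _) h1
    rw [h4] at h3
    have h5 : (0 : ℝ) < 1 ^ (n - 1 + 1) / ((n - 1 : ℕ) + 1) := by positivity
    exact (ENNReal.ofReal_pos.2 h5).ne h3
  · have h1 : ∫⁻ r, F r ∂(Measure.volumeIoiPow (n - 1)) =
        ∫⁻ r in Set.Ioi (0 : ℝ), ENNReal.ofReal (r ^ (n - 1)) * (ENNReal.ofReal (r ^ k) *
          ENNReal.ofReal (c * Real.exp (-(1 / 2) * r ^ 2))) := by
      rw [← lintegral_subtype_comap measurableSet_Ioi, Measure.volumeIoiPow,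
        lintegral_withDensity_eq_lintegral_mul _ (by fun_prop) hFm, hF]
      rfl
    have h2 : ∫⁻ r in Set.Ioi (0 : ℝ), ENNReal.ofReal (r ^ (n - 1)) * (ENNReal.ofReal (r ^ k) *
          ENNReal.ofReal (c * Real.exp (-(1 / 2) * r ^ 2))) =
        ∫⁻ r in Set.Ioi (0 : ℝ), ENNReal.ofReal (c * (r ^ ((n - 1 + k : ℕ) : ℝ) *
          Real.exp (-(1 / 2) * r ^ 2))) := by
      apply setLIntegral_congr_fun measurableSet_Ioi
      intro r hr
      have hr0 : (0 : ℝ) < r := hr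
      show ENNReal.ofReal (r ^ (n - 1)) * (ENNReal.ofReal (r ^ k) *
          ENNReal.ofReal (c * Real.exp (-(1 / 2) * r ^ 2))) =
          ENNReal.ofReal (c * (r ^ ((n - 1 + k : ℕ) : ℝ) * Real.exp (-(1 / 2) * r ^ 2)))
      rw [← ENNReal.ofReal_mul (by positivity), ← ENNReal.ofReal_mul (by positivity),
        Real.rpow_natCast, pow_add]
      congr 1
      ring
    rw [h1, h2]
    have h3 : IntegrableOn (fun r : ℝ => c * (r ^ ((n - 1 + k : ℕ) : ℝ) *
        Real.exp (-(1 / 2) * r ^ 2))) (Set.Ioi 0) :=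
      (integrableOn_rpow_mul_exp_neg_mul_sq (by norm_num : (0 : ℝ) < 1 / 2)
        (by have : (0 : ℝ) ≤ ((n - 1 + k : ℕ) : ℝ) := Nat.cast_nonneg _
            linarith)).const_mul c
    exact (Integrable.lintegral_lt_top h3).ne
  · intro G hG hhom
    have key := lintegral_prod_mul (μ := (volume : Measure (EuclideanSpace ℝ (Fin n))).toSphere)
      (ν := Measure.volumeIoiPow (n - 1))
      (f := fun x : Metric.sphere (0 : EuclideanSpace ℝ (Fin n)) 1 => G x) (g := F)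
      (hG.comp measurable_subtype_coe).aemeasurable hFm.aemeasurable
    rw [hγ, lintegral_withDensity_eq_lintegral_mul _ (by fun_prop) hG, sphere_gauss_polar n hn,
      mul_comm (∫⁻ r, F r ∂(Measure.volumeIoiPow (n - 1))), ← key]
    refine lintegral_congr fun p => ?_
    have hr : (0 : ℝ) < (p.2 : ℝ) := p.2.2
    have hn1 : ‖(p.1 : EuclideanSpace ℝ (Fin n))‖ = 1 := by
      simpa using p.1.2
    show ENNReal.ofReal (c * Real.exp (-(1 / 2) *
        ‖(p.2 : ℝ) • (p.1 : EuclideanSpace ℝ (Fin n))‖ ^ 2)) *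
        G ((p.2 : ℝ) • (p.1 : EuclideanSpace ℝ (Fin n))) = G p.1 * F p.2
    rw [hhom _ hr, norm_smul, hn1, mul_one, Real.norm_of_nonneg hr.le, hF]
    ring

end Pool.Agent.Helper971.OS
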