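import Pool.Agent.Helper971.OS.Defs
import Pool.Agent.Helper971.OS.P_star_gauss
import Pool.Agent.Helper971.OS.P_sphere_gauss

/-!
Volume of unit vector fields on odd spheres, Stage 2: the pointwise inequality for large `N`.
-/

open MeasureTheory ProbabilityTheory Matrix
open scoped RealInnerProductSpace ENNReal BigOperators

namespace Pool.Agent.Helper971.OS



theorem star_sphere_h1 {W : Type*} [NormedAddCommGroup W] [InnerProductSpace ℝ W] {N : ℕ}
    (x V : W) (e p : Fin N → W) (f : W) (r : ℝ) (hr : 0 < r) :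
    Real.sqrt (gram (iot x V e p (r • f))).det = r ^ N * Real.sqrt (gram (iot x V e p f)).det := by
  have h1 : ∀ i, iot x V e p (r • f) i = r • iot x V e p f i := by
    intro i
    simp only [iot, inner_smul_left, conj_trivial, smul_sub, smul_add, smul_smul]
  have h2 : gram (iot x V e p (r • f)) = (r ^ 2) • gram (iot x V e p f) := by
    ext i j
    simp only [gram, Matrix.of_apply, Matrix.smul_apply, smul_eq_mul, h1, inner_smul_left,
      inner_smul_right, conj_trivial]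
    ring
  rw [h2, Matrix.det_smul, Fintype.card_fin]
  have h3 : (r ^ 2) ^ N = (r ^ N) ^ 2 := by rw [← pow_mul, ← pow_mul, mul_comm]
  rw [h3, Real.sqrt_mul (sq_nonneg _), Real.sqrt_sq (by positivity)]

theorem star_sphere_h2 {W : Type*} [NormedAddCommGroup W] [InnerProductSpace ℝ W] {N : ℕ}
    (x V : W) (e p : Fin N → W) :
    Continuous (fun f : W => Real.sqrt (gram (iot x V e p f)).det) := by
  refine Real.continuous_sqrt.comp (Continuous.matrix_det (continuous_matrix fun i j => ?_))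
  simp only [gram, Matrix.of_apply, iot]
  fun_prop

theorem star_sphere_h3 {W : Type*} [NormedAddCommGroup W] [InnerProductSpace ℝ W] {k : ℕ}
    (hk : 1 ≤ k) (v e f : W) (r : ℝ) (hr : 0 < r) :
    |⟪r • f, v⟫| ^ (k - 1) * Real.sqrt (‖r • f‖ ^ 2 - ⟪r • f, e⟫ ^ 2) =
      r ^ k * (|⟪f, v⟫| ^ (k - 1) * Real.sqrt (‖f‖ ^ 2 - ⟪f, e⟫ ^ 2)) := by
  have h1 : ‖r • f‖ ^ 2 - ⟪r • f, e⟫ ^ 2 = r ^ 2 * (‖f‖ ^ 2 - ⟪f, e⟫ ^ 2) := by
    rw [norm_smul, inner_smul_left, conj_trivial, Real.norm_eq_abs, mul_pow, sq_abs]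
    ring
  rw [h1, Real.sqrt_mul (sq_nonneg _), Real.sqrt_sq hr.le, inner_smul_left, conj_trivial, abs_mul,
    abs_of_pos hr, mul_pow]
  obtain ⟨j, rfl⟩ : ∃ j, k = j + 1 := ⟨k - 1, by omega⟩
  rw [Nat.add_sub_cancel, pow_succ]
  ring

theorem star_sphere {m : ℕ} (hm : 150000 ≤ m)
    (x0 V : EuclideanSpace ℝ (Fin (2 * m + 2))) (hx0 : ‖x0‖ = 1) (hV : ‖V‖ = 1)
    (hxV : ⟪x0, V⟫ = 0) (e0 p : Fin (2 * m) → EuclideanSpace ℝ (Fin (2 * m + 2)))
    (he0 : Orthonormal ℝ e0)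
    (he0x : ∀ i, ⟪e0 i, x0⟫ = 0) (he0V : ∀ i, ⟪e0 i, V⟫ = 0) (hp : ∀ i, ⟪p i, x0⟫ = 0)
    (v e : EuclideanSpace ℝ (Fin (2 * m + 2))) (hv : ‖v‖ = 1) (he : ‖e‖ = 1) (hve : ⟪e, v⟫ = 0) :
    ∫⁻ f : Metric.sphere (0 : EuclideanSpace ℝ (Fin (2 * m + 2))) 1,
      ENNReal.ofReal (Real.sqrt (gram (iot x0 V e0 p (f : EuclideanSpace ℝ (Fin (2 * m + 2))))).det)
        ∂((volume : Measure (EuclideanSpace ℝ (Fin (2 * m + 2)))).toSphere) ≤
      ENNReal.ofReal (Real.sqrt (1 + gram p).det) *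
      ∫⁻ f : Metric.sphere (0 : EuclideanSpace ℝ (Fin (2 * m + 2))) 1,
        ENNReal.ofReal (|⟪(f : EuclideanSpace ℝ (Fin (2 * m + 2))), v⟫| ^ (2 * m - 1) *
          Real.sqrt (1 - ⟪(f : EuclideanSpace ℝ (Fin (2 * m + 2))), e⟫ ^ 2))
        ∂((volume : Measure (EuclideanSpace ℝ (Fin (2 * m + 2)))).toSphere) := by
  
  obtain ⟨C, hC0, hCt, hC⟩ := sphere_gauss (2 * m + 2) (2 * m) (by omega)
  have hfr : Module.finrank ℝ (EuclideanSpace ℝ (Fin (2 * m + 2))) = 2 * m + 2 :=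
    finrank_euclideanSpace_fin
  have hG := star_gauss hm hfr x0 V hx0 hV hxV e0 p he0 he0x he0V hp v e hv he hve
  rw [hC (fun f => ENNReal.ofReal (Real.sqrt (gram (iot x0 V e0 p f)).det))
      (ENNReal.continuous_ofReal.comp (star_sphere_h2 x0 V e0 p)).measurable
      (fun r hr f => by
        rw [star_sphere_h1 x0 V e0 p f r hr, ENNReal.ofReal_mul (by positivity)]),
    hC (fun f => ENNReal.ofReal (|⟪f, v⟫| ^ (2 * m - 1) * Real.sqrt (‖f‖ ^ 2 - ⟪f, e⟫ ^ 2)))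
      (Continuous.measurable (ENNReal.continuous_ofReal.comp (by fun_prop)))
      (fun r hr f => by
        rw [star_sphere_h3 (by omega) v e f r hr, ENNReal.ofReal_mul (by positivity)])] at hG
  have e1 : ∀ a b : ℝ≥0∞, a * (C * b) = C * (a * b) := fun a b => by ring
  rw [e1, ENNReal.mul_le_mul_iff_right hC0 hCt] at hG
  refine hG.trans (le_of_eq ?_)
  congr 1
  refine lintegral_congr fun f => ?_
  have hf : ‖(f : EuclideanSpace ℝ (Fin (2 * m + 2)))‖ = 1 := by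
    have := f.2
    simpa using this
  rw [hf, one_pow]

end Pool.Agent.Helper971.OS
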