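import Pool.Agent.Helper971.OS.Defs
import Pool.Agent.Helper971.OS.P_star_sphere
import Pool.Agent.Helper971.OS.P_br_basis
import Pool.Agent.Helper971.OS.P_br_TT
import Pool.Agent.Helper971.OS.P_br_one

/-!
Volume of unit vector fields on odd spheres, Stage 2: the pointwise inequality for large `N`.
-/

open MeasureTheory ProbabilityTheory Matrix
open scoped RealInnerProductSpace ENNReal BigOperators

namespace Pool.Agent.Helper971.OS



theorem star_all (m : ℕ) (hm : 150000 ≤ m) : Star (2 * m) := by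
  intro x v B hx hv hxv hBx hxB hvB
  have inn : ∀ a b : EuclideanSpace ℝ (Fin (2 * m + 2)), ⟪a, b⟫ = a.ofLp ⬝ᵥ b.ofLp := by
    intro a b
    rw [EuclideanSpace.inner_eq_star_dotProduct, star_trivial, dotProduct_comm]
  have nrm : ∀ a : EuclideanSpace ℝ (Fin (2 * m + 2)), a.ofLp ⬝ᵥ a.ofLp = 1 → ‖a‖ = 1 := by
    intro a ha
    rw [← inn, real_inner_self_eq_norm_sq] at ha
    have h0 := norm_nonneg a
    nlinarith
  have nX : ‖(WithLp.toLp 2 x : EuclideanSpace ℝ (Fin (2 * m + 2)))‖ = 1 := nrm _ hx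
  have nV : ‖(WithLp.toLp 2 v : EuclideanSpace ℝ (Fin (2 * m + 2)))‖ = 1 := nrm _ hv
  have hXV : ⟪(WithLp.toLp 2 x : EuclideanSpace ℝ (Fin (2 * m + 2))), WithLp.toLp 2 v⟫ = 0 := by
    rw [inn]
    exact hxv
  obtain ⟨b, b0, b1⟩ := br_basis _ _ nX nV hXV
  have e0 : (b 0).ofLp = x := by rw [b0]
  have e1 : (b 1).ofLp = v := by rw [b1]
  have h1 : (b 0).ofLp ᵥ* B = 0 := by rw [e0]; exact hxB
  have h2 : (b 1).ofLp ᵥ* B = 0 := by rw [e1]; exact hvB
  have ons := b.orthonormal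
  have hss : ∀ i : Fin (2 * m), Fin.succ (Fin.succ i) ≠ (0 : Fin (2 * m + 2)) := fun i =>
    Fin.succ_ne_zero _
  have hss1 : ∀ i : Fin (2 * m), Fin.succ (Fin.succ i) ≠ (1 : Fin (2 * m + 2)) := by
    intro i h
    have := congrArg Fin.val h
    simp at this
  have key := star_sphere hm (b 0) (b 1) (ons.1 0) (ons.1 1) (ons.2 (by simp))
    (fun i : Fin (2 * m) => b (Fin.succ (Fin.succ i)))
    (fun i : Fin (2 * m) => WithLp.toLp 2 ((b (Fin.succ (Fin.succ i))).ofLp ᵥ* B))
    (ons.comp _ (fun i j hij => Fin.succ_injective _ (Fin.succ_injective _ hij)))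
    (fun i => ons.2 (hss i)) (fun i => ons.2 (hss1 i))
    (fun i => by
      rw [inn]
      show ((b (Fin.succ (Fin.succ i))).ofLp ᵥ* B) ⬝ᵥ (b 0).ofLp = 0
      rw [← dotProduct_mulVec, e0, hBx, dotProduct_zero])
    (EuclideanSpace.single 0 1) (EuclideanSpace.single 1 1) (by simp) (by simp)
    (by simp [EuclideanSpace.inner_single_right])
  have hL : ∀ f : EuclideanSpace ℝ (Fin (2 * m + 2)), JJ x v B f.ofLp =
      Real.sqrt (gram (iot (b 0) (b 1) (fun i : Fin (2 * m) => b (Fin.succ (Fin.succ i)))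
        (fun i : Fin (2 * m) => WithLp.toLp 2 ((b (Fin.succ (Fin.succ i))).ofLp ᵥ* B)) f)).det := by
    intro f
    have := br_TT b B h1 h2 f
    rw [e0, e1] at this
    rw [this]
  have hD := br_one b B h1 h2
  rw [hD]
  unfold cN
  simp only [hL]
  refine key.trans (le_of_eq ?_)
  congr 1
  refine lintegral_congr (fun f => ?_)
  simp [EuclideanSpace.inner_single_right]

end Pool.Agent.Helper971.OS
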