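import Pool.Agent.Helper971.OS.Defs
import Pool.Agent.Helper971.OS.P_tr_upper
import Pool.Agent.Helper971.OS.P_FF_chernoff
import Pool.Agent.Helper971.OS.P_gauss_w
import Pool.Agent.Helper971.OS.P_gauss_t
import Pool.Agent.Helper971.OS.P_mm_lower
import Pool.Agent.Helper971.OS.Q_num_final

/-!
Volume of unit vector fields on odd spheres, Stage 2: the pointwise inequality for large `N`.
-/

open MeasureTheory ProbabilityTheory Matrix
open scoped RealInnerProductSpace ENNReal BigOperators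

namespace Pool.Agent.Helper971.OS



theorem large_delta_f {E : Type*} [NormedAddCommGroup E] [InnerProductSpace ℝ E]
    [FiniteDimensional ℝ E] [MeasurableSpace E] [BorelSpace E] {m : ℕ} (hm : 150000 ≤ m)
    (hE : Module.finrank ℝ E = 2 * m + 1)
    {c s : Fin (2 * m) → ℝ} {q g : Fin (2 * m) → E} {x e : E} (h : NF (2 * m) c s q g x e)
    (hd0 : ((2 * m : ℕ) : ℝ) / 3072 ≤ dl s) (hd : dl s ≤ ((2 * m : ℕ) : ℝ) / 2) :
    ∫⁻ w, ∫⁻ t, ENNReal.ofReal (FF c s q g x t w) ∂(gaussianReal 0 1) ∂(stdGaussian E) ≤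
      ENNReal.ofReal (1 / 2) *
      ∫⁻ w, ∫⁻ t, ENNReal.ofReal (phi (2 * m) (t ^ 2 + r2 q w) (t ^ 2) 0)
        ∂(gaussianReal 0 1) ∂(stdGaussian E) := by
  obtain ⟨X, hX⟩ : ∃ X : ℝ, X = ((2 * m : ℕ) : ℝ) * (1 - 1 / 6144) := ⟨_, rfl⟩
  have hmR : (150000 : ℝ) ≤ m := by exact_mod_cast hm
  have hN : ((2 * m : ℕ) : ℝ) = 2 * (m : ℝ) := by push_cast; ring
  have hN0 : (0 : ℝ) < ((2 * m : ℕ) : ℝ) := by rw [hN]; linarith
  have hX0 : 0 < X := by
    rw [hX]
    refine mul_pos hN0 (by norm_num)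
  have hdl0 : 0 ≤ dl s := Finset.sum_nonneg fun j _ => sq_nonneg _
  obtain ⟨κ, hκ⟩ : ∃ κ : ℝ, κ = X ^ m * Real.exp (-(m : ℝ)) := ⟨_, rfl⟩
  have hκ0 : 0 ≤ κ := by rw [hκ]; positivity
  have hpt : ∀ (w : E) (t : ℝ), ENNReal.ofReal (FF c s q g x t w) ≤
      (ENNReal.ofReal κ * ENNReal.ofReal
        (Real.exp ((dl s * ⟪w, x⟫ ^ 2 + 3 * ‖w‖ ^ 2) / (2 * X)))) *
      ENNReal.ofReal (Real.exp ((((2 * m : ℕ) : ℝ) - dl s + 1) * t ^ 2 / (2 * X))) := by
    intro w t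
    rw [← ENNReal.ofReal_mul hκ0, ← ENNReal.ofReal_mul (by positivity)]
    refine ENNReal.ofReal_le_ofReal ?_
    refine (FF_chernoff c s q g x t w X hX0).trans ?_
    rw [← hκ, mul_assoc κ, ← Real.exp_add]
    refine mul_le_mul_of_nonneg_left (Real.exp_le_exp.2 ?_) hκ0
    rw [← add_div]
    refine div_le_div_of_nonneg_right ?_ (by positivity)
    have := tr_upper h t w
    linarith
  have h1 : ∀ w : E, ∫⁻ t, ENNReal.ofReal (FF c s q g x t w) ∂(gaussianReal 0 1) ≤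
      (ENNReal.ofReal κ * ENNReal.ofReal 120) * ENNReal.ofReal
        (Real.exp ((dl s * ⟪w, x⟫ ^ 2 + 3 * ‖w‖ ^ 2) / (2 * X))) := by
    intro w
    refine (lintegral_mono (hpt w)).trans ?_
    rw [lintegral_const_mul' _ _ (ENNReal.mul_ne_top ENNReal.ofReal_ne_top ENNReal.ofReal_ne_top)]
    have h2 := gauss_t (2 * m) (by omega) (dl s) X hd0 hd hX
    calc _ ≤ (ENNReal.ofReal κ * ENNReal.ofReal
        (Real.exp ((dl s * ⟪w, x⟫ ^ 2 + 3 * ‖w‖ ^ 2) / (2 * X)))) * ENNReal.ofReal 120 :=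
          mul_le_mul_right h2 _
      _ = _ := by ring
  refine (lintegral_mono h1).trans ?_
  rw [lintegral_const_mul' _ _ (ENNReal.mul_ne_top ENNReal.ofReal_ne_top ENNReal.ofReal_ne_top)]
  have h3 := gauss_w (N := 2 * m) (by omega) hE x h.hx (dl s) X hdl0 hd (by
    rw [hX]
    nlinarith)
  have h4 : ENNReal.ofReal κ * ENNReal.ofReal 120 * ENNReal.ofReal 20 ≤
      ENNReal.ofReal (1 / 2) * mm (2 * m) := by
    refine le_trans ?_ (mul_le_mul_right (mm_lower m (by omega)) _)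
    rw [← ENNReal.ofReal_mul hκ0, ← ENNReal.ofReal_mul (by positivity),
      ← ENNReal.ofReal_mul (by norm_num)]
    refine ENNReal.ofReal_le_ofReal ?_
    have h5 := num_final2 m hm
    have h6 : X = 2 * (m : ℝ) * (1 - 1 / 6144) := by rw [hX, hN]
    rw [← h6] at h5
    rw [hκ]
    have h7 := mul_le_mul_of_nonneg_right h5 (Real.exp_pos (-(m : ℝ))).le
    calc X ^ m * Real.exp (-(m : ℝ)) * 120 * 20 =
        1 / 2 * (4800 * X ^ m * Real.exp (-(m : ℝ))) := by ring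
      _ ≤ _ := mul_le_mul_of_nonneg_left h7 (by norm_num)
  have h5 : ∀ w : E, mm (2 * m) ≤
      ∫⁻ t, ENNReal.ofReal (phi (2 * m) (t ^ 2 + r2 q w) (t ^ 2) 0) ∂(gaussianReal 0 1) := by
    intro w
    refine lintegral_mono fun t => ENNReal.ofReal_le_ofReal ?_
    have hr : 0 ≤ r2 q w := Finset.sum_nonneg fun j _ => sq_nonneg _
    unfold phi
    rw [add_zero, add_zero, Real.sqrt_sq_eq_abs]
    have h8 : |t| ≤ Real.sqrt (t ^ 2 + r2 q w) := by
      rw [← Real.sqrt_sq_eq_abs]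
      exact Real.sqrt_le_sqrt (by linarith)
    calc |t| ^ (2 * m) = |t| * |t| ^ (2 * m - 1) := by
          rw [← pow_succ']
          congr 1
          omega
      _ ≤ _ := mul_le_mul_of_nonneg_right h8 (by positivity)
  calc ENNReal.ofReal κ * ENNReal.ofReal 120 * ∫⁻ w, ENNReal.ofReal
        (Real.exp ((dl s * ⟪w, x⟫ ^ 2 + 3 * ‖w‖ ^ 2) / (2 * X))) ∂(stdGaussian E)
      ≤ ENNReal.ofReal κ * ENNReal.ofReal 120 * ENNReal.ofReal 20 := mul_le_mul_right h3 _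
    _ ≤ ENNReal.ofReal (1 / 2) * mm (2 * m) := h4
    _ = ENNReal.ofReal (1 / 2) * ∫⁻ _w : E, mm (2 * m) ∂(stdGaussian E) := by
        rw [lintegral_const, measure_univ, mul_one]
    _ ≤ _ := mul_le_mul_right (lintegral_mono h5) _

end Pool.Agent.Helper971.OS
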