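import Pool.Agent.Helper971.OS.Defs
import Pool.Agent.Helper971.OS.P_FF_avg
import Pool.Agent.Helper971.OS.P_phi_jensen
import Pool.Agent.Helper971.OS.P_phi_int
import Pool.Agent.Helper971.OS.P_ae_L2

/-!
Volume of unit vector fields on odd spheres, Stage 2: the pointwise inequality for large `N`.
-/

open MeasureTheory ProbabilityTheory Matrix
open scoped RealInnerProductSpace ENNReal BigOperators

namespace Pool.Agent.Helper971.OS



theorem small_delta_f {E : Type*} [NormedAddCommGroup E] [InnerProductSpace ℝ E]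
    [FiniteDimensional ℝ E] [MeasurableSpace E] [BorelSpace E] {N : ℕ} (hN : 30720 ≤ N)
    (hE : Even N) {c s : Fin N → ℝ} {q g : Fin N → E} {x e : E} (h : NF N c s q g x e)
    (hd : dl s ≤ (N : ℝ) / 3072) :
    ∫⁻ w, ∫⁻ t, ENNReal.ofReal (FF c s q g x t w) ∂(gaussianReal 0 1) ∂(stdGaussian E) ≤
      ENNReal.ofReal (Real.exp (-(dl s) / 2) * (1 + dl s / 2)) *
      ∫⁻ w, ∫⁻ t, ENNReal.ofReal (phi N (t ^ 2 + r2 q w) (t ^ 2) 0)
        ∂(gaussianReal 0 1) ∂(stdGaussian E) := by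
  classical
  haveI hna : NullSingletonClass (gaussianReal 0 1) := nullSingletonClass_gaussianReal one_ne_zero
  have hN1 : (30720:ℝ) ≤ N := by exact_mod_cast hN
  have hN0 : (0:ℝ) < N := by linarith
  have hD0 : 0 ≤ dl s := Finset.sum_nonneg (fun j _ => sq_nonneg _)
  have hr2 : ∀ w : E, 0 ≤ r2 q w := fun w => Finset.sum_nonneg (fun j _ => sq_nonneg _)
  have hphi0 : ∀ A B y : ℝ, 0 ≤ phi N A B y := fun A B y =>
    mul_nonneg (Real.sqrt_nonneg _) (pow_nonneg (Real.sqrt_nonneg _) _)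
  have hFF0 : ∀ (t : ℝ) (w : E), 0 ≤ FF c s q g x t w := fun t w => Real.sqrt_nonneg _
  obtain ⟨P0, hP0⟩ : ∃ P0 : E → ℝ → ℝ≥0∞, P0 = fun w t =>
    ENNReal.ofReal (phi N (t ^ 2 + r2 q w) (t ^ 2) 0) := ⟨_, rfl⟩
  obtain ⟨Pj, hPj⟩ : ∃ Pj : Fin N → E → ℝ → ℝ≥0∞, Pj = fun j w t =>
    ENNReal.ofReal (phi N (t ^ 2 + r2 q w) (t ^ 2)
      (1 / 24 * (⟪w, x⟫ ^ 2 + ⟪w, g j⟫ ^ 2 + ⟪w, e⟫ ^ 2))) := ⟨_, rfl⟩
  obtain ⟨θ, hθ⟩ : ∃ θ : Fin N → ℝ, θ = fun j => s j ^ 2 * 3072 / N := ⟨_, rfl⟩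
  have hθ0 : ∀ j, 0 ≤ θ j := by
    intro j
    rw [hθ]
    positivity
  have hmP0 : Measurable (fun p : E × ℝ => P0 p.1 p.2) := by
    rw [hP0]
    apply Measurable.ennreal_ofReal
    apply Continuous.measurable
    unfold phi r2
    fun_prop
  have hmPj : ∀ j, Measurable (fun p : E × ℝ => Pj j p.1 p.2) := by
    intro j
    rw [hPj]
    apply Measurable.ennreal_ofReal
    apply Continuous.measurable
    unfold phi r2
    fun_prop
  have hmP0' : ∀ w, Measurable (P0 w) := fun w => hmP0.comp measurable_prodMk_left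
  have hmPj' : ∀ j w, Measurable (Pj j w) := fun j w => (hmPj j).comp measurable_prodMk_left
  have key : ∀ w, 0 < L2 c q w →
      ∫⁻ t, ENNReal.ofReal (FF c s q g x t w) ∂(gaussianReal 0 1) ≤
      ENNReal.ofReal (Real.exp (-(dl s) / 2)) * (∫⁻ t, P0 w t ∂(gaussianReal 0 1) +
        ∑ j, ENNReal.ofReal (θ j) * ∫⁻ t, Pj j w t ∂(gaussianReal 0 1)) := by
    intro w hw
    have hsym : ∫⁻ t, ENNReal.ofReal (FF c s q g x (-t) w) ∂(gaussianReal 0 1) =
        ∫⁻ t, ENNReal.ofReal (FF c s q g x t w) ∂(gaussianReal 0 1) := by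
      have h1 : (gaussianReal 0 1).map (MeasurableEquiv.neg ℝ) = gaussianReal 0 1 := by
        have := gaussianReal_map_neg (μ := 0) (v := 1)
        rw [neg_zero] at this
        exact this
      have h2 := lintegral_map_equiv (μ := gaussianReal 0 1)
        (fun t => ENNReal.ofReal (FF c s q g x t w)) (MeasurableEquiv.neg ℝ)
      rw [h1] at h2
      exact h2.symm
    have h2 : ∀ᵐ t ∂(gaussianReal 0 1), ENNReal.ofReal (FF c s q g x t w) +
        ENNReal.ofReal (FF c s q g x (-t) w) ≤ 2 * (ENNReal.ofReal (Real.exp (-(dl s) / 2)) *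
          (P0 w t + ∑ j, ENNReal.ofReal (θ j) * Pj j w t)) := by
      have hne : ∀ᵐ t ∂(gaussianReal 0 1), t ≠ (0:ℝ) :=
        compl_mem_ae_iff.mpr (measure_singleton 0)
      filter_upwards [hne] with t ht
      have h3 := FF_avg (by omega) h t ht w hw (by linarith)
      have h4 := phi_jensen (by omega) hE s g x e w (t ^ 2 + r2 q w) (t ^ 2) (sq_nonneg t)
        (by linarith [hr2 w]) hd
      rw [← ENNReal.ofReal_add (hFF0 t w) (hFF0 (-t) w)]
      have h5 : P0 w t + ∑ j, ENNReal.ofReal (θ j) * Pj j w t =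
          ENNReal.ofReal (phi N (t ^ 2 + r2 q w) (t ^ 2) 0 + ∑ j, (s j ^ 2 * 3072 / N) *
            phi N (t ^ 2 + r2 q w) (t ^ 2)
              (1 / 24 * (⟪w, x⟫ ^ 2 + ⟪w, g j⟫ ^ 2 + ⟪w, e⟫ ^ 2))) := by
        have hnn : ∀ j, 0 ≤ (s j ^ 2 * 3072 / N) * phi N (t ^ 2 + r2 q w) (t ^ 2)
              (1 / 24 * (⟪w, x⟫ ^ 2 + ⟪w, g j⟫ ^ 2 + ⟪w, e⟫ ^ 2)) := fun j =>
          mul_nonneg (by positivity) (hphi0 _ _ _)
        rw [ENNReal.ofReal_add (hphi0 _ _ _) (Finset.sum_nonneg (fun j _ => hnn j)),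
          ENNReal.ofReal_sum_of_nonneg (fun j _ => hnn j), hP0, hPj, hθ]
        congr 1
        apply Finset.sum_congr rfl
        intro j _
        rw [ENNReal.ofReal_mul (by positivity)]
      rw [h5, ← ENNReal.ofReal_mul (Real.exp_nonneg _)]
      have h2' : (2 : ℝ≥0∞) = ENNReal.ofReal 2 := by simp
      rw [h2', ← ENNReal.ofReal_mul (by norm_num)]
      apply ENNReal.ofReal_le_ofReal
      refine h3.trans ?_
      have h6 : 0 ≤ Real.exp (-(dl s) / 2) := Real.exp_nonneg _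
      have h7 := mul_le_mul_of_nonneg_left h4 h6
      linarith
    have h6 : 2 * ∫⁻ t, ENNReal.ofReal (FF c s q g x t w) ∂(gaussianReal 0 1) ≤
        2 * (ENNReal.ofReal (Real.exp (-(dl s) / 2)) * (∫⁻ t, P0 w t ∂(gaussianReal 0 1) +
        ∑ j, ENNReal.ofReal (θ j) * ∫⁻ t, Pj j w t ∂(gaussianReal 0 1))) := by
      calc 2 * ∫⁻ t, ENNReal.ofReal (FF c s q g x t w) ∂(gaussianReal 0 1)
          = ∫⁻ t, ENNReal.ofReal (FF c s q g x t w) ∂(gaussianReal 0 1) +
            ∫⁻ t, ENNReal.ofReal (FF c s q g x (-t) w) ∂(gaussianReal 0 1) := by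
            rw [hsym, two_mul]
        _ ≤ ∫⁻ t, (ENNReal.ofReal (FF c s q g x t w) + ENNReal.ofReal (FF c s q g x (-t) w))
            ∂(gaussianReal 0 1) := le_lintegral_add _ _
        _ ≤ ∫⁻ t, 2 * (ENNReal.ofReal (Real.exp (-(dl s) / 2)) *
          (P0 w t + ∑ j, ENNReal.ofReal (θ j) * Pj j w t)) ∂(gaussianReal 0 1) :=
            lintegral_mono_ae h2
        _ = 2 * (ENNReal.ofReal (Real.exp (-(dl s) / 2)) * (∫⁻ t, P0 w t ∂(gaussianReal 0 1) +
        ∑ j, ENNReal.ofReal (θ j) * ∫⁻ t, Pj j w t ∂(gaussianReal 0 1))) := by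
            rw [lintegral_const_mul' _ _ (by simp), lintegral_const_mul' _ _ ENNReal.ofReal_ne_top,
              lintegral_add_left (hmP0' w), lintegral_finsetSum _
                (fun j _ => (hmPj' j w).const_mul _)]
            congr 3
            apply Finset.sum_congr rfl
            intro j _
            rw [lintegral_const_mul' _ _ ENNReal.ofReal_ne_top]
    exact (ENNReal.mul_le_mul_iff_right (by norm_num) (by norm_num)).mp h6
  have hmI0 : Measurable (fun w => ∫⁻ t, P0 w t ∂(gaussianReal 0 1)) :=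
    Measurable.lintegral_prod_right' (f := fun p : E × ℝ => P0 p.1 p.2) hmP0
  have hmIj : ∀ j, Measurable (fun w => ∫⁻ t, Pj j w t ∂(gaussianReal 0 1)) := fun j =>
    Measurable.lintegral_prod_right' (f := fun p : E × ℝ => Pj j p.1 p.2) (hmPj j)
  obtain ⟨I0, hI0⟩ : ∃ I0 : ℝ≥0∞, I0 = ∫⁻ w, ∫⁻ t, P0 w t ∂(gaussianReal 0 1) ∂(stdGaussian E) :=
    ⟨_, rfl⟩
  have hgoal : ∫⁻ w, ∫⁻ t, ENNReal.ofReal (phi N (t ^ 2 + r2 q w) (t ^ 2) 0)
        ∂(gaussianReal 0 1) ∂(stdGaussian E) = I0 := by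
    rw [hI0, hP0]
  rw [hgoal]
  have hIj : ∀ j, ∫⁻ w, ∫⁻ t, Pj j w t ∂(gaussianReal 0 1) ∂(stdGaussian E) ≤ 5 * I0 := by
    intro j
    have h1 := phi_int (by omega) hE q h.q_on x (g j) e h.hx (h.g_on.1 j) h.he
    rw [hgoal] at h1
    rw [hPj]
    exact h1
  have hsum : ∑ j, θ j * 5 ≤ dl s / 2 := by
    have h1 : ∑ j, θ j * 5 = dl s * (15360 / N) := by
      rw [hθ]
      unfold dl
      rw [Finset.sum_mul]
      apply Finset.sum_congr rfl
      intro j _
      ring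
    rw [h1]
    have h2 : (15360:ℝ) / N ≤ 1 / 2 := by
      rw [div_le_div_iff₀ hN0 (by norm_num)]
      linarith
    have h3 := mul_le_mul_of_nonneg_left h2 hD0
    linarith
  have hexp : Real.exp (-(dl s) / 2) * (1 + ∑ j, θ j * 5) ≤
      Real.exp (-(dl s) / 2) * (1 + dl s / 2) :=
    mul_le_mul_of_nonneg_left (by linarith) (Real.exp_nonneg _)
  calc ∫⁻ w, ∫⁻ t, ENNReal.ofReal (FF c s q g x t w) ∂(gaussianReal 0 1) ∂(stdGaussian E)
      ≤ ∫⁻ w, (ENNReal.ofReal (Real.exp (-(dl s) / 2)) * (∫⁻ t, P0 w t ∂(gaussianReal 0 1) +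
        ∑ j, ENNReal.ofReal (θ j) * ∫⁻ t, Pj j w t ∂(gaussianReal 0 1))) ∂(stdGaussian E) :=
        lintegral_mono_ae ((ae_L2 h (by linarith)).mono key)
    _ = ENNReal.ofReal (Real.exp (-(dl s) / 2)) * (I0 + ∑ j, ENNReal.ofReal (θ j) *
          ∫⁻ w, ∫⁻ t, Pj j w t ∂(gaussianReal 0 1) ∂(stdGaussian E)) := by
        rw [lintegral_const_mul' _ _ ENNReal.ofReal_ne_top, lintegral_add_left hmI0,
          lintegral_finsetSum _ (fun j _ => (hmIj j).const_mul _), ← hI0]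
        congr 2
        apply Finset.sum_congr rfl
        intro j _
        rw [lintegral_const_mul' _ _ ENNReal.ofReal_ne_top]
    _ ≤ ENNReal.ofReal (Real.exp (-(dl s) / 2)) * (I0 + ∑ j, ENNReal.ofReal (θ j) * (5 * I0)) := by
        gcongr with j _
        exact hIj j
    _ = ENNReal.ofReal (Real.exp (-(dl s) / 2) * (1 + ∑ j, θ j * 5)) * I0 := by
        rw [ENNReal.ofReal_mul (Real.exp_nonneg _), ENNReal.ofReal_add zero_le_one
          (Finset.sum_nonneg (fun j _ => mul_nonneg (hθ0 j) (by norm_num))),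
          ENNReal.ofReal_sum_of_nonneg (fun j _ => mul_nonneg (hθ0 j) (by norm_num)),
          ENNReal.ofReal_one, mul_assoc, add_mul, one_mul, Finset.sum_mul]
        congr 3
        funext j
        rw [ENNReal.ofReal_mul (hθ0 j), mul_assoc]
        congr 2
        simp
    _ ≤ ENNReal.ofReal (Real.exp (-(dl s) / 2) * (1 + dl s / 2)) * I0 := by
        gcongr

end Pool.Agent.Helper971.OS
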