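import Pool.Agent.Helper971.OS.Defs
import Pool.Agent.Helper971.OS.Q_small_delta
import Pool.Agent.Helper971.OS.Q_large_delta

open MeasureTheory ProbabilityTheory Matrix
open scoped RealInnerProductSpace ENNReal BigOperators

namespace Pool.Agent.Helper971.OS

theorem core_f {E : Type*} [NormedAddCommGroup E] [InnerProductSpace ℝ E]
    [FiniteDimensional ℝ E] [MeasurableSpace E] [BorelSpace E] {m : ℕ} (hm : 150000 ≤ m)
    (hE : Module.finrank ℝ E = 2 * m + 1)
    {c s : Fin (2 * m) → ℝ} {q g : Fin (2 * m) → E} {x e : E} (h : NF (2 * m) c s q g x e)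
    (hd : dl s ≤ ((2 * m : ℕ) : ℝ) / 2) :
    ∃ κ : ℝ, 0 ≤ κ ∧ κ ≤ 1 ∧ (κ = 1 → dl s = 0) ∧
    ∫⁻ w, ∫⁻ t, ENNReal.ofReal (FF c s q g x t w) ∂(gaussianReal 0 1) ∂(stdGaussian E) ≤
      ENNReal.ofReal κ * ∫⁻ w, ∫⁻ t, ENNReal.ofReal (phi (2 * m) (t ^ 2 + r2 q w) (t ^ 2) 0)
        ∂(gaussianReal 0 1) ∂(stdGaussian E) := by
  have hdl0 : 0 ≤ dl s := Finset.sum_nonneg fun j _ => sq_nonneg _
  by_cases hc : dl s ≤ ((2 * m : ℕ) : ℝ) / 3072
  · refine ⟨Real.exp (-(dl s) / 2) * (1 + dl s / 2), by positivity, ?_, ?_,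
      small_delta_f (by omega) (even_two_mul m) h hc⟩
    · have h1 := Real.add_one_le_exp (dl s / 2)
      calc Real.exp (-(dl s) / 2) * (1 + dl s / 2) ≤
          Real.exp (-(dl s) / 2) * Real.exp (dl s / 2) :=
            mul_le_mul_of_nonneg_left (by linarith) (Real.exp_nonneg _)
        _ = 1 := by rw [← Real.exp_add, show -(dl s) / 2 + dl s / 2 = 0 by ring, Real.exp_zero]
    · intro h1
      by_contra h2
      have h3 := Real.add_one_lt_exp (x := dl s / 2) (by positivity)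
      have h4 : Real.exp (-(dl s) / 2) * (1 + dl s / 2) <
          Real.exp (-(dl s) / 2) * Real.exp (dl s / 2) :=
        mul_lt_mul_of_pos_left (by linarith) (Real.exp_pos _)
      rw [← Real.exp_add, show -(dl s) / 2 + dl s / 2 = 0 by ring, Real.exp_zero] at h4
      linarith
  · exact ⟨1 / 2, by norm_num, by norm_num, fun h1 => by norm_num at h1,
      large_delta_f hm hE h (le_of_not_ge hc) hd⟩

end Pool.Agent.Helper971.OS
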