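import Pool.Agent.Helper971.OS.Defs

open MeasureTheory ProbabilityTheory Matrix
open scoped RealInnerProductSpace ENNReal BigOperators

namespace Pool.Agent.Helper971.OS



theorem umb_of_s0 {W : Type*} [NormedAddCommGroup W] [InnerProductSpace ℝ W]
    {N : ℕ} (hN : 2 ≤ N) (x0 V : W) (hx0 : ‖x0‖ = 1) (hV : ‖V‖ = 1)
    (hxV : ⟪x0, V⟫ = 0) (e0 p : Fin N → W) (he0 : Orthonormal ℝ e0)
    (he0x : ∀ i, ⟪e0 i, x0⟫ = 0) (he0V : ∀ i, ⟪e0 i, V⟫ = 0) (hp : ∀ i, ⟪p i, x0⟫ = 0)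
    (v x : W) (hv : ‖v‖ = 1) (T : Matrix (Fin N) (Fin N) ℝ) (c s : Fin N → ℝ) (q g : Fin N → W)
    (hqv : ∀ j, ⟪q j, v⟫ = 0) (hs : ∀ j, s j = 0)
    (h : ∀ f i, iot x0 V e0 p f i = ∑ j, T i j • iob v x c s q g f j) :
    ∃ lam : ℝ, ∀ i j, ⟪p i, e0 j⟫ = if i = j then lam else 0 := by
  set a : Fin N → W := fun i => ∑ j, (T i j * c j) • q j with ha
  have h2 : ∀ f i, ⟪f, x0⟫ • p i - ⟪f, p i⟫ • x0 - ⟪f, V⟫ • e0 i + ⟪f, e0 i⟫ • V =
      ⟪f, v⟫ • a i - ⟪f, a i⟫ • v := by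
    intro f i
    have h3 := h f i
    unfold iot iob at h3
    rw [h3, ha]
    simp only [hs, zero_smul, add_zero, inner_sum, inner_smul_right, Finset.sum_smul,
      Finset.smul_sum, ← Finset.sum_sub_distrib]
    refine Finset.sum_congr rfl fun j _ => ?_
    module
  have hee : ∀ i k, ⟪e0 i, e0 k⟫ = if i = k then (1:ℝ) else 0 := by
    intro i k
    exact (orthonormal_iff_ite.mp he0) i k
  have hVV : ⟪V, V⟫ = (1 : ℝ) := by rw [real_inner_self_eq_norm_sq, hV]; norm_num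
  have hxx : ⟪x0, x0⟫ = (1 : ℝ) := by rw [real_inner_self_eq_norm_sq, hx0]; norm_num
  -- step 1
  have hi0 : (⟨0, by omega⟩ : Fin N) ≠ ⟨1, by omega⟩ := by
    intro h
    simp at h
  have hstep : ∃ f : W, ⟪f, x0⟫ = 0 ∧ ⟪f, V⟫ = 0 ∧ ⟪f, v⟫ = 0 ∧ ∃ i, ⟪f, e0 i⟫ ≠ 0 := by
    by_cases hc : ⟪e0 ⟨0, by omega⟩, v⟫ = 0
    · refine ⟨e0 ⟨0, by omega⟩, he0x _, he0V _, hc, ⟨0, by omega⟩, ?_⟩
      rw [hee, if_pos rfl]
      norm_num
    · refine ⟨⟪e0 ⟨1, by omega⟩, v⟫ • e0 ⟨0, by omega⟩ - ⟪e0 ⟨0, by omega⟩, v⟫ • e0 ⟨1, by omega⟩,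
        ?_, ?_, ?_, ⟨1, by omega⟩, ?_⟩
      · rw [inner_sub_left, inner_smul_left, inner_smul_left, he0x, he0x]
        simp
      · rw [inner_sub_left, inner_smul_left, inner_smul_left, he0V, he0V]
        simp
      · rw [inner_sub_left, inner_smul_left, inner_smul_left]
        simp only [conj_trivial]
        ring
      · rw [inner_sub_left, inner_smul_left, inner_smul_left, hee, hee, if_neg hi0, if_pos rfl]
        simp only [conj_trivial, mul_zero, mul_one, zero_sub, ne_eq, neg_eq_zero]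
        exact hc
  obtain ⟨f, hf1, hf2, hf3, i, hf4⟩ := hstep
  have hvab : ∃ α β : ℝ, v = α • x0 + β • V := by
    have h3 := h2 f i
    rw [hf1, hf2, hf3, zero_smul, zero_smul, zero_smul, zero_sub, sub_zero, zero_sub] at h3
    have h4 : ⟪f, a i⟫ ≠ 0 := by
      intro h5
      rw [h5, zero_smul, neg_zero] at h3
      have h6 := congrArg (fun w => ⟪w, V⟫) h3
      simp only [inner_add_left, inner_neg_left, inner_smul_left, hxV, hVV, inner_zero_left,
        conj_trivial, mul_zero, neg_zero, zero_add, mul_one] at h6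
      exact hf4 h6
    refine ⟨⟪f, p i⟫ / ⟪f, a i⟫, -(⟪f, e0 i⟫ / ⟪f, a i⟫), ?_⟩
    have h7 : ⟪f, a i⟫ • v = ⟪f, p i⟫ • x0 - ⟪f, e0 i⟫ • V := by
      have := congrArg (fun w => -w) h3
      simp only [neg_neg] at this
      rw [← this]
      module
    have h8 : v = (⟪f, a i⟫)⁻¹ • (⟪f, a i⟫ • v) := by
      rw [smul_smul, inv_mul_cancel₀ h4, one_smul]
    rw [h8, h7, smul_sub, smul_smul, smul_smul]
    rw [div_eq_inv_mul, div_eq_inv_mul]
    module
  obtain ⟨α, β, hv2⟩ := hvab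
  have hev : ∀ k, ⟪e0 k, v⟫ = 0 := by
    intro k
    rw [hv2, inner_add_right, inner_smul_right, inner_smul_right, he0x, he0V]
    simp
  have hkey : ∀ i k, (⟪e0 k, e0 i⟫ : ℝ) = -(⟪e0 k, a i⟫ * β) ∧ ⟪e0 k, p i⟫ = ⟪e0 k, a i⟫ * α := by
    intro i k
    have h3 := h2 (e0 k) i
    rw [he0x, he0V, hev, zero_smul, zero_smul, zero_smul, zero_sub, sub_zero, zero_sub] at h3
    rw [hv2] at h3
    constructor
    · have h6 := congrArg (fun w => ⟪w, V⟫) h3
      simp only [inner_add_left, inner_neg_left, inner_smul_left, hxV, hVV,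
        conj_trivial, mul_zero, neg_zero, zero_add, mul_one] at h6
      exact h6
    · have hVx : ⟪V, x0⟫ = (0 : ℝ) := by rw [real_inner_comm]; exact hxV
      have h6 := congrArg (fun w => ⟪w, x0⟫) h3
      simp only [inner_add_left, inner_neg_left, inner_smul_left, hVx, hxx,
        conj_trivial, mul_zero, add_zero, mul_one] at h6
      linarith
  have hβ : β ≠ 0 := by
    intro hb
    have h3 := (hkey ⟨0, by omega⟩ ⟨0, by omega⟩).1
    rw [hee, if_pos rfl, hb, mul_zero, neg_zero] at h3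
    norm_num at h3
  refine ⟨-(α / β), ?_⟩
  intro i j
  have h3 := (hkey i j).1
  have h4 := (hkey i j).2
  rw [real_inner_comm, h4]
  rw [hee] at h3
  by_cases hij : i = j
  · subst hij
    rw [if_pos rfl] at h3 ⊢
    have h5 : ⟪e0 i, a i⟫ = -(1 / β) := by
      field_simp
      linarith
    rw [h5]
    ring
  · rw [if_neg hij]
    rw [if_neg (fun h => hij h.symm)] at h3
    have h5 : ⟪e0 j, a i⟫ = 0 := by
      have : ⟪e0 j, a i⟫ * β = 0 := by linarith
      rcases mul_eq_zero.mp this with h | h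
      · exact h
      · exact absurd h hβ
    rw [h5, zero_mul]

end Pool.Agent.Helper971.OS
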