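import Pool.Agent.Helper971.OS.Defs
import Pool.Agent.Helper971.OS.P_nf_W
import Pool.Agent.Helper971.OS.P_nf_U
import Pool.Agent.Helper971.OS.P_gauss_split
import Pool.Agent.Helper971.OS.P_pair_indep
import Pool.Agent.Helper971.OS.Q_core
import Pool.Agent.Helper971.OS.Q_umb
import Pool.Agent.Helper971.OS.P_star_gauss

/-!
Volume of unit vector fields on odd spheres, Stage 2: the pointwise inequality for large `N`.
-/

open MeasureTheory ProbabilityTheory Matrix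
open scoped RealInnerProductSpace ENNReal BigOperators

namespace Pool.Agent.Helper971.OS



theorem star_gauss_f {W : Type*} [NormedAddCommGroup W] [InnerProductSpace ℝ W]
    [FiniteDimensional ℝ W] [MeasurableSpace W] [BorelSpace W] {m : ℕ} (hm : 150000 ≤ m)
    (hW : Module.finrank ℝ W = 2 * m + 2) (x0 V : W) (hx0 : ‖x0‖ = 1) (hV : ‖V‖ = 1)
    (hxV : ⟪x0, V⟫ = 0) (e0 p : Fin (2 * m) → W) (he0 : Orthonormal ℝ e0)
    (he0x : ∀ i, ⟪e0 i, x0⟫ = 0) (he0V : ∀ i, ⟪e0 i, V⟫ = 0) (hp : ∀ i, ⟪p i, x0⟫ = 0)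
    (v e : W) (hv : ‖v‖ = 1) (he : ‖e‖ = 1) (hve : ⟪e, v⟫ = 0) :
    ∃ κ : ℝ, 0 ≤ κ ∧ κ ≤ 1 ∧
      (κ = 1 → ∃ lam : ℝ, ∀ i j, ⟪p i, e0 j⟫ = if i = j then lam else 0) ∧
    ∫⁻ f, ENNReal.ofReal (Real.sqrt (gram (iot x0 V e0 p f)).det) ∂(stdGaussian W) ≤
      ENNReal.ofReal κ * (ENNReal.ofReal (Real.sqrt (1 + gram p).det) *
      ∫⁻ f, ENNReal.ofReal (|⟪f, v⟫| ^ (2 * m - 1) * Real.sqrt (‖f‖ ^ 2 - ⟪f, e⟫ ^ 2))
        ∂(stdGaussian W)) := by
  obtain ⟨v1, x, T, c, s, q, g, e1, hv1, hx1, hxv1, hcs, hq, hg, hqv, hgv, hgx, he1, he1v, hqe,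
    hcr, hs, hT, hio⟩ := nf_W (N := 2 * m) hW x0 V hx0 hV hxV e0 p he0 he0x he0V hp
  obtain ⟨q', g', x', e', hq', hg', hx', he', hNF, hFF⟩ := nf_U (N := 2 * m) hW v1 x c s q g e1
    hv1 hx1 hxv1 hcs hq hg hqv hgv hgx he1 he1v hqe hcr
  have hdet : ∀ f : W, Real.sqrt (gram (iot x0 V e0 p f)).det =
      Real.sqrt (1 + gram p).det * Real.sqrt (gram (iob v1 x c s q g f)).det := by
    intro f
    rw [h939_gram_lin T _ _ (hio f), Matrix.det_mul, Matrix.det_mul, Matrix.det_transpose,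
      ← hT, ← Real.sqrt_mul (sq_nonneg _)]
    congr 1
    ring
  have hG1 : Measurable fun f : W => ENNReal.ofReal (Real.sqrt (gram (iob v1 x c s q g f)).det) :=
    (Real.continuous_sqrt.comp (h939_iob_cont v1 x c s q g)).measurable.ennreal_ofReal
  have hstep1 : ∫⁻ f, ENNReal.ofReal (Real.sqrt (gram (iot x0 V e0 p f)).det) ∂(stdGaussian W) =
      ENNReal.ofReal (Real.sqrt (1 + gram p).det) *
        ∫⁻ f, ENNReal.ofReal (Real.sqrt (gram (iob v1 x c s q g f)).det) ∂(stdGaussian W) := by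
    rw [← lintegral_const_mul _ hG1]
    refine lintegral_congr fun f => ?_
    rw [hdet f, ENNReal.ofReal_mul (Real.sqrt_nonneg _)]
  have hfr : Module.finrank ℝ (ℝ ∙ v1)ᗮ = 2 * m + 1 := by
    have : Fact (Module.finrank ℝ W = 2 * m + 1 + 1) := ⟨hW⟩
    apply Submodule.finrank_orthogonal_span_singleton
    intro h0
    rw [h0, norm_zero] at hv1
    exact zero_ne_one hv1
  obtain ⟨κ, hκ0, hκ1, hκ2, hcore⟩ := core_f (E := (ℝ ∙ v1)ᗮ) hm hfr hNF hs
  refine ⟨κ, hκ0, hκ1, fun hk => ?_, ?_⟩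
  · have hz := hκ2 hk
    unfold dl at hz
    have hz2 : ∀ j, s j = 0 := by
      intro j
      have h5 := (Finset.sum_eq_zero_iff_of_nonneg (fun j _ => sq_nonneg (s j))).1 hz j
        (Finset.mem_univ j)
      exact pow_eq_zero_iff (two_ne_zero) |>.1 h5
    exact umb_of_s0 (by omega) x0 V hx0 hV hxV e0 p he0 he0x he0V hp v1 x hv1 T c s q g hqv hz2 hio
  rw [hstep1, mul_left_comm]
  refine mul_le_mul_right ?_ _
  have hsplit1 := gauss_split v1 hv1 _ hG1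
  have hG2 : Measurable fun f : W =>
      ENNReal.ofReal (|⟪f, v1⟫| ^ (2 * m - 1) * Real.sqrt (‖f‖ ^ 2 - ⟪f, e1⟫ ^ 2)) := by
    have hc : Continuous fun f : W =>
        |⟪f, v1⟫| ^ (2 * m - 1) * Real.sqrt (‖f‖ ^ 2 - ⟪f, e1⟫ ^ 2) := by
      refine Continuous.mul (by fun_prop) (Real.continuous_sqrt.comp (by fun_prop))
    exact hc.measurable.ennreal_ofReal
  have hsplit2 := gauss_split v1 hv1 _ hG2
  have hv1v1 : ⟪v1, v1⟫ = (1 : ℝ) := by rw [real_inner_self_eq_norm_sq, hv1]; norm_num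
  rw [hsplit1, pair_indep (2 * m) v e v1 e1 hv he hve hv1 he1 he1v, hsplit2]
  have hL : ∀ (w : (ℝ ∙ v1)ᗮ) (t : ℝ),
      ENNReal.ofReal (Real.sqrt (gram (iob v1 x c s q g (t • v1 + (w : W)))).det) =
        ENNReal.ofReal (FF c s q' g' x' t w) := by
    intro w t
    rw [hFF t w]
  have hR : ∀ (w : (ℝ ∙ v1)ᗮ) (t : ℝ),
      ENNReal.ofReal (|⟪t • v1 + (w : W), v1⟫| ^ (2 * m - 1) *
        Real.sqrt (‖t • v1 + (w : W)‖ ^ 2 - ⟪t • v1 + (w : W), e1⟫ ^ 2)) =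
        ENNReal.ofReal (phi (2 * m) (t ^ 2 + r2 q' w) (t ^ 2) 0) := by
    intro w t
    have hwv : ⟪(w : W), v1⟫ = 0 := Submodule.mem_orthogonal_singleton_iff_inner_left.1 w.2
    have hvw : ⟪v1, (w : W)⟫ = 0 := by rw [real_inner_comm]; exact hwv
    have hve1 : ⟪v1, e1⟫ = 0 := by rw [real_inner_comm]; exact he1v
    have e2 : ⟪t • v1 + (w : W), v1⟫ = t := by
      rw [inner_add_left, real_inner_smul_left, hv1v1, hwv]; ring
    have e3 : ‖t • v1 + (w : W)‖ ^ 2 = t ^ 2 + ‖(w : W)‖ ^ 2 := by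
      rw [← real_inner_self_eq_norm_sq, inner_add_left, inner_add_right, inner_add_right,
        real_inner_smul_left, real_inner_smul_right, real_inner_smul_left, real_inner_smul_right,
        hv1v1, hwv, hvw, real_inner_self_eq_norm_sq]
      ring
    have e4 : ⟪t • v1 + (w : W), e1⟫ = ⟪w, e'⟫ := by
      rw [inner_add_left, real_inner_smul_left, hve1, Submodule.coe_inner, he']; ring
    have e5 : r2 q' w = ‖(w : W)‖ ^ 2 - ⟪w, e'⟫ ^ 2 := by
      have := hNF.q_full w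
      unfold r2
      rw [Submodule.coe_norm] at this
      linarith
    rw [e2, e3, e4, e5]
    unfold phi
    rw [add_zero, add_zero, Real.sqrt_sq_eq_abs, mul_comm]
    congr 3
    ring
  simp only [hL, hR]
  exact hcore

end Pool.Agent.Helper971.OS
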