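import Pool.Agent.Helper971.OS.Defs
import Pool.Agent.Helper971.OS.Q_star_gauss
import Pool.Agent.Helper971.OS.P_star_sphere
import Pool.Agent.Helper971.OS.P_sphere_gauss

/-!
Volume of unit vector fields on odd spheres, Stage 2: the pointwise inequality for large `N`.
-/

open MeasureTheory ProbabilityTheory Matrix
open scoped RealInnerProductSpace ENNReal BigOperators

namespace Pool.Agent.Helper971.OS



theorem star_sphere_f {m : ℕ} (hm : 150000 ≤ m)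
    (x0 V : EuclideanSpace ℝ (Fin (2 * m + 2))) (hx0 : ‖x0‖ = 1) (hV : ‖V‖ = 1)
    (hxV : ⟪x0, V⟫ = 0) (e0 p : Fin (2 * m) → EuclideanSpace ℝ (Fin (2 * m + 2)))
    (he0 : Orthonormal ℝ e0)
    (he0x : ∀ i, ⟪e0 i, x0⟫ = 0) (he0V : ∀ i, ⟪e0 i, V⟫ = 0) (hp : ∀ i, ⟪p i, x0⟫ = 0)
    (v e : EuclideanSpace ℝ (Fin (2 * m + 2))) (hv : ‖v‖ = 1) (he : ‖e‖ = 1) (hve : ⟪e, v⟫ = 0) :
    ∃ κ : ℝ, 0 ≤ κ ∧ κ ≤ 1 ∧
      (κ = 1 → ∃ lam : ℝ, ∀ i j, ⟪p i, e0 j⟫ = if i = j then lam else 0) ∧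
    ∫⁻ f : Metric.sphere (0 : EuclideanSpace ℝ (Fin (2 * m + 2))) 1,
      ENNReal.ofReal (Real.sqrt (gram (iot x0 V e0 p (f : EuclideanSpace ℝ (Fin (2 * m + 2))))).det)
        ∂((volume : Measure (EuclideanSpace ℝ (Fin (2 * m + 2)))).toSphere) ≤
      ENNReal.ofReal κ * (ENNReal.ofReal (Real.sqrt (1 + gram p).det) *
      ∫⁻ f : Metric.sphere (0 : EuclideanSpace ℝ (Fin (2 * m + 2))) 1,
        ENNReal.ofReal (|⟪(f : EuclideanSpace ℝ (Fin (2 * m + 2))), v⟫| ^ (2 * m - 1) *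
          Real.sqrt (1 - ⟪(f : EuclideanSpace ℝ (Fin (2 * m + 2))), e⟫ ^ 2))
        ∂((volume : Measure (EuclideanSpace ℝ (Fin (2 * m + 2)))).toSphere)) := by
  
  obtain ⟨C, hC0, hCt, hC⟩ := sphere_gauss (2 * m + 2) (2 * m) (by omega)
  have hfr : Module.finrank ℝ (EuclideanSpace ℝ (Fin (2 * m + 2))) = 2 * m + 2 :=
    finrank_euclideanSpace_fin
  obtain ⟨κ, hκ0, hκ1, hκ2, hG⟩ :=
    star_gauss_f hm hfr x0 V hx0 hV hxV e0 p he0 he0x he0V hp v e hv he hve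
  refine ⟨κ, hκ0, hκ1, hκ2, ?_⟩
  rw [hC (fun f => ENNReal.ofReal (Real.sqrt (gram (iot x0 V e0 p f)).det))
      (ENNReal.continuous_ofReal.comp (star_sphere_h2 x0 V e0 p)).measurable
      (fun r hr f => by
        rw [star_sphere_h1 x0 V e0 p f r hr, ENNReal.ofReal_mul (by positivity)]),
    hC (fun f => ENNReal.ofReal (|⟪f, v⟫| ^ (2 * m - 1) * Real.sqrt (‖f‖ ^ 2 - ⟪f, e⟫ ^ 2)))
      (Continuous.measurable (ENNReal.continuous_ofReal.comp (by fun_prop)))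
      (fun r hr f => by
        rw [star_sphere_h3 (by omega) v e f r hr, ENNReal.ofReal_mul (by positivity)])] at hG
  have e1 : ∀ k a b : ℝ≥0∞, k * (a * (C * b)) = C * (k * (a * b)) := fun k a b => by ring
  rw [e1, ENNReal.mul_le_mul_iff_right hC0 hCt] at hG
  refine hG.trans (le_of_eq ?_)
  congr 2
  refine lintegral_congr fun f => ?_
  have hf : ‖(f : EuclideanSpace ℝ (Fin (2 * m + 2)))‖ = 1 := by
    have := f.2
    simpa using this
  rw [hf, one_pow]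

end Pool.Agent.Helper971.OS
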