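import Pool.Agent.Helper971.OS.Defs

open MeasureTheory ProbabilityTheory Matrix
open scoped RealInnerProductSpace ENNReal BigOperators

namespace Pool.Agent.Helper971.OS



theorem umb_mat {N : ℕ} (b : OrthonormalBasis (Fin (N + 2)) ℝ (EuclideanSpace ℝ (Fin (N + 2))))
    (B : Matrix (Fin (N + 2)) (Fin (N + 2)) ℝ) (h1 : (b 0).ofLp ᵥ* B = 0)
    (h2 : (b 1).ofLp ᵥ* B = 0) (lam : ℝ)
    (h : ∀ i j : Fin N, ((b (Fin.succ (Fin.succ i))).ofLp ᵥ* B) ⬝ᵥ (b (Fin.succ (Fin.succ j))).ofLp =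
      if i = j then lam else 0) (k : Fin (N + 2) → ℝ) (hk0 : (b 0).ofLp ⬝ᵥ k = 0)
    (hk1 : (b 1).ofLp ⬝ᵥ k = 0) : B *ᵥ k = lam • k := by
  have hin : ∀ x y : EuclideanSpace ℝ (Fin (N + 2)), inner ℝ x y = x.ofLp ⬝ᵥ y.ofLp := by
    intro x y
    rw [EuclideanSpace.inner_eq_star_dotProduct, dotProduct_comm]
    rfl
  have hexp : ∀ u w : Fin (N + 2) → ℝ, ∑ i, (u ⬝ᵥ (b i).ofLp) * ((b i).ofLp ⬝ᵥ w) = u ⬝ᵥ w := by
    intro u w
    have h3 := b.sum_inner_mul_inner (WithLp.toLp 2 u) (WithLp.toLp 2 w)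
    simp only [hin] at h3
    exact h3
  -- coordinates
  have hco : ∀ i, (b i).ofLp ⬝ᵥ (B *ᵥ k - lam • k) = 0 := by
    intro i
    rw [dotProduct_sub, dotProduct_smul, dotProduct_mulVec]
    refine Fin.cases ?_ (fun i' => ?_) i
    · rw [h1, hk0]
      simp
    · refine Fin.cases ?_ (fun i'' => ?_) i'
      · have e1 : (Fin.succ 0 : Fin (N + 2)) = 1 := rfl
        rw [e1, h2, hk1]
        simp
      · have h4 := hexp ((b (Fin.succ (Fin.succ i''))).ofLp ᵥ* B) k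
        rw [Fin.sum_univ_succ, Fin.sum_univ_succ] at h4
        have e1 : (Fin.succ 0 : Fin (N + 2)) = 1 := rfl
        rw [e1, hk0, hk1, mul_zero, mul_zero, zero_add, zero_add] at h4
        rw [← h4]
        simp only [h]
        simp
  have hz : ∀ u : Fin (N + 2) → ℝ, (∀ i, (b i).ofLp ⬝ᵥ u = 0) → u = 0 := by
    intro u hu
    have h5 := hexp u u
    have h6 : ∑ i, (u ⬝ᵥ (b i).ofLp) * ((b i).ofLp ⬝ᵥ u) = 0 :=
      Finset.sum_eq_zero fun i _ => by rw [hu i, mul_zero]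
    rw [h6] at h5
    exact dotProduct_self_eq_zero.1 h5.symm
  have := hz _ hco
  exact sub_eq_zero.1 this

end Pool.Agent.Helper971.OS
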