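import Pool.Agent.Helper971.OS.Defs
import Pool.Agent.Helper971.OS.Q_star_sphere
import Pool.Agent.Helper971.OS.Q_umb_mat
import Pool.Agent.Helper971.OS.P_br_basis
import Pool.Agent.Helper971.OS.P_br_TT
import Pool.Agent.Helper971.OS.P_br_one

/-!
Volume of unit vector fields on odd spheres, Stage 2: the pointwise inequality for large `N`.
-/

open MeasureTheory ProbabilityTheory Matrix
open scoped RealInnerProductSpace ENNReal BigOperators

namespace Pool.Agent.Helper971.OS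



theorem star_all_f (m : ℕ) (hm : 150000 ≤ m) (x v : Fin (2 * m + 2) → ℝ)
    (B : Matrix (Fin (2 * m + 2)) (Fin (2 * m + 2)) ℝ)
    (hx : x ⬝ᵥ x = 1) (hv : v ⬝ᵥ v = 1) (hxv : x ⬝ᵥ v = 0) (hBx : B *ᵥ x = 0)
    (hxB : x ᵥ* B = 0) (hvB : v ᵥ* B = 0) :
    ∃ κ : ℝ, 0 ≤ κ ∧ κ ≤ 1 ∧ (κ = 1 → ∃ lam : ℝ, ∀ k : Fin (2 * m + 2) → ℝ,
        x ⬝ᵥ k = 0 → v ⬝ᵥ k = 0 → B *ᵥ k = lam • k) ∧
    ∫⁻ f : Metric.sphere (0 : EuclideanSpace ℝ (Fin (2 * m + 2))) 1,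
      ENNReal.ofReal (JJ x v B (f : EuclideanSpace ℝ (Fin (2 * m + 2))).ofLp)
        ∂((volume : Measure (EuclideanSpace ℝ (Fin (2 * m + 2)))).toSphere)
      ≤ ENNReal.ofReal κ * (ENNReal.ofReal (Real.sqrt (1 + B * Bᵀ).det) * cN (2 * m)) := by
  have inn : ∀ a b : EuclideanSpace ℝ (Fin (2 * m + 2)), ⟪a, b⟫ = a.ofLp ⬝ᵥ b.ofLp := by
    intro a b
    rw [EuclideanSpace.inner_eq_star_dotProduct, star_trivial, dotProduct_comm]
  have nrm : ∀ a : EuclideanSpace ℝ (Fin (2 * m + 2)), a.ofLp ⬝ᵥ a.ofLp = 1 → ‖a‖ = 1 := by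
    intro a ha
    rw [← inn, real_inner_self_eq_norm_sq] at ha
    have h0 := norm_nonneg a
    nlinarith
  have nX : ‖(WithLp.toLp 2 x : EuclideanSpace ℝ (Fin (2 * m + 2)))‖ = 1 := nrm _ hx
  have nV : ‖(WithLp.toLp 2 v : EuclideanSpace ℝ (Fin (2 * m + 2)))‖ = 1 := nrm _ hv
  have hXV : ⟪(WithLp.toLp 2 x : EuclideanSpace ℝ (Fin (2 * m + 2))), WithLp.toLp 2 v⟫ = 0 := by
    rw [inn]
    exact hxv
  obtain ⟨b, b0, b1⟩ := br_basis _ _ nX nV hXV
  have e0 : (b 0).ofLp = x := by rw [b0]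
  have e1 : (b 1).ofLp = v := by rw [b1]
  have h1 : (b 0).ofLp ᵥ* B = 0 := by rw [e0]; exact hxB
  have h2 : (b 1).ofLp ᵥ* B = 0 := by rw [e1]; exact hvB
  have ons := b.orthonormal
  have hss : ∀ i : Fin (2 * m), Fin.succ (Fin.succ i) ≠ (0 : Fin (2 * m + 2)) := fun i =>
    Fin.succ_ne_zero _
  have hss1 : ∀ i : Fin (2 * m), Fin.succ (Fin.succ i) ≠ (1 : Fin (2 * m + 2)) := by
    intro i h
    have := congrArg Fin.val h
    simp at this
  obtain ⟨κ, hκ0, hκ1, hκ2, key⟩ := star_sphere_f hm (b 0) (b 1) (ons.1 0) (ons.1 1) (ons.2 (by simp))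
    (fun i : Fin (2 * m) => b (Fin.succ (Fin.succ i)))
    (fun i : Fin (2 * m) => WithLp.toLp 2 ((b (Fin.succ (Fin.succ i))).ofLp ᵥ* B))
    (ons.comp _ (fun i j hij => Fin.succ_injective _ (Fin.succ_injective _ hij)))
    (fun i => ons.2 (hss i)) (fun i => ons.2 (hss1 i))
    (fun i => by
      rw [inn]
      show ((b (Fin.succ (Fin.succ i))).ofLp ᵥ* B) ⬝ᵥ (b 0).ofLp = 0
      rw [← dotProduct_mulVec, e0, hBx, dotProduct_zero])
    (EuclideanSpace.single 0 1) (EuclideanSpace.single 1 1) (by simp) (by simp)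
    (by simp [EuclideanSpace.inner_single_right])
  refine ⟨κ, hκ0, hκ1, fun hk => ?_, ?_⟩
  · obtain ⟨lam, hl⟩ := hκ2 hk
    refine ⟨lam, fun k hk0 hk1 => ?_⟩
    rw [← e0] at hk0
    rw [← e1] at hk1
    refine umb_mat b B h1 h2 lam (fun i j => ?_) k hk0 hk1
    have h9 := hl i j
    rw [inn] at h9
    exact h9
  have hL : ∀ f : EuclideanSpace ℝ (Fin (2 * m + 2)), JJ x v B f.ofLp =
      Real.sqrt (gram (iot (b 0) (b 1) (fun i : Fin (2 * m) => b (Fin.succ (Fin.succ i)))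
        (fun i : Fin (2 * m) => WithLp.toLp 2 ((b (Fin.succ (Fin.succ i))).ofLp ᵥ* B)) f)).det := by
    intro f
    have := br_TT b B h1 h2 f
    rw [e0, e1] at this
    rw [this]
  have hD := br_one b B h1 h2
  rw [hD]
  unfold cN
  simp only [hL]
  refine key.trans (le_of_eq ?_)
  congr 2
  refine lintegral_congr (fun f => ?_)
  simp [EuclideanSpace.inner_single_right]

end Pool.Agent.Helper971.OS
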