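import Mathlib
import Pool.Agent.Helper82.OS.Defs
import Pool.Agent.Helper82.OS.star60
import Pool.Agent.Helper82.OS.star60_eq
import Pool.Agent.Helper734.UM
import Pool.Agent.Helper971.OS.R_umb
set_option autoImplicit false
open Matrix MeasureTheory Set Metric Filter Topology
open scoped ENNReal ContDiff

namespace Pool.Agent.Helper82.OS

/-- strict lower bound for the volume of smooth unit fields, `m ≥ 60` -/
theorem osr_strict {m : ℕ} (hm : 60 ≤ m) {V : E (2 * m + 2) → E (2 * m + 2)} (hV : UT V) :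
    ENNReal.ofReal ((16 : ℝ) ^ m / ((4 * m).choose (2 * m) : ℝ)) * sg (2 * m + 2) univ <
      ∫⁻ x : sphere (0 : E (2 * m + 2)) 1, ENNReal.ofReal (dens V x) ∂(sg (2 * m + 2)) := by
  by_contra h
  rw [not_lt] at h
  exact Pool.Agent.Helper734.UM.no_umbilic (by omega) hV
    (umb_of_eq2 (by omega) (star60 hm)
      (fun x v B h1 h2 h3 h4 h5 h6 h7 => star60_eq hm x v B h1 h2 h3 h4 h5 h6 h7) hV h)

end Pool.Agent.Helper82.OS
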