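import Mathlib
import Pool.Agent.Helper82.OS.Defs
import Pool.Agent.Helper82.OS.PPd
import Pool.Agent.Helper82.OS.HausFin
import Pool.Agent.Helper82.OS.sgval
import Pool.Agent.Helper82.OS.cNval
import Pool.Agent.Helper82.OS.haus_sg
import Pool.Agent.Helper82.OS.main_upper
import Pool.Agent.Helper82.OS.densP
import Pool.Agent.Helper971.OS.R_const
set_option autoImplicit false
open Matrix MeasureTheory Set Metric Filter Topology
open scoped ENNReal ContDiff

namespace Pool.Agent.Helper82.OS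



theorem h445_muH_sphere_ne_zero (k : ℕ) :
    (Measure.hausdorffMeasure (k : ℝ) : Measure (EuclideanSpace ℝ (Fin (k + 1))))
      (Metric.sphere 0 1) ≠ 0 := by
  intro h0
  let f : EuclideanSpace ℝ (Fin (k + 1)) → (Fin k → ℝ) := fun x i => x i.succ
  have hf : LipschitzWith 1 f := by
    apply LipschitzWith.of_dist_le_mul
    intro x y
    rw [NNReal.coe_one, one_mul, dist_pi_le_iff dist_nonneg]
    intro i
    have h1 := PiLp.norm_apply_le (x - y) i.succ
    rw [dist_eq_norm, dist_eq_norm]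
    simpa [f] using h1
  have h1 := hf.hausdorffMeasure_image_le (Nat.cast_nonneg k) (Metric.sphere (0 : EuclideanSpace ℝ (Fin (k + 1))) 1)
  have h2 : (Measure.hausdorffMeasure (k : ℝ) : Measure (Fin k → ℝ))
      (f '' (Metric.sphere (0 : EuclideanSpace ℝ (Fin (k + 1))) 1)) = 0 := by
    refine le_antisymm ?_ zero_le
    refine h1.trans ?_
    rw [h0, mul_zero]
  have hr : (0 : ℝ) < 1 / ((k : ℝ) + 1) := by positivity
  have h3 : Metric.ball (0 : Fin k → ℝ) (1 / ((k : ℝ) + 1)) ⊆
      f '' (Metric.sphere (0 : EuclideanSpace ℝ (Fin (k + 1))) 1) := by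
    intro y hy
    rw [mem_ball_zero_iff] at hy
    have hyi : ∀ i, y i ^ 2 ≤ (1 / ((k : ℝ) + 1)) ^ 2 := by
      intro i
      have h4 : |y i| ≤ 1 / ((k : ℝ) + 1) := by
        have := norm_le_pi_norm y i
        rw [Real.norm_eq_abs] at this
        linarith
      rw [← sq_abs (y i)]
      exact pow_le_pow_left₀ (abs_nonneg _) h4 2
    have hsum : ∑ i, y i ^ 2 ≤ 1 := by
      have h5 : ∑ i, y i ^ 2 ≤ ∑ _i : Fin k, (1 / ((k : ℝ) + 1)) ^ 2 :=
        Finset.sum_le_sum fun i _ => hyi i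
      rw [Finset.sum_const, Finset.card_univ, Fintype.card_fin, nsmul_eq_mul] at h5
      refine h5.trans ?_
      have hk : (0 : ℝ) ≤ (k : ℝ) := Nat.cast_nonneg k
      rw [div_pow, one_pow, mul_one_div, div_le_one (by positivity)]
      nlinarith
    refine ⟨WithLp.toLp 2 (Fin.cons (Real.sqrt (1 - ∑ i, y i ^ 2)) y), ?_, ?_⟩
    · rw [mem_sphere_zero_iff_norm, EuclideanSpace.norm_eq, Fin.sum_univ_succ]
      simp only [Fin.cons_zero, Fin.cons_succ, Real.norm_eq_abs, sq_abs]
      rw [Real.sq_sqrt (by linarith)]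
      rw [show 1 - ∑ i, y i ^ 2 + ∑ x, y x ^ 2 = 1 by ring, Real.sqrt_one]
    · funext i
      simp [f]
  have h4 : (Measure.hausdorffMeasure (k : ℝ) : Measure (Fin k → ℝ)) = volume := by
    have := @MeasureTheory.hausdorffMeasure_pi_real (Fin k) _
    simpa using this
  have h5 : volume (Metric.ball (0 : Fin k → ℝ) (1 / ((k : ℝ) + 1))) ≠ 0 :=
    (Metric.measure_ball_pos volume 0 hr).ne'
  apply h5
  rw [← h4]
  exact measure_mono_null h3 h2

theorem osr_value {m : ℕ} (hm : 1 ≤ m) (a v : E (2 * m + 2)) (ha : ‖a‖ = 1) (hv : ‖v‖ = 1)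
    (hav : inner ℝ a v = 0) :
    ∫⁻ x : sphere (0 : E (2 * m + 2)) 1, ENNReal.ofReal (dens (PP a v) x) ∂(sg (2 * m + 2)) =
      ENNReal.ofReal ((16 : ℝ) ^ m / ((4 * m).choose (2 * m) : ℝ)) * sg (2 * m + 2) univ ∧
    AEStronglyMeasurable (fun x : sphere (0 : E (2 * m + 2)) 1 => dens (PP a v) x) (sg (2 * m + 2)) := by
  classical
  have hN : Even (2 * m) := even_two_mul m
  have hN2 : 2 ≤ 2 * m := by omega
  have hgm : Measurable fun x : E (2 * m + 2) =>
      ENNReal.ofReal (fP (2 * m) (inner ℝ a x) (inner ℝ v x)) := mu_meas_main_upperx a v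
  have key : ∀ x : E (2 * m + 2), ‖x‖ = 1 → x ≠ -a →
      dens (PP a v) x = fP (2 * m) (inner ℝ a x) (inner ℝ v x) := by
    intro x hx hxa
    refine densP (by omega) a v x ha hv hav hx ?_
    intro h0
    apply hxa
    have h1 : ‖x + a‖ ^ 2 = 0 := by
      rw [norm_add_sq_real, hx, ha, real_inner_comm]
      linarith
    have h2 : x + a = 0 := by
      have := pow_eq_zero_iff (two_ne_zero) |>.1 h1
      exact norm_eq_zero.1 this
    exact eq_neg_of_add_eq_zero_left h2
  have hkpos : (0 : ℝ) < ((2 * m + 1 : ℕ) : ℝ) := by positivity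
  have hS0 : (Measure.hausdorffMeasure ((2 * m + 1 : ℕ) : ℝ) : Measure (E (2 * m + 2)))
      (sphere 0 1) ≠ 0 := h445_muH_sphere_ne_zero (2 * m + 1)
  have hST : (Measure.hausdorffMeasure ((2 * m + 1 : ℕ) : ℝ) : Measure (E (2 * m + 2)))
      (sphere 0 1) ≠ ⊤ := B08_sphere_finite (2 * m + 1)
  have hnull : (Measure.hausdorffMeasure ((2 * m + 1 : ℕ) : ℝ) : Measure (E (2 * m + 2)))
      {-a} = 0 := by
    have := MeasureTheory.Measure.nullSingletonClass_hausdorff (E (2 * m + 2)) hkpos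
    exact measure_singleton _
  -- the sphere measure has no atom at -a
  have hae : ∀ᵐ f : sphere (0 : E (2 * m + 2)) 1 ∂(sg (2 * m + 2)), (f : E (2 * m + 2)) ≠ -a := by
    have hind : Measurable (Set.indicator ({-a} : Set (E (2 * m + 2))) (fun _ => (1 : ℝ≥0∞))) :=
      measurable_const.indicator (measurableSet_singleton _)
    have h1 := haus_sg (k := 2 * m + 1) (Set.indicator ({-a} : Set (E (2 * m + 2)))
      (fun _ => (1 : ℝ≥0∞))) hind
    have h2 : ∫⁻ x in sphere (0 : E (2 * m + 2)) 1,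
        Set.indicator ({-a} : Set (E (2 * m + 2))) (fun _ => (1 : ℝ≥0∞)) x
          ∂(Measure.hausdorffMeasure ((2 * m + 1 : ℕ) : ℝ)) = 0 := by
      rw [lintegral_indicator (measurableSet_singleton _), setLIntegral_const, one_mul]
      exact le_antisymm ((Measure.restrict_apply_le _ _).trans hnull.le) zero_le
    have h3 : (Measure.hausdorffMeasure ((2 * m + 1 : ℕ) : ℝ) : Measure (E (2 * m + 2)))
        (sphere 0 1) * ∫⁻ f : sphere (0 : E (2 * m + 2)) 1,
          Set.indicator ({-a} : Set (E (2 * m + 2))) (fun _ => (1 : ℝ≥0∞)) f ∂(sg (2 * m + 2)) = 0 := by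
      refine Eq.trans h1.symm ?_
      refine Eq.trans (congrArg (· * sg (2 * m + 1 + 1) univ) h2) ?_
      simp
    have h4 := (mul_eq_zero.1 h3).resolve_left hS0
    have hind' : Measurable (fun f : sphere (0 : E (2 * m + 2)) 1 =>
        Set.indicator ({-a} : Set (E (2 * m + 2))) (fun _ => (1 : ℝ≥0∞)) (f : E (2 * m + 2))) :=
      hind.comp measurable_subtype_coe
    have h4' := (lintegral_eq_zero_iff hind').1 h4
    filter_upwards [h4'] with f hf hfa
    simp only [Pi.zero_apply] at hf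
    rw [hfa] at hf
    simp at hf
  -- value
  have hsgeq : ∫⁻ x : sphere (0 : E (2 * m + 2)) 1, ENNReal.ofReal (dens (PP a v) x) ∂(sg (2 * m + 2))
      = ∫⁻ x : sphere (0 : E (2 * m + 2)) 1,
        ENNReal.ofReal (fP (2 * m) (inner ℝ a (x : E (2 * m + 2))) (inner ℝ v (x : E (2 * m + 2))))
          ∂(sg (2 * m + 2)) := by
    apply lintegral_congr_ae
    filter_upwards [hae] with f hf
    rw [key f (mem_sphere_zero_iff_norm.1 f.2) hf]
  have hmueq : ∫⁻ x in sphere (0 : E (2 * m + 2)) 1, ENNReal.ofReal (dens (PP a v) x)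
        ∂(Measure.hausdorffMeasure ((2 * m + 1 : ℕ) : ℝ))
      = ∫⁻ x in sphere (0 : E (2 * m + 2)) 1,
        ENNReal.ofReal (fP (2 * m) (inner ℝ a x) (inner ℝ v x))
          ∂(Measure.hausdorffMeasure ((2 * m + 1 : ℕ) : ℝ)) := by
    apply lintegral_congr_ae
    have h5 : ∀ᵐ x ∂((Measure.hausdorffMeasure ((2 * m + 1 : ℕ) : ℝ) : Measure (E (2 * m + 2))).restrict
        (sphere 0 1)), x ≠ -a := by
      apply ae_restrict_of_ae
      rw [ae_iff]
      simpa using hnull
    filter_upwards [h5, ae_restrict_mem isClosed_sphere.measurableSet] with x hx hxs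
    rw [key x (mem_sphere_zero_iff_norm.1 hxs) hx]
  constructor
  · have hmain := main_upper (N := 2 * m) hN hN2 a v ha hv hav
    rw [hmueq, osr_const hm] at hmain
    have hcN : cN (2 * m) ≠ 0 := by
      rw [cNval hN hN2]
      simp only [ne_eq, ENNReal.ofReal_eq_zero, not_le]
      have g1 : 0 < Real.Gamma (((2 * m : ℕ) : ℝ) / 2) := by
        apply Real.Gamma_pos_of_pos
        have : 0 < m := hm
        positivity
      have g2 : 0 < Real.Gamma (((2 * m : ℕ) : ℝ) + 1 / 2) := by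
        apply Real.Gamma_pos_of_pos
        positivity
      have g3 : 0 < Real.Gamma (((2 * m : ℕ) : ℝ) + 1) := by
        apply Real.Gamma_pos_of_pos
        positivity
      have g4 : 0 < Real.Gamma ((2 * m : ℕ) : ℝ) := by
        apply Real.Gamma_pos_of_pos
        have : 0 < m := hm
        positivity
      positivity
    have hcT : cN (2 * m) ≠ ⊤ := by
      rw [cNval hN hN2]
      exact ENNReal.ofReal_ne_top
    have hC0 : ENNReal.ofReal (2 ^ (2 * m)) * cN (2 * m) ≠ 0 := by
      apply mul_ne_zero _ hcN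
      simp only [ne_eq, ENNReal.ofReal_eq_zero, not_le]
      positivity
    have hCT : ENNReal.ofReal (2 ^ (2 * m)) * cN (2 * m) ≠ ⊤ :=
      ENNReal.mul_ne_top ENNReal.ofReal_ne_top hcT
    rw [mul_assoc (ENNReal.ofReal (2 ^ (2 * m)) * cN (2 * m))] at hmain
    have h6 := (ENNReal.mul_right_inj hC0 hCT).1 hmain
    have h7 := haus_sg (k := 2 * m + 1) (fun x : E (2 * m + 2) =>
      ENNReal.ofReal (fP (2 * m) (inner ℝ a x) (inner ℝ v x))) hgm
    rw [hsgeq]
    have h8 : (Measure.hausdorffMeasure ((2 * m + 1 : ℕ) : ℝ) : Measure (E (2 * m + 2))) (sphere 0 1) *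
        ∫⁻ f : sphere (0 : E (2 * m + 2)) 1,
          ENNReal.ofReal (fP (2 * m) (inner ℝ a (f : E (2 * m + 2))) (inner ℝ v (f : E (2 * m + 2))))
            ∂(sg (2 * m + 2)) =
        (Measure.hausdorffMeasure ((2 * m + 1 : ℕ) : ℝ) : Measure (E (2 * m + 2))) (sphere 0 1) *
        (ENNReal.ofReal ((16 : ℝ) ^ m / ((4 * m).choose (2 * m) : ℝ)) * sg (2 * m + 2) univ) := by
      refine Eq.trans h7.symm ?_
      refine Eq.trans (congrArg (· * sg (2 * m + 1 + 1) univ) h6) ?_
      show ENNReal.ofReal ((16 : ℝ) ^ m / ((4 * m).choose (2 * m) : ℝ)) * _ * sg (2 * m + 2) univ = _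
      ring
    exact (ENNReal.mul_right_inj hS0 hST).1 h8
  · have hmeas : Measurable fun x : sphere (0 : E (2 * m + 2)) 1 =>
        fP (2 * m) (inner ℝ a (x : E (2 * m + 2))) (inner ℝ v (x : E (2 * m + 2))) := by
      unfold fP
      have i1 : Measurable fun x : sphere (0 : E (2 * m + 2)) 1 => (inner ℝ a (x : E (2 * m + 2)) : ℝ) :=
        (measurable_const.inner measurable_subtype_coe)
      have i2 : Measurable fun x : sphere (0 : E (2 * m + 2)) 1 => (inner ℝ v (x : E (2 * m + 2)) : ℝ) :=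
        (measurable_const.inner measurable_subtype_coe)
      fun_prop
    refine ⟨_, hmeas.stronglyMeasurable, ?_⟩
    filter_upwards [hae] with f hf
    exact key f (mem_sphere_zero_iff_norm.1 f.2) hf

end Pool.Agent.Helper82.OS
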